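import Pool.Agent.Lib.MP_cc2398_al.Spec

set_option autoImplicit false

namespace Pool.Agent.MPcc2398

universe u v

namespace Ab

theorem fin_NC {G : Type u} [Group G] (A : Subgroup G) (g : G) (hg : g ∈ NC (⊤ : Subgroup G) A) :
    ∃ t : Finset G, ∀ L : Subgroup G, (t : Set G) ⊆ L → g ∈ NC L A := by
  classical
  unfold NC at hg
  refine Subgroup.iSup_induction (fun x : (⊤ : Subgroup G) => cj (x : G) A)
    (C := fun g => ∃ t : Finset G, ∀ L : Subgroup G, (t : Set G) ⊆ L → g ∈ NC L A) hg ?_ ?_ ?_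
  · intro x y hy
    refine ⟨{(x : G)}, fun L hL => ?_⟩
    exact cj_le_NC (hL (by simp)) hy
  · exact ⟨∅, fun L _ => Subgroup.one_mem _⟩
  · rintro x y ⟨t, ht⟩ ⟨t', ht'⟩
    refine ⟨t ∪ t', fun L hL => ?_⟩
    rw [Finset.coe_union, Set.union_subset_iff] at hL
    exact Subgroup.mul_mem _ (ht L hL.1) (ht' L hL.2)

theorem fin_NC' {G : Type u} [Group G] (A : Subgroup G) (h : NC (⊤ : Subgroup G) A = ⊤) (s : Finset G) :
    ∃ t : Finset G, ∀ L : Subgroup G, (t : Set G) ⊆ L → (s : Set G) ⊆ NC L A := by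
  classical
  induction s using Finset.induction_on with
  | empty => exact ⟨∅, fun L _ => by simp⟩
  | insert a s _ ih =>
    obtain ⟨t, ht⟩ := ih
    obtain ⟨t', ht'⟩ := fin_NC A a (by rw [h]; trivial)
    refine ⟨t ∪ t', fun L hL => ?_⟩
    rw [Finset.coe_union, Set.union_subset_iff] at hL
    rw [Finset.coe_insert, Set.insert_subset_iff]
    exact ⟨ht' L hL.2, ht L hL.1⟩

end Ab

theorem vAb (hBig : S_Big.{u}) (hCom : S_Com.{u}) (hStar : S_Star.{u}) (hSimp : S_Simp.{u}) : S_Ab.{u} := by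
  classical
  intro G _ H hSP K A hK hAK hKA hcomm
  by_contra hA
  have hTB := hSP.tb
  obtain ⟨c1, c2, c3, c4, c5, c6, c7⟩ := hCom G H hTB
  have hN : (NC (⊤ : Subgroup G) A).Normal := ⟨fun g hg x => inv_NC ⊤ A x (Subgroup.mem_top x) g hg⟩
  have htop : NC (⊤ : Subgroup G) A = ⊤ := by
    rcases hSP.simple _ hN with h | h
    · exact absurd (le_bot_iff.1 (h ▸ le_NC ⊤ A)) hA
    · exact h
  have hloc : ∀ s : Finset G, ∃ X : Subgroup G, (s : Set G) ⊆ X ∧ Group.IsNilpotent X := by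
    intro s
    obtain ⟨t, ht⟩ := Ab.fin_NC' A htop s
    obtain ⟨L, h1, _, h3, h4⟩ := hBig G H hTB K (c1 K hK) t
    exact ⟨NC L A, ht L h4, hStar G H hSP K A L hK hAK hKA hcomm h3 h1⟩
  have hab := hSimp G hSP.simple hloc
  have hne : ∃ g : G, g ≠ 1 := by
    by_contra h
    push Not at h
    have : Subsingleton G := ⟨fun a b => by rw [h a, h b]⟩
    have h0 := hTB.idx
    have h1 : H = ⊤ := Subsingleton.elim _ _
    rw [h1, Subgroup.index_top] at h0
    exact one_ne_zero h0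
  obtain ⟨g, hg⟩ := hne
  have hzn : (Subgroup.zpowers g).Normal := by
    refine ⟨fun n hn x => ?_⟩
    rw [hab x n, mul_assoc, mul_inv_cancel, mul_one]
    exact hn
  rcases hSP.simple _ hzn with h | h
  · exact hg (by simpa using h)
  · exact hTB.cyc g h

end Pool.Agent.MPcc2398
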