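import Pool.Agent.Lib.MP_cc2398_al.Spec

set_option autoImplicit false

namespace Pool.Agent.MPcc2398

universe u v

open Pointwise in
theorem vAct : S_Act.{u, v} := by
  classical
  intro G _ Ω _ hinf hfaith htrans hfin hblock ω
  have hBlk : ∀ B : Set Ω, MulAction.IsBlock G B → ω ∈ B → ∀ g : G, g • ω ∈ B →
      g ∈ MulAction.stabilizer G B := by
    intro B hB hω g hg
    rw [MulAction.mem_stabilizer_iff]
    apply (MulAction.isBlock_iff_smul_eq_of_nonempty.1 hB)
    exact ⟨g • ω, Set.smul_mem_smul_set hω, hg⟩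
  have hprop : ∀ (B : Set Ω) (M : Subgroup G), B.Finite → ω ∈ B → M ≤ MulAction.stabilizer G B →
      M ≠ ⊤ := by
    intro B M hBf hω hM htop
    have huniv : B = Set.univ := by
      refine Set.eq_univ_of_forall fun x => ?_
      obtain ⟨g, hg⟩ := MulAction.exists_smul_eq G ω x
      have h1 : g ∈ MulAction.stabilizer G B := hM (by rw [htop]; exact Subgroup.mem_top g)
      rw [MulAction.mem_stabilizer_iff] at h1
      rw [← h1, ← hg]
      exact Set.smul_mem_smul_set hω
    rw [huniv] at hBf
    exact Set.infinite_univ hBf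
  refine ⟨⟨?_, ?_, ?_, ?_⟩, ?_⟩
  · rw [MulAction.index_stabilizer, MulAction.orbit_eq_univ, Set.ncard_univ]
    exact Nat.card_eq_zero_of_infinite
  · intro K hK
    have h1 : (MulAction.stabilizer G ω).relIndex K = (MulAction.stabilizer K ω).index := by
      unfold Subgroup.relIndex
      congr 1
    rw [h1, MulAction.index_stabilizer]
    have h2 := hfin K hK ω
    intro h3
    rw [Set.ncard_eq_zero h2] at h3
    have h4 : ω ∈ MulAction.orbit K ω := MulAction.mem_orbit_self ω
    rw [h3] at h4
    exact h4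
  · intro K L hK hL
    obtain ⟨B, hFB, hBf, hB⟩ := hblock (MulAction.orbit K ω ∪ MulAction.orbit L ω)
      ((hfin K hK ω).union (hfin L hL ω))
    have hω : ω ∈ B := hFB (Or.inl (MulAction.mem_orbit_self ω))
    apply hprop B _ hBf hω
    apply sup_le
    · intro k hk
      exact hBlk B hB hω k (hFB (Or.inl ⟨⟨k, hk⟩, rfl⟩))
    · intro k hk
      exact hBlk B hB hω k (hFB (Or.inr ⟨⟨k, hk⟩, rfl⟩))
  · intro g
    obtain ⟨B, hFB, hBf, hB⟩ := hblock {ω, g • ω} (Set.toFinite _)
    have hω : ω ∈ B := hFB (by simp)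
    apply hprop B _ hBf hω
    rw [Subgroup.zpowers_le]
    exact hBlk B hB hω g (hFB (by simp))
  · intro N hN hNω
    rw [eq_bot_iff]
    intro n hn
    rw [Subgroup.mem_bot]
    apply hfaith.eq_of_smul_eq_smul
    intro x
    obtain ⟨g, rfl⟩ := MulAction.exists_smul_eq G ω x
    have h1 : g⁻¹ * n * g ∈ N := by
      have := hN.conj_mem n hn g⁻¹
      simpa using this
    have h2 := hNω h1
    rw [MulAction.mem_stabilizer_iff] at h2
    rw [one_smul]
    calc n • g • ω = g • ((g⁻¹ * n * g) • ω) := by simp [smul_smul, mul_assoc]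
      _ = g • ω := by rw [h2]

end Pool.Agent.MPcc2398
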