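import Pool.Agent.Lib.MP_cc2398_al.Spec

set_option autoImplicit false

namespace Pool.Agent.MPcc2398

universe u v

theorem vBig : S_Big.{u} := by
  classical
  intro G _ H hTB K hK s
  have hH : H ≠ ⊤ := by
    rintro rfl
    have h := hTB.idx
    rw [Subgroup.index_top] at h
    exact one_ne_zero h
  induction s using Finset.induction_on with
  | empty => exact ⟨K ⊔ H, hTB.join K H hK hH, le_sup_right, le_sup_left, by simp⟩
  | insert a s ha ih =>
    obtain ⟨L, hL, h1, h2, h3⟩ := ih
    refine ⟨L ⊔ Subgroup.zpowers a, hTB.join _ _ hL (hTB.cyc a), h1.trans le_sup_left,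
      h2.trans le_sup_left, ?_⟩
    intro x hx
    rw [Finset.coe_insert] at hx
    rcases hx with rfl | hx
    · exact (le_sup_right : Subgroup.zpowers x ≤ L ⊔ Subgroup.zpowers x) (Subgroup.mem_zpowers _)
    · exact (le_sup_left : L ≤ L ⊔ Subgroup.zpowers a) (h3 hx)

end Pool.Agent.MPcc2398
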