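import Pool.Agent.Lib.MP_cc2398_al.Spec

/-!
# MP_cc2398_al: Com (commensurability)
-/

set_option autoImplicit false

namespace Pool.Agent.MPcc2398

universe u v

namespace Com

theorem H_ne_top {G : Type u} [Group G] {H : Subgroup G} (hT : TB H) : H ≠ ⊤ := by
  rintro rfl
  have := hT.idx
  rw [Subgroup.index_top] at this
  exact one_ne_zero this

theorem c1 {G : Type u} [Group G] {H : Subgroup G} (hT : TB H) (K : Subgroup G) (h : Co H K) :
    K ≠ ⊤ := by
  rintro rfl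
  apply h.2
  rw [Subgroup.relIndex_top_right]
  exact hT.idx

theorem c2 {G : Type u} [Group G] {H : Subgroup G} (hT : TB H) (K : Subgroup G) (hK : K ≠ ⊤)
    (h : K.relIndex H ≠ 0) : Co H K := ⟨h, hT.rel K hK⟩

theorem c3 {G : Type u} [Group G] {H : Subgroup G} (hT : TB H) (K L : Subgroup G) (h : Co H K)
    (hL : L ≠ ⊤) : K.relIndex L ≠ 0 := by
  have h1 : H.relIndex (L ⊔ H) ≠ 0 := hT.rel _ (hT.join L H hL (H_ne_top hT))
  have h2 : K.relIndex (L ⊔ H) ≠ 0 := Subgroup.relIndex_ne_zero_trans h.1 h1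
  exact fun h3 => h2 (Subgroup.relIndex_eq_zero_of_le_right le_sup_left h3)

theorem cj_ne_top {G : Type u} [Group G] {K : Subgroup G} (hK : K ≠ ⊤) (x : G) : cj x K ≠ ⊤ := by
  intro h
  apply hK
  have h1 : cj x⁻¹ (cj x K) = cj x⁻¹ ⊤ := by rw [h]
  rw [← cj_mul, inv_mul_cancel, cj_one, cj_top] at h1
  exact h1

theorem cj_self {G : Type u} [Group G] {L : Subgroup G} {x : G} (hx : x ∈ L) : cj x L = L :=
  cj_eq_of_inv (inv_self L) hx

theorem c4 {G : Type u} [Group G] {H : Subgroup G} (hT : TB H) (K : Subgroup G) (x : G)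
    (h : Co H K) : Co H (cj x K) := by
  have hK := c1 hT K h
  have hL : (H ⊔ K) ⊔ Subgroup.zpowers x ≠ ⊤ :=
    hT.join _ _ (hT.join H K (H_ne_top hT) hK) (hT.cyc x)
  set L := (H ⊔ K) ⊔ Subgroup.zpowers x with hLd
  have hxL : x ∈ L := (le_sup_right : Subgroup.zpowers x ≤ L) (Subgroup.mem_zpowers x)
  have hHL : H ≤ L := le_sup_left.trans le_sup_left
  have h1 : K.relIndex L ≠ 0 := c3 hT K L h hL
  have h2 : (cj x K).relIndex (cj x L) = K.relIndex L :=
    Subgroup.relIndex_map_map_of_injective K L (MulAut.conj x).injective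
  rw [cj_self hxL] at h2
  refine c2 hT _ (cj_ne_top hK x) fun h3 => ?_
  rw [← h2] at h1
  exact h1 (Subgroup.relIndex_eq_zero_of_le_right hHL h3)

theorem c6 {G : Type u} [Group G] {H : Subgroup G} (hT : TB H) (K L : Subgroup G) (h : Co H K)
    (hKL : K ≤ L) (hL : L ≠ ⊤) : ∃ M : Subgroup G, M ≤ K ∧ Co H M ∧ Inv L M := by
  have h1 : K.relIndex L ≠ 0 := c3 hT K L h hL
  haveI : (K.subgroupOf L).FiniteIndex := ⟨h1⟩
  have h2 : ((K.subgroupOf L).normalCore).FiniteIndex := Subgroup.finiteIndex_normalCore _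
  set N := (K.subgroupOf L).normalCore with hN
  have hM : (N.map L.subtype).relIndex L ≠ 0 := by
    have h3 : (N.map L.subtype).subgroupOf L = N := by
      rw [Subgroup.subgroupOf]
      exact Subgroup.comap_map_eq_self_of_injective L.subtype_injective N
    rw [Subgroup.relIndex, h3]
    exact h2.index_ne_zero
  have hMK : N.map L.subtype ≤ K := by
    rintro _ ⟨n, hn, rfl⟩
    have h4 : n ∈ K.subgroupOf L := Subgroup.normalCore_le _ hn
    exact h4
  refine ⟨N.map L.subtype, hMK, ?_, ?_⟩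
  · have h5 : (N.map L.subtype).relIndex K ≠ 0 := fun h6 =>
      hM (Subgroup.relIndex_eq_zero_of_le_right hKL h6)
    refine c2 hT _ (fun h6 => ?_) (Subgroup.relIndex_ne_zero_trans h5 h.1)
    rw [h6, top_le_iff] at hMK
    exact c1 hT K h hMK
  · rintro l hl _ ⟨n, hn, rfl⟩
    refine ⟨⟨l, hl⟩ * n * ⟨l, hl⟩⁻¹, ?_, rfl⟩
    exact (Subgroup.normalCore_normal (K.subgroupOf L)).conj_mem n hn ⟨l, hl⟩

end Com

open Com in
theorem vCom : S_Com.{u} := by
  intro G _ H hT
  refine ⟨c1 hT, c2 hT, c3 hT, c4 hT, ?_, c6 hT, ?_⟩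
  · intro K K' h h'
    refine c2 hT _ (fun h1 => c1 hT K h ?_) (Subgroup.relIndex_inf_ne_zero h.1 h'.1)
    rw [← top_le_iff, ← h1]
    exact inf_le_left
  · intro K hK hHK
    refine c2 hT K hK ?_
    rw [Subgroup.relIndex_eq_one.2 hHK]
    exact one_ne_zero

end Pool.Agent.MPcc2398
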