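import Pool.Agent.Lib.MP_cc2398_al.Spec

/-!
# MP_cc2398_al: the subgroup generated by the conjugates of a subgroup
-/

set_option autoImplicit false

namespace Pool.Agent.MPcc2398

universe u v

open Subgroup

private theorem Core_cj_eq {G : Type u} [Group G] {K A : Subgroup G} (hA : Inv K A) {x y : G}
    (h : x⁻¹ * y ∈ K) : cj y A = cj x A := by
  have e : y = x * (x⁻¹ * y) := by group
  rw [e, cj_mul, cj_eq_of_inv hA h]

private theorem Core_fin {G : Type u} [Group G] {K L A : Subgroup G} (hKL : K.relIndex L ≠ 0)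
    (hA : Inv K A) : (Set.range fun x : L => cj (x : G) A).Finite := by
  have hf : Finite (L ⧸ K.subgroupOf L) := by
    apply Nat.finite_of_card_ne_zero
    exact hKL
  apply (Set.finite_range (fun q : L ⧸ K.subgroupOf L => cj ((q.out : L) : G) A)).subset
  rintro _ ⟨x, rfl⟩
  refine ⟨(QuotientGroup.mk x : L ⧸ K.subgroupOf L), ?_⟩
  have h1 : (QuotientGroup.mk x : L ⧸ K.subgroupOf L) =
      QuotientGroup.mk ((QuotientGroup.mk x : L ⧸ K.subgroupOf L).out) :=
    (Quotient.out_eq' _).symm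
  rw [QuotientGroup.eq, mem_subgroupOf] at h1
  exact Core_cj_eq hA (by simpa using h1)

/-- the image of a subgroup with finite index over `M` modulo `S` is finite -/
private theorem Core_img {G Q : Type u} [Group G] [Group Q] {L : Subgroup G} (π : L →* Q)
    (B M : Subgroup G) (hB : B ≤ L) (hM : M.relIndex B ≠ 0)
    (hker : ∀ g : L, (g : G) ∈ B → (g : G) ∈ M → π g = 1) :
    {q : Q | ∃ g : L, (g : G) ∈ B ∧ π g = q}.Finite := by
  have hf : Finite (B ⧸ M.subgroupOf B) := by
    apply Nat.finite_of_card_ne_zero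
    exact hM
  apply (Set.finite_range (fun q : B ⧸ M.subgroupOf B => π ⟨((q.out : B) : G), hB (q.out : B).2⟩)).subset
  rintro _ ⟨g, hg, rfl⟩
  refine ⟨(QuotientGroup.mk (⟨g, hg⟩ : B) : B ⧸ M.subgroupOf B), ?_⟩
  set b := (QuotientGroup.mk (⟨g, hg⟩ : B) : B ⧸ M.subgroupOf B).out with hb
  have h1 : (QuotientGroup.mk (⟨g, hg⟩ : B) : B ⧸ M.subgroupOf B) = QuotientGroup.mk b :=
    (Quotient.out_eq' _).symm
  rw [QuotientGroup.eq, mem_subgroupOf] at h1
  have h2 : π (g⁻¹ * ⟨(b : G), hB b.2⟩) = 1 := by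
    apply hker
    · exact B.mul_mem (B.inv_mem hg) b.2
    · exact h1
  rw [map_mul, map_inv, inv_mul_eq_one] at h2
  exact h2.symm

theorem vCore (hDietz : S_Dietz.{u}) : S_Core.{u} := by
  intro G _ K L A M hKL hKLi hAK hKA hMK hMLi hLM
  have h1 := Core_fin (L := L) hKLi hKA
  have hcjM : ∀ x ∈ L, cj x M = M := fun x hx => cj_eq_of_inv hLM hx
  have h2 : ∀ x ∈ L, Inv M (cj x A) := by
    intro x hx
    have h := hKA.cj x
    apply h.mono
    rw [← hcjM x hx]
    exact cj_mono x hMK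
  have hSM : SM L A M ≤ M := iSup_le fun x => inf_le_right
  have hSN : SM L A M ≤ NC L A := iSup_le fun x => inf_le_left.trans (cj_le_NC x.2)
  have h4 : Inv L (SM L A M) := by
    intro l hl m hm
    have k1 : l * m * l⁻¹ ∈ cj l (SM L A M) := conj_mem_cj hm
    have k2 : cj l (SM L A M) ≤ SM L A M := by
      unfold SM
      rw [cj, Subgroup.map_iSup]
      refine iSup_le fun x => ?_
      have h3 : Subgroup.map (MulAut.conj l).toMonoidHom (cj (x : G) A ⊓ M) = cj (l * x) A ⊓ M := by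
        change cj l (cj (x : G) A ⊓ M) = _
        rw [cj_inf, ← cj_mul, hcjM l hl]
      rw [h3]
      exact le_iSup (fun x : L => cj (x : G) A ⊓ M) ⟨l * x, L.mul_mem hl x.2⟩
    exact k2 k1
  refine ⟨h1, h2, ⟨hSM, hSN⟩, h4, ?_⟩
  -- the quotient
  have hAL : A ≤ L := hAK.trans hKL
  have hNL : NC L A ≤ L := NC_le hAL
  have hn : ((SM L A M).subgroupOf L).Normal := by
    constructor
    intro n hn g
    rw [mem_subgroupOf] at hn ⊢
    exact h4 g g.2 n hn
  set π : L →* L ⧸ (SM L A M).subgroupOf L := QuotientGroup.mk' _ with hπ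
  have hπk : ∀ g : L, (g : G) ∈ SM L A M → π g = 1 := by
    intro g hg
    rw [hπ, QuotientGroup.mk'_apply, QuotientGroup.eq_one_iff, mem_subgroupOf]
    exact hg
  have hπk' : ∀ g : L, π g = 1 → (g : G) ∈ SM L A M := by
    intro g hg
    rw [hπ, QuotientGroup.mk'_apply, QuotientGroup.eq_one_iff, mem_subgroupOf] at hg
    exact hg
  have hBfin : ∀ x : L, {q | ∃ g : L, (g : G) ∈ cj (x : G) A ∧ π g = q}.Finite := by
    intro x
    have hBL : cj (x : G) A ≤ L := cj_le_of_le hAL x.2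
    apply Core_img π (cj (x : G) A) M hBL
    · exact fun h => hMLi (relIndex_eq_zero_of_le_right hBL h)
    · intro g hg hg'
      apply hπk
      exact (le_iSup (fun x : L => cj (x : G) A ⊓ M) x) ⟨hg, hg'⟩
  set t : Set (L ⧸ (SM L A M).subgroupOf L) :=
    {q | ∃ x : L, ∃ g : L, (g : G) ∈ cj (x : G) A ∧ π g = q} with ht
  have htfin : t.Finite := by
    have : t = ⋃ B ∈ (Set.range fun x : L => cj (x : G) A), {q | ∃ g : L, (g : G) ∈ B ∧ π g = q} := by
      ext q
      simp only [ht, Set.mem_ofPred_eq, Set.mem_iUnion, Set.mem_range, exists_prop]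
      constructor
      · rintro ⟨x, g, hg, hq⟩
        exact ⟨_, ⟨x, rfl⟩, g, hg, hq⟩
      · rintro ⟨_, ⟨x, rfl⟩, g, hg, hq⟩
        exact ⟨x, g, hg, hq⟩
    rw [this]
    apply h1.biUnion
    rintro _ ⟨x, rfl⟩
    exact hBfin x
  have htc : ∀ x : L ⧸ (SM L A M).subgroupOf L, ∀ y ∈ t, x * y * x⁻¹ ∈ t := by
    intro z y hy
    obtain ⟨l, rfl⟩ := QuotientGroup.mk'_surjective _ z
    obtain ⟨x, g, hg, rfl⟩ := hy
    refine ⟨l * x, l * g * l⁻¹, ?_, ?_⟩
    · rw [Subgroup.coe_mul, cj_mul]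
      exact conj_mem_cj hg
    · rw [map_mul, map_mul, map_inv]
  have hto : ∀ y ∈ t, IsOfFinOrder y := by
    rintro y ⟨x, g, hg, rfl⟩
    rw [← finite_powers]
    apply (hBfin x).subset
    rintro _ ⟨k, rfl⟩
    refine ⟨g ^ k, ?_, ?_⟩
    · rw [Subgroup.coe_pow]
      exact (cj (x : G) A).pow_mem hg k
    · rw [map_pow]
  have hcl := hDietz _ t htfin htc hto
  -- the image of NC
  have him : ∀ g : L, (g : G) ∈ NC L A → π g ∈ closure t := by
    have hle : NC L A ≤ ((closure t).comap π).map L.subtype := by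
      refine iSup_le fun x => ?_
      intro g hg
      have hgL : g ∈ L := cj_le_of_le hAL x.2 hg
      refine ⟨⟨g, hgL⟩, ?_, rfl⟩
      exact subset_closure ⟨x, ⟨g, hgL⟩, hg, rfl⟩
    intro g hg
    obtain ⟨g', hg', e⟩ := hle hg
    have : g' = g := Subtype.ext e
    rw [← this]
    exact hg'
  set f : NC L A →* L ⧸ (SM L A M).subgroupOf L := π.comp (inclusion hNL) with hf
  have hker : f.ker = (SM L A M).subgroupOf (NC L A) := by
    ext g
    rw [MonoidHom.mem_ker, mem_subgroupOf]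
    constructor
    · intro h
      exact hπk' (inclusion hNL g) h
    · intro h
      exact hπk (inclusion hNL g) h
  change ((SM L A M).subgroupOf (NC L A)).index ≠ 0
  rw [← hker, index_ker]
  have hfr : Finite f.range := by
    apply hcl.subset
    rintro _ ⟨g, rfl⟩
    exact him (inclusion hNL g) g.2
  exact Nat.card_pos.ne'

end Pool.Agent.MPcc2398
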