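import Pool.Agent.Lib.MP_cc2398_al.Spec

set_option autoImplicit false

namespace Pool.Agent.MPcc2398

universe u v

namespace FG

/-- a finitely generated group has finitely many homomorphisms into a finite group -/
theorem finite_hom {X : Type u} [Group X] (hX : Group.FG X) {M : Type} [Group M] [Finite M] :
    Finite (X →* M) := by
  obtain ⟨S, hS⟩ := hX.out
  refine Finite.of_injective (fun φ : X →* M => fun s : S => φ (s : X)) ?_
  intro φ ψ h
  refine MonoidHom.eq_of_eqOn_dense hS ?_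
  intro s hs
  exact congrFun h ⟨s, hs⟩

end FG

theorem vFG : S_FG.{u} := by
  intro X _ hX n
  have hfin : ∀ k : Fin (n + 1), Finite (X →* Equiv.Perm (Fin (k : ℕ))) :=
    fun k => FG.finite_hom hX
  refine ⟨⨅ k : Fin (n + 1), ⨅ φ : X →* Equiv.Perm (Fin (k : ℕ)), φ.ker, ?_, ?_⟩
  · refine Subgroup.index_iInf_ne_zero fun k => ?_
    have := hfin k
    refine Subgroup.index_iInf_ne_zero fun φ => ?_
    exact Subgroup.FiniteIndex.index_ne_zero
  · intro Y hY0 hYn
    have hYF : Y.FiniteIndex := ⟨hY0⟩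
    have hF : Finite (X ⧸ Y) := Subgroup.finite_quotient_of_finiteIndex
    let e : (X ⧸ Y) ≃ Fin Y.index := Finite.equivFinOfCardEq rfl
    let φ : X →* Equiv.Perm (Fin Y.index) :=
      (e.permCongrHom : Equiv.Perm (X ⧸ Y) ≃* Equiv.Perm (Fin Y.index)).toMonoidHom.comp
        (MulAction.toPermHom X (X ⧸ Y))
    intro j hj
    have h1 : j ∈ φ.ker := by
      have h2 := (Subgroup.mem_iInf.mp hj) ⟨Y.index, by omega⟩
      exact (Subgroup.mem_iInf.mp h2) φ
    have h3 : (e.permCongrHom : Equiv.Perm (X ⧸ Y) ≃* Equiv.Perm (Fin Y.index))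
        (MulAction.toPermHom X (X ⧸ Y) j) = 1 := h1
    have h4 : MulAction.toPermHom X (X ⧸ Y) j = 1 := by
      rwa [MulEquiv.map_eq_one_iff] at h3
    have h5 : j • ((1 : X) : X ⧸ Y) = ((1 : X) : X ⧸ Y) := by
      have h6 := congrArg (fun p : Equiv.Perm (X ⧸ Y) => p ((1 : X) : X ⧸ Y)) h4
      exact h6
    have h6 : ((j * 1 : X) : X ⧸ Y) = ((1 : X) : X ⧸ Y) := h5
    rw [mul_one, QuotientGroup.eq, mul_one] at h6
    exact inv_mem_iff.mp h6

end Pool.Agent.MPcc2398
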