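import Pool.Agent.Lib.MP_cc2398_al.Spec

/-!
# MP_cc2398_al: Fitting's theorem
-/

set_option autoImplicit false

namespace Pool.Agent.MPcc2398

universe u v

open Subgroup
open scoped commutatorElement

/-- the terms: `a 0 = ⊤`, `a (i + 1) = γ_i(A)` -/
private def Fit_a {X : Type u} [Group X] (A : Subgroup X) : ℕ → Subgroup X
  | 0 => ⊤
  | i + 1 => A.lowerCentralSeries i

private theorem Fit_normal {X : Type u} [Group X] (A : Subgroup X) [A.Normal] (i : ℕ) :
    (Fit_a A i).Normal := by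
  cases i with
  | zero => exact inferInstanceAs (⊤ : Subgroup X).Normal
  | succ i => exact lowerCentralSeries_normal A i

private theorem Fit_step {X : Type u} [Group X] (A : Subgroup X) [A.Normal] (i : ℕ) (x y : X)
    (hx : x ∈ Fit_a A i) (hy : y ∈ A) : ⁅x, y⁆ ∈ Fit_a A (i + 1) := by
  cases i with
  | zero => exact commutator_le_right ⊤ A (commutator_mem_commutator (mem_top x) hy)
  | succ i => exact commutator_mem_commutator hx hy

private theorem Fit_all {X : Type u} [Group X] (A : Subgroup X) [A.Normal] (i : ℕ) (x y : X)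
    (hx : x ∈ Fit_a A i) : ⁅x, y⁆ ∈ Fit_a A i := by
  have := Fit_normal A i
  exact commutator_le_left (Fit_a A i) ⊤ (commutator_mem_commutator hx (mem_top y))

private def Fit_D {X : Type u} [Group X] (A B : Subgroup X) (n : ℕ) : Subgroup X :=
  ⨆ p : {p : ℕ × ℕ // p.1 + p.2 = n + 1}, Fit_a A p.1.1 ⊓ Fit_a B p.1.2

private theorem Fit_Dn {X : Type u} [Group X] (A B : Subgroup X) [A.Normal] [B.Normal] (n : ℕ) :
    (Fit_D A B n).Normal := by
  unfold Fit_D
  have : ∀ p : {p : ℕ × ℕ // p.1 + p.2 = n + 1}, (Fit_a A p.1.1 ⊓ Fit_a B p.1.2).Normal := by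
    intro p
    have := Fit_normal A p.1.1
    have := Fit_normal B p.1.2
    infer_instance
  infer_instance

private theorem Fit_Dstep {X : Type u} [Group X] (A B : Subgroup X) [A.Normal] [B.Normal]
    (hAB : A ⊔ B = ⊤) (n : ℕ) (x : X) (hx : x ∈ Fit_D A B n) (y : X) : ⁅x, y⁆ ∈ Fit_D A B (n + 1) := by
  have := Fit_Dn A B (n + 1)
  have h : Fit_D A B n ≤ Subgroup.upperCentralSeriesStep (Fit_D A B (n + 1)) := by
    refine iSup_le fun p => ?_
    rintro x ⟨hxa, hxb⟩
    rw [Subgroup.mem_upperCentralSeriesStep]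
    intro y
    have hy : y ∈ A ⊔ B := by rw [hAB]; trivial
    obtain ⟨α, hα, β, hβ, rfl⟩ := Subgroup.mem_sup_of_normal_right.1 hy
    have e1 : ⁅x, α⁆ ∈ Fit_D A B (n + 1) := by
      have : ⁅x, α⁆ ∈ Fit_a A (p.1.1 + 1) ⊓ Fit_a B p.1.2 :=
        ⟨Fit_step A _ x α hxa hα, Fit_all B _ x α hxb⟩
      exact (le_iSup (fun p : {p : ℕ × ℕ // p.1 + p.2 = n + 1 + 1} => Fit_a A p.1.1 ⊓ Fit_a B p.1.2)
        ⟨(p.1.1 + 1, p.1.2), by have := p.2; simp only; omega⟩) this
    have e2 : ⁅x, β⁆ ∈ Fit_D A B (n + 1) := by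
      have : ⁅x, β⁆ ∈ Fit_a A p.1.1 ⊓ Fit_a B (p.1.2 + 1) :=
        ⟨Fit_all A _ x β hxa, Fit_step B _ x β hxb hβ⟩
      exact (le_iSup (fun p : {p : ℕ × ℕ // p.1 + p.2 = n + 1 + 1} => Fit_a A p.1.1 ⊓ Fit_a B p.1.2)
        ⟨(p.1.1, p.1.2 + 1), by have := p.2; simp only; omega⟩) this
    have e3 : ⁅x, α * β⁆ = ⁅x, α⁆ * (α * ⁅x, β⁆ * α⁻¹) := by
      rw [commutatorElement_def, commutatorElement_def, commutatorElement_def]
      group
    rw [e3]
    exact mul_mem e1 (Subgroup.Normal.conj_mem this _ e2 α)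
  have h2 := h hx
  rw [Subgroup.mem_upperCentralSeriesStep] at h2
  exact h2 y

private theorem Fit_X {X : Type u} [Group X] (A B : Subgroup X) [A.Normal] [B.Normal]
    (hAB : A ⊔ B = ⊤) (hA : Group.IsNilpotent A) (hB : Group.IsNilpotent B) : Group.IsNilpotent X := by
  obtain ⟨c, hc⟩ := (isNilpotent_iff_lowerCentralSeries A).1 hA
  obtain ⟨d, hd⟩ := (isNilpotent_iff_lowerCentralSeries B).1 hB
  have h1 : ∀ n, (⊤ : Subgroup X).lowerCentralSeries n ≤ Fit_D A B n := by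
    intro n
    induction n with
    | zero =>
      rw [Subgroup.lowerCentralSeries_zero, ← hAB]
      refine sup_le ?_ ?_
      · have : A ≤ Fit_a A 1 ⊓ Fit_a B 0 := le_inf le_rfl le_top
        exact this.trans (le_iSup (fun p : {p : ℕ × ℕ // p.1 + p.2 = 0 + 1} =>
          Fit_a A p.1.1 ⊓ Fit_a B p.1.2) ⟨(1, 0), rfl⟩)
      · have : B ≤ Fit_a A 0 ⊓ Fit_a B 1 := le_inf le_top le_rfl
        exact this.trans (le_iSup (fun p : {p : ℕ × ℕ // p.1 + p.2 = 0 + 1} =>
          Fit_a A p.1.1 ⊓ Fit_a B p.1.2) ⟨(0, 1), rfl⟩)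
    | succ n ih =>
      rw [Subgroup.lowerCentralSeries_succ, commutator_le]
      intro x hx y _
      exact Fit_Dstep A B hAB n x (ih hx) y
  rw [Subgroup.nilpotent_iff_lowerCentralSeries]
  refine ⟨c + d + 1, ?_⟩
  rw [eq_bot_iff]
  refine (h1 _).trans (iSup_le fun p => ?_)
  have hp := p.2
  rcases le_or_gt (c + 1) p.1.1 with h | h
  · obtain ⟨i, hi⟩ : ∃ i, p.1.1 = i + 1 := ⟨p.1.1 - 1, by omega⟩
    refine inf_le_left.trans ?_
    rw [hi]
    change A.lowerCentralSeries i ≤ ⊥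
    rw [← hc]
    exact A.lowerCentralSeries_antitone (by omega)
  · obtain ⟨i, hi⟩ : ∃ i, p.1.2 = i + 1 := ⟨p.1.2 - 1, by omega⟩
    refine inf_le_right.trans ?_
    rw [hi]
    change B.lowerCentralSeries i ≤ ⊥
    rw [← hd]
    exact B.lowerCentralSeries_antitone (by omega)

theorem vFit : S_Fit.{u} := by
  intro G _ M A B hA hB hMA hMB nA nB
  have hle : A ⊔ B ≤ M := sup_le hA hB
  have n1 : (A.subgroupOf (A ⊔ B)).Normal := by
    constructor
    intro n hn g
    rw [mem_subgroupOf] at hn ⊢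
    exact hMA g (hle g.2) n hn
  have n2 : (B.subgroupOf (A ⊔ B)).Normal := by
    constructor
    intro n hn g
    rw [mem_subgroupOf] at hn ⊢
    exact hMB g (hle g.2) n hn
  apply Fit_X (A.subgroupOf (A ⊔ B)) (B.subgroupOf (A ⊔ B))
  · rw [← subgroupOf_sup le_sup_left le_sup_right, subgroupOf_self]
  · exact (Group.isNilpotent_congr (subgroupOfEquivOfLe le_sup_left)).2 nA
  · exact (Group.isNilpotent_congr (subgroupOfEquivOfLe le_sup_right)).2 nB

end Pool.Agent.MPcc2398
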