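import Pool.Agent.Lib.MP_cc2398_al.Spec

set_option autoImplicit false

namespace Pool.Agent.MPcc2398

universe u v

theorem ISup.LF_bot {G : Type u} [Group G] : LF (⊥ : Subgroup G) := by
  intro s hs
  have h : Subgroup.closure (s : Set G) ≤ ⊥ := (Subgroup.closure_le _).2 hs
  refine Set.Finite.subset (Set.finite_singleton (1 : G)) ?_
  intro x hx
  exact Subgroup.mem_bot.1 (h hx)

theorem vISup (hSup : S_Sup.{u}) : S_ISup.{u} := by
  classical
  intro G _ D ι A hAD hInv hLF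
  have hfin : ∀ t : Finset ι, (⨆ i ∈ t, A i) ≤ D ∧ LF (⨆ i ∈ t, A i) := by
    intro t
    induction t using Finset.induction_on with
    | empty =>
      refine ⟨by simp, ?_⟩
      have h : (⨆ i ∈ (∅ : Finset ι), A i) = ⊥ := by simp
      rw [h]
      exact ISup.LF_bot
    | insert a t ha ih =>
      rw [Finset.iSup_insert]
      exact ⟨sup_le (hAD a) ih.1, hSup G (A a) _ (hLF a) ih.2 ((hInv a).mono ih.1)⟩
  have hdir : Directed (· ≤ ·) (fun t : Finset ι => ⨆ i ∈ t, A i) := by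
    intro t1 t2
    exact ⟨t1 ∪ t2, biSup_mono (fun i hi => Finset.mem_union_left _ hi),
      biSup_mono (fun i hi => Finset.mem_union_right _ hi)⟩
  intro s hs
  have hx : ∀ x : G, ∃ t : Finset ι, x ∈ s → x ∈ (⨆ i ∈ t, A i : Subgroup G) := by
    intro x
    by_cases hxs : x ∈ s
    · have h1 : x ∈ ⨆ i, A i := hs hxs
      rw [iSup_eq_iSup_finset, Subgroup.mem_iSup_of_directed hdir] at h1
      obtain ⟨t, ht⟩ := h1
      exact ⟨t, fun _ => ht⟩
    · exact ⟨∅, fun h => absurd h hxs⟩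
  choose f hf using hx
  refine (hfin (s.biUnion f)).2 s ?_
  intro x hxs
  have h2 : (⨆ i ∈ f x, A i) ≤ ⨆ i ∈ s.biUnion f, A i :=
    biSup_mono (fun i hi => Finset.mem_biUnion.2 ⟨x, hxs, hi⟩)
  exact h2 (hf x hxs)

end Pool.Agent.MPcc2398
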