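import Pool.Agent.Lib.MP_cc2398_al.Spec

/-!
# MP_cc2398_al, Isol: upper central series of a subgroup with the isolator property
-/

set_option autoImplicit false

namespace Pool.Agent.MPcc2398

universe u

open scoped commutatorElement

namespace Isol

/-- roots are unique modulo the upper central series -/
theorem root (hLay : S_Lay.{u}) {X : Type u} [Group X] (hX : Group.IsNilpotent X)
    (htf : ∀ z ∈ Subgroup.center X, ∀ n : ℕ, 0 < n → z ^ n = 1 → z = 1) {a b : X} {n i : ℕ}
    (hn : 0 < n) (h : (a ^ n)⁻¹ * b ^ n ∈ Subgroup.upperCentralSeries X i) :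
    a⁻¹ * b ∈ Subgroup.upperCentralSeries X i := by
  have key : ∀ k : ℕ, a⁻¹ * b ∈ Subgroup.upperCentralSeries X (i + k) →
      a⁻¹ * b ∈ Subgroup.upperCentralSeries X i := by
    intro k
    induction k with
    | zero => exact fun h => h
    | succ k ih =>
      intro hk
      apply ih
      apply hLay X hX htf (i + k) n _ hn
      have h1 : ⁅a⁻¹ * b, a⁆ ∈ Subgroup.upperCentralSeries X (i + k) :=
        Subgroup.mem_upperCentralSeries_succ_iff.1 hk a
      have h2 : (a ^ n)⁻¹ * b ^ n ∈ Subgroup.upperCentralSeries X (i + k) :=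
        Subgroup.upperCentralSeries_mono X (Nat.le_add_right i k) h
      let N := Subgroup.upperCentralSeries X (i + k)
      have h1' : ((a⁻¹ * b : X) : X ⧸ N) * (a : X ⧸ N) = (a : X ⧸ N) * ((a⁻¹ * b : X) : X ⧸ N) := by
        have h3 : ((⁅a⁻¹ * b, a⁆ : X) : X ⧸ N) = 1 := (QuotientGroup.eq_one_iff _).2 h1
        have h4 : ⁅((a⁻¹ * b : X) : X ⧸ N), (a : X ⧸ N)⁆ = 1 := h3
        exact commutatorElement_eq_one_iff_mul_comm.1 h4
      have hcomm : Commute (a : X ⧸ N) ((a⁻¹ * b : X) : X ⧸ N) := h1'.symm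
      have h5 : (b : X ⧸ N) = (a : X ⧸ N) * ((a⁻¹ * b : X) : X ⧸ N) := by
        rw [← QuotientGroup.mk_mul]
        congr 1
        group
      have h6 : (((a ^ n)⁻¹ * b ^ n : X) : X ⧸ N) = 1 := (QuotientGroup.eq_one_iff _).2 h2
      rw [QuotientGroup.mk_mul, QuotientGroup.mk_inv, QuotientGroup.mk_pow, QuotientGroup.mk_pow,
        h5, hcomm.mul_pow, inv_mul_cancel_left, ← QuotientGroup.mk_pow] at h6
      exact (QuotientGroup.eq_one_iff _).1 h6
  obtain ⟨m, hm⟩ := hX.nilpotent'
  apply key m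
  have : Subgroup.upperCentralSeries X (i + m) = ⊤ := by
    rw [eq_top_iff, ← hm]
    exact Subgroup.upperCentralSeries_mono X (Nat.le_add_left m i)
  rw [this]
  trivial

end Isol

/-- the upper central series of a subgroup -/
theorem vIsol (hLay : S_Lay.{u}) : S_Isol.{u} := by
  intro X _ S hX htf hS i
  induction i with
  | zero =>
    intro s hs
    rw [Subgroup.upperCentralSeries_zero, Subgroup.mem_bot] at hs ⊢
    rw [hs, Subgroup.coe_one]
  | succ i ih =>
    intro s hs
    rw [Subgroup.mem_upperCentralSeries_succ_iff] at hs ⊢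
    intro y
    obtain ⟨n, hn, hy⟩ := hS y
    have h1 := ih _ (hs ⟨y ^ n, hy⟩)
    have h2 : ((⁅s, (⟨y ^ n, hy⟩ : S)⁆ : S) : X) = ((((s : X) * y * (s : X)⁻¹)⁻¹) ^ n)⁻¹ *
        (y⁻¹) ^ n := by
      rw [inv_pow, inv_inv, conj_pow, inv_pow, commutatorElement_def]
      rfl
    rw [h2] at h1
    have h3 := Isol.root hLay hX htf hn h1
    rw [inv_inv] at h3
    exact h3

end Pool.Agent.MPcc2398
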