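import Pool.Agent.Lib.MP_cc2398_al.Spec

set_option autoImplicit false

namespace Pool.Agent.MPcc2398

universe u v

namespace LFN

theorem core {G : Type u} [Group G] (K L : Subgroup G) (hKL : K ≤ L) (h : K.relIndex L ≠ 0) :
    ∃ M : Subgroup G, M ≤ K ∧ M.relIndex L ≠ 0 ∧ Inv L M := by
  have hfi : (K.subgroupOf L).FiniteIndex := ⟨h⟩
  refine ⟨(K.subgroupOf L).normalCore.map L.subtype, ?_, ?_, ?_⟩
  · rintro _ ⟨x, hx, rfl⟩
    exact Subgroup.mem_subgroupOf.1 (Subgroup.normalCore_le _ hx)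
  · have h2 : ((K.subgroupOf L).normalCore.map L.subtype).subgroupOf L = (K.subgroupOf L).normalCore := by
      rw [Subgroup.subgroupOf, Subgroup.comap_map_eq_self_of_injective L.subtype_injective]
    rw [Subgroup.relIndex, h2]
    exact (Subgroup.finiteIndex_normalCore (K.subgroupOf L)).index_ne_zero
  · rintro l hl _ ⟨x, hx, rfl⟩
    exact ⟨_, (Subgroup.normalCore_normal (K.subgroupOf L)).conj_mem x hx ⟨l, hl⟩, rfl⟩

theorem lf_cj {G : Type u} [Group G] {A : Subgroup G} (h : LF A) (x : G) : LF (cj x A) := by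
  classical
  intro s hs
  have h2 := h (s.image (fun g => x⁻¹ * g * x)) (by
    intro y hy
    obtain ⟨g, hg, rfl⟩ := Finset.mem_image.1 (Finset.mem_coe.1 hy)
    exact mem_cj'.1 (hs hg))
  refine (h2.image (fun g => x * g * x⁻¹)).subset ?_
  have h3 : Subgroup.closure (s : Set G) ≤
      cj x (Subgroup.closure ((s.image (fun g => x⁻¹ * g * x) : Finset G) : Set G)) := by
    rw [Subgroup.closure_le]
    intro g hg
    rw [SetLike.mem_coe, mem_cj']
    exact Subgroup.subset_closure (Finset.mem_coe.2 (Finset.mem_image_of_mem _ hg))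
  intro g hg
  obtain ⟨a, ha, rfl⟩ := mem_cj.1 (h3 hg)
  exact ⟨a, ha, rfl⟩

end LFN

theorem vLFN (hExt : S_Ext.{u}) (hISup : S_ISup.{u}) (hCore : S_Core.{u}) : S_LFN.{u} := by
  intro G _ K L A hKL hi hAK hKA hLF
  obtain ⟨M, hMK, hM, hLM⟩ := LFN.core K L hKL hi
  obtain ⟨k1, k2, ⟨k3, k3'⟩, k4, k5⟩ := hCore G K L A M hKL hi hAK hKA hMK hM hLM
  have hS : LF (SM L A M) := by
    refine hISup G M L (fun x => cj (x : G) A ⊓ M) (fun x => inf_le_right)
      (fun x => (k2 x x.2).inf (inv_self M)) (fun x => ?_)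
    exact (LFN.lf_cj hLF x).mono inf_le_left
  refine hExt G (SM L A M) (NC L A) hS (fun s hs h0 => k5 ?_)
  exact Subgroup.relIndex_eq_zero_of_le_right ((Subgroup.closure_le _).2 hs) h0

end Pool.Agent.MPcc2398
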