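import Pool.Agent.Lib.MP_cc2398_al.Spec

set_option autoImplicit false

namespace Pool.Agent.MPcc2398

universe u v

namespace LFlaw

def Good {G : Type u} [Group G] (H A L : Subgroup G) : Prop :=
  L ≠ ⊤ ∧ H ≤ L ∧ A ≤ L ∧ Inv L A ∧ LF A

theorem up (hCom : S_Com.{u}) (hLFN : S_LFN.{u}) {G : Type u} [Group G] {H : Subgroup G} (hTB : TB H)
    {A L L' : Subgroup G} (h : Good H A L) (hLL : L ≤ L') (hL' : L' ≠ ⊤) : Good H (NC L' A) L' := by
  obtain ⟨c1, c2, c3, c4, c5, c6, c7⟩ := hCom G H hTB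
  obtain ⟨h1, h2, h3, h4, h5⟩ := h
  exact ⟨hL', h2.trans hLL, NC_le (h3.trans hLL), inv_NC _ _,
    hLFN G L L' A hLL (c3 L L' (c7 L h1 h2) hL') h3 h4 h5⟩

theorem joinG (hSup : S_Sup.{u}) (hCom : S_Com.{u}) (hLFN : S_LFN.{u}) {G : Type u} [Group G] {H : Subgroup G}
    (hTB : TB H) {A L B L' : Subgroup G} (hA : Good H A L) (hB : Good H B L') :
    ∃ C L'' : Subgroup G, Good H C L'' ∧ A ≤ C ∧ B ≤ C := by
  have hL'' : L ⊔ L' ≠ ⊤ := hTB.join _ _ hA.1 hB.1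
  obtain ⟨a1, a2, a3, a4, a5⟩ := up hCom hLFN hTB hA le_sup_left hL''
  obtain ⟨b1, b2, b3, b4, b5⟩ := up hCom hLFN hTB hB le_sup_right hL''
  refine ⟨NC (L ⊔ L') A ⊔ NC (L ⊔ L') B, L ⊔ L', ⟨a1, a2, sup_le a3 b3, a4.sup b4, ?_⟩, ?_, ?_⟩
  · exact hSup G _ _ a5 b5 (a4.mono b3)
  · exact (le_NC _ _).trans le_sup_left
  · exact (le_NC _ _).trans le_sup_right

end LFlaw

theorem vLFlaw (hSup : S_Sup.{u}) (hBig : S_Big.{u}) (hCom : S_Com.{u}) (hLFN : S_LFN.{u}) : S_LFlaw.{u} := by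
  classical
  intro G _ H hSP K A hK hAK hKA hLFA
  have hTB := hSP.tb
  obtain ⟨c1, c2, c3, c4, c5, c6, c7⟩ := hCom G H hTB
  have hHt : H ≠ ⊤ := by
    intro h
    have := hTB.idx
    rw [h, Subgroup.index_top] at this
    exact one_ne_zero this
  have hbot : LFlaw.Good H ⊥ H := by
    refine ⟨hHt, le_rfl, bot_le, ?_, ?_⟩
    · intro l _ m hm
      rw [Subgroup.mem_bot] at hm ⊢; rw [hm]; simp
    · intro s hs
      have : Subgroup.closure (s : Set G) ≤ ⊥ := (Subgroup.closure_le _).2 hs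
      rw [le_bot_iff.1 this]
      simp
  let U : Subgroup G :=
    { carrier := {g | ∃ A L : Subgroup G, LFlaw.Good H A L ∧ g ∈ A}
      one_mem' := ⟨⊥, H, hbot, Subgroup.one_mem _⟩
      mul_mem' := by
        rintro a b ⟨A, L, h, ha⟩ ⟨B, L', h', hb⟩
        obtain ⟨C, L'', h'', hA, hB⟩ := LFlaw.joinG hSup hCom hLFN hTB h h'
        exact ⟨C, L'', h'', C.mul_mem (hA ha) (hB hb)⟩
      inv_mem' := by
        rintro a ⟨A, L, h, ha⟩
        exact ⟨A, L, h, A.inv_mem ha⟩ }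
  have hUfin : ∀ s : Finset G, (s : Set G) ⊆ U → ∃ A L : Subgroup G, LFlaw.Good H A L ∧ (s : Set G) ⊆ A := by
    intro s
    induction s using Finset.induction_on with
    | empty => intro _; exact ⟨⊥, H, hbot, by simp⟩
    | insert a s _ ih =>
      intro hs
      rw [Finset.coe_insert, Set.insert_subset_iff] at hs
      obtain ⟨A, L, h, hA⟩ := ih hs.2
      obtain ⟨B, L', h', hB⟩ := hs.1
      obtain ⟨C, L'', h'', hA', hB'⟩ := LFlaw.joinG hSup hCom hLFN hTB h h'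
      refine ⟨C, L'', h'', ?_⟩
      rw [Finset.coe_insert, Set.insert_subset_iff]
      exact ⟨hB' hB, fun x hx => hA' (hA hx)⟩
  have hULF : LF U := by
    intro s hs
    obtain ⟨A, L, h, hA⟩ := hUfin s hs
    exact h.2.2.2.2 s hA
  have hUn : U.Normal := by
    refine ⟨fun g hg x => ?_⟩
    obtain ⟨A, L, h, hgA⟩ := hg
    obtain ⟨L', h1, h2, h3, h4⟩ := hBig G H hTB L h.1 {x}
    have hx : x ∈ L' := h4 (by simp)
    exact ⟨NC L' A, L', LFlaw.up hCom hLFN hTB h h3 h1, inv_NC L' A x hx g (le_NC _ _ hgA)⟩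
  have hUbot : U = ⊥ := by
    rcases hSP.simple U hUn with h | h
    · exact h
    · rw [h] at hULF
      exact absurd hULF hSP.nlf
  have hKt := c1 K hK
  have hL : K ⊔ H ≠ ⊤ := hTB.join _ _ hKt hHt
  have hgood : LFlaw.Good H (NC (K ⊔ H) A) (K ⊔ H) :=
    ⟨hL, le_sup_right, NC_le (hAK.trans le_sup_left), inv_NC _ _,
      hLFN G K (K ⊔ H) A le_sup_left (c3 K _ hK hL) hAK hKA hLFA⟩
  rw [eq_bot_iff, ← hUbot]
  intro a ha
  exact ⟨_, _, hgood, le_NC _ _ ha⟩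

end Pool.Agent.MPcc2398
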