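import Pool.Agent.Lib.MP_cc2398_al.Spec

/-!
# MP_cc2398_al, LU: `[γ_{i+1}, Z_{i+1}] = 1`
-/

set_option autoImplicit false

namespace Pool.Agent.MPcc2398

universe u

namespace LU

/-- the three subgroups lemma modulo a normal subgroup -/
theorem three {X : Type u} [Group X] {A B C N : Subgroup X} [N.Normal] (h1 : ⁅⁅B, C⁆, A⁆ ≤ N)
    (h2 : ⁅⁅C, A⁆, B⁆ ≤ N) : ⁅⁅A, B⁆, C⁆ ≤ N := by
  have key : ∀ Y : Subgroup X, Subgroup.map (QuotientGroup.mk' N) Y = ⊥ ↔ Y ≤ N := by
    intro Y
    rw [Subgroup.map_eq_bot_iff, QuotientGroup.ker_mk']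
  rw [← key, Subgroup.map_commutator, Subgroup.map_commutator]
  apply Subgroup.commutator_commutator_eq_bot_of_rotate
  · rw [← Subgroup.map_commutator, ← Subgroup.map_commutator, key]
    exact h1
  · rw [← Subgroup.map_commutator, ← Subgroup.map_commutator, key]
    exact h2

theorem aux {X : Type u} [Group X] : ∀ i j : ℕ,
    ⁅(⊤ : Subgroup X).lowerCentralSeries i, Subgroup.upperCentralSeries X (j + i + 1)⁆ ≤
      Subgroup.upperCentralSeries X j := by
  intro i
  induction i with
  | zero =>
    intro j
    rw [Subgroup.lowerCentralSeries_zero, Subgroup.commutator_comm]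
    exact Subgroup.commutator_upperCentralSeries_top_le X j
  | succ i ih =>
    intro j
    rw [Subgroup.lowerCentralSeries_succ]
    apply three
    · have h := ih j
      rw [Subgroup.commutator_comm] at h
      refine le_trans (Subgroup.commutator_mono ?_ le_rfl) h
      rw [Subgroup.commutator_comm]
      exact Subgroup.commutator_upperCentralSeries_top_le X (j + i + 1)
    · have h := ih (j + 1)
      rw [Subgroup.commutator_comm] at h
      refine le_trans (Subgroup.commutator_mono ?_ le_rfl)
        (Subgroup.commutator_upperCentralSeries_top_le X j)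
      have e : j + (i + 1) + 1 = j + 1 + i + 1 := by omega
      rw [e]
      exact h

end LU

/-- `[γ_{i+1}, Z_{i+1}] = 1` -/
theorem vLU : S_LU.{u} := by
  intro X _ i
  have h := LU.aux (X := X) i 0
  rw [Nat.zero_add, Subgroup.upperCentralSeries_zero] at h
  exact le_bot_iff.1 h

end Pool.Agent.MPcc2398
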