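import Pool.Agent.Lib.MP_cc2398_al.Spec

set_option autoImplicit false

namespace Pool.Agent.MPcc2398

universe u v

open scoped commutatorElement


/-- commutators of powers modulo a normal subgroup -/
private theorem Lay.pow_comm {X : Type u} [Group X] (N : Subgroup X) [N.Normal] (x y : X)
    (hc : ∀ z : X, ⁅⁅x, y⁆, z⁆ ∈ N) (n : ℕ) : (⁅x ^ n, y⁆)⁻¹ * ⁅x, y⁆ ^ n ∈ N := by
  have key : (QuotientGroup.mk ⁅x ^ n, y⁆ : X ⧸ N) = QuotientGroup.mk (⁅x, y⁆ ^ n) := by
    obtain ⟨a, ha⟩ : ∃ a : X ⧸ N, a = QuotientGroup.mk x := ⟨_, rfl⟩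
    obtain ⟨b, hb⟩ : ∃ b : X ⧸ N, b = QuotientGroup.mk y := ⟨_, rfl⟩
    have hab : ∀ n : ℕ, (QuotientGroup.mk ⁅x ^ n, y⁆ : X ⧸ N) = ⁅a ^ n, b⁆ := by
      intro n
      rw [ha, hb]
      rfl
    have hab1 : (QuotientGroup.mk ⁅x, y⁆ : X ⧸ N) = ⁅a, b⁆ := by
      rw [ha, hb]
      rfl
    have hcen : ∀ z : X ⧸ N, ⁅a, b⁆ * z = z * ⁅a, b⁆ := by
      intro z
      obtain ⟨z, rfl⟩ := QuotientGroup.mk_surjective z
      have h1 : (QuotientGroup.mk ⁅⁅x, y⁆, z⁆ : X ⧸ N) = 1 :=
        (QuotientGroup.eq_one_iff _).2 (hc z)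
      have h2 : (QuotientGroup.mk ⁅⁅x, y⁆, z⁆ : X ⧸ N) = ⁅⁅a, b⁆, QuotientGroup.mk z⁆ := by
        rw [ha, hb]
        rfl
      rw [h2] at h1
      exact commutatorElement_eq_one_iff_mul_comm.1 h1
    rw [hab, QuotientGroup.mk_pow, hab1]
    obtain ⟨c, hcdef⟩ : ∃ c, c = ⁅a, b⁆ := ⟨_, rfl⟩
    rw [← hcdef] at hcen ⊢
    have hconj : a * b * a⁻¹ = c * b := by
      rw [hcdef, commutatorElement_def]
      group
    have hpow : ∀ n : ℕ, a ^ n * b * (a ^ n)⁻¹ = c ^ n * b := by
      intro n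
      induction n with
      | zero => simp
      | succ n ih =>
        have e : a ^ (n + 1) * b * (a ^ (n + 1))⁻¹ = a * (a ^ n * b * (a ^ n)⁻¹) * a⁻¹ := by
          rw [pow_succ']
          group
        have hcn : ∀ z, c ^ n * z = z * c ^ n := by
          intro z
          exact (Commute.pow_left (show Commute c z from hcen z) n).eq
        rw [e, ih, ← mul_assoc, ← hcn a, mul_assoc (c ^ n) a b, mul_assoc (c ^ n) (a * b) a⁻¹,
          hconj, ← mul_assoc, ← pow_succ]
    have h3 := hpow n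
    rw [commutatorElement_def, h3, mul_inv_cancel_right]
  exact QuotientGroup.eq.1 key

theorem vLay : S_Lay.{u} := by
  intro X _ hnil htf
  have step : ∀ (i n : ℕ) (x : X), 0 < n → x ∈ Subgroup.upperCentralSeries X (i + 1) →
      x ^ n ∈ Subgroup.upperCentralSeries X i → x ∈ Subgroup.upperCentralSeries X i := by
    intro i
    induction i with
    | zero =>
      intro n x hn hx hxn
      rw [zero_add, Subgroup.upperCentralSeries_one] at hx
      rw [Subgroup.upperCentralSeries_zero, Subgroup.mem_bot] at hxn ⊢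
      exact htf x hx n hn hxn
    | succ i ih =>
      intro n x hn hx hxn
      rw [Subgroup.mem_upperCentralSeries_succ_iff] at hx hxn ⊢
      intro y
      have h1 : ∀ z, ⁅⁅x, y⁆, z⁆ ∈ Subgroup.upperCentralSeries X i :=
        Subgroup.mem_upperCentralSeries_succ_iff.1 (hx y)
      have h2 := Lay.pow_comm (Subgroup.upperCentralSeries X i) x y h1 n
      have h3 : ⁅x, y⁆ ^ n ∈ Subgroup.upperCentralSeries X i := by
        have h4 := Subgroup.mul_mem _ (hxn y) h2
        rwa [mul_inv_cancel_left] at h4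
      exact ih n _ hn (hx y) h3
  intro i n x hn hxn
  obtain ⟨j, hj⟩ := hnil.nilpotent
  have hdown : ∀ d : ℕ, x ∈ Subgroup.upperCentralSeries X (i + d) →
      x ∈ Subgroup.upperCentralSeries X i := by
    intro d
    induction d with
    | zero => exact fun h => h
    | succ d ih =>
      intro h
      apply ih
      exact step (i + d) n x hn h (Subgroup.upperCentralSeries_mono X (Nat.le_add_right i d) hxn)
  apply hdown j
  have h5 : x ∈ Subgroup.upperCentralSeries X j := by
    rw [hj]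
    exact Subgroup.mem_top x
  exact Subgroup.upperCentralSeries_mono X (Nat.le_add_left j i) h5

end Pool.Agent.MPcc2398
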