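import Pool.Agent.Lib.MP_cc2398_al.Spec

set_option autoImplicit false

namespace Pool.Agent.MPcc2398

universe u v

namespace Main

theorem co_map {G G' : Type u} [Group G] [Group G'] (f : G →* G') {H K : Subgroup G} (h : Co H K) :
    Co (H.map f) (K.map f) := by
  constructor
  · rw [← Subgroup.relIndex_comap]
    intro h0
    exact h.1 (Subgroup.relIndex_eq_zero_of_le_left (Subgroup.le_comap_map f K) h0)
  · rw [← Subgroup.relIndex_comap]
    intro h0
    exact h.2 (Subgroup.relIndex_eq_zero_of_le_left (Subgroup.le_comap_map f H) h0)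

theorem relIndex_closure {G : Type u} [Group G] (R : Subgroup G) [R.Normal] (X : Subgroup G) :
    R.relIndex X = Nat.card (X.map (QuotientGroup.mk' R)) := by
  rw [← Subgroup.relIndex_ker, QuotientGroup.ker_mk']

theorem lf_of_section {G : Type u} [Group G] (R : Subgroup G) [R.Normal] (N : Subgroup G)
    (h : ∀ s : Finset G, (s : Set G) ⊆ N → R.relIndex (Subgroup.closure (s : Set G)) ≠ 0) :
    LF (N.map (QuotientGroup.mk' R)) := by
  classical
  intro s hs
  have h1 : ∀ y ∈ N.map (QuotientGroup.mk' R), ∃ x, x ∈ N ∧ QuotientGroup.mk' R x = y :=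
    fun y hy => Subgroup.mem_map.1 hy
  choose! g hg using h1
  have h2 := h (s.image g) (by
    intro x hx
    obtain ⟨y, hy, rfl⟩ := Finset.mem_image.1 (Finset.mem_coe.1 hx)
    exact (hg y (hs hy)).1)
  rw [relIndex_closure] at h2
  have h3 : (Subgroup.closure (s : Set (G ⧸ R)) : Subgroup (G ⧸ R)) ≤
      (Subgroup.closure ((s.image g : Finset G) : Set G)).map (QuotientGroup.mk' R) := by
    rw [Subgroup.closure_le]
    intro y hy
    refine ⟨g y, Subgroup.subset_closure (Finset.mem_coe.2 (Finset.mem_image_of_mem g hy)), (hg y (hs hy)).2⟩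
  have h4 : Finite ((Subgroup.closure ((s.image g : Finset G) : Set G)).map (QuotientGroup.mk' R)) :=
    Nat.finite_of_card_ne_zero h2
  exact (Set.toFinite (((Subgroup.closure ((s.image g : Finset G) : Set G)).map (QuotientGroup.mk' R) :
    Subgroup (G ⧸ R)) : Set (G ⧸ R))).subset h3

theorem section_of_lf {G : Type u} [Group G] (R : Subgroup G) [R.Normal]
    (h : LF (⊤ : Subgroup (G ⧸ R))) (s : Finset G) : R.relIndex (Subgroup.closure (s : Set G)) ≠ 0 := by
  classical
  rw [relIndex_closure]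
  have h1 := h (s.image (QuotientGroup.mk' R)) (by simp)
  have h2 : (Subgroup.closure (s : Set G)).map (QuotientGroup.mk' R) =
      Subgroup.closure ((s.image (QuotientGroup.mk' R) : Finset (G ⧸ R)) : Set (G ⧸ R)) := by
    rw [MonoidHom.map_closure, Finset.coe_image]
  rw [h2]
  have h3 : Finite (Subgroup.closure ((s.image (QuotientGroup.mk' R) : Finset (G ⧸ R)) : Set (G ⧸ R))) :=
    h1.to_subtype
  exact Nat.card_pos.ne'

theorem inv_map {G G' : Type u} [Group G] [Group G'] (f : G →* G') {L M : Subgroup G} (h : Inv L M) :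
    Inv (L.map f) (M.map f) := by
  rintro _ ⟨l, hl, rfl⟩ _ ⟨m, hm, rfl⟩
  exact ⟨_, h l hl m hm, by simp⟩

end Main

theorem vMain (hExt : S_Ext.{u}) (hQuot : S_Quot.{u}) (hRad : S_Rad.{u}) (hLFlaw : S_LFlaw.{u})
    (hQZ : S_QZ.{u}) (hRF : S_RF.{u}) (hAb : S_Ab.{u}) : S_Main.{u} := by
  intro G _ H hTB hcore hnlf
  obtain ⟨R, hRn, hRt, hRLF, hRmax⟩ := hRad G H hTB hcore hnlf
  refine ⟨R, hRn, hRt, hRLF, hRmax, ?_⟩
  set π := QuotientGroup.mk' R with hπ
  have hker : ∀ g : G, π g = 1 ↔ g ∈ R := fun g => by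
    rw [← MonoidHom.mem_ker, hπ, QuotientGroup.ker_mk']
  have hsurj : Function.Surjective π := QuotientGroup.mk'_surjective R
  have hbot : ∀ N : Subgroup G, N.map π = ⊥ → N ≤ R := by
    intro N hN g hg
    rw [← hker]
    have : π g ∈ N.map π := ⟨g, hg, rfl⟩
    rw [hN, Subgroup.mem_bot] at this
    exact this
  have hSP : SP (H.map π) := by
    refine ⟨hQuot G H R hTB hRt, ?_, ?_⟩
    · intro N' hN'
      have hn : (N'.comap π).Normal := hN'.comap π
      have hNN : (N'.comap π).map π = N' := Subgroup.map_comap_eq_self_of_surjective hsurj N'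
      by_cases ht : N'.comap π = ⊤
      · right
        rw [← hNN, ht, Subgroup.map_top_of_surjective π hsurj]
      · left
        have hle := hRmax _ hn ht
        rw [eq_bot_iff, ← hNN]
        rintro _ ⟨g, hg, rfl⟩
        rw [Subgroup.mem_bot]
        exact (hker g).2 (hle hg)
    · intro hLF
      exact hnlf (hExt G R ⊤ hRLF (fun s _ => Main.section_of_lf R hLF s))
  intro K hK
  have hK' : Co (H.map π) (K.map π) := Main.co_map π hK
  refine ⟨?_, ?_, ?_, ?_⟩
  · intro g hg
    rw [← hker]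
    refine hQZ (G ⧸ R) (H.map π) hSP (K.map π) (π g) hK' ?_
    rintro _ ⟨k, hk, rfl⟩
    have h1 := (hker _).2 (hg k hk)
    simp only [map_mul, map_inv] at h1
    have h2 : π g * π k * (π g)⁻¹ = π k := mul_inv_eq_one.1 h1
    exact mul_inv_eq_iff_eq_mul.1 h2
  · intro N hNK hKN hsec
    exact hbot N (hLFlaw (G ⧸ R) (H.map π) hSP (K.map π) (N.map π) hK' (Subgroup.map_mono hNK)
      (Main.inv_map π hKN) (Main.lf_of_section R N hsec))
  · intro N hNK hKN hcomm
    refine hbot N (hAb (G ⧸ R) (H.map π) hSP (K.map π) (N.map π) hK' (Subgroup.map_mono hNK)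
      (Main.inv_map π hKN) ?_)
    rintro _ ⟨a, ha, rfl⟩ _ ⟨b, hb, rfl⟩
    have h1 := (hker _).2 (hcomm a ha b hb)
    simp only [map_mul, map_inv] at h1
    have h2 : π a * π b * (π a)⁻¹ = π b := mul_inv_eq_one.1 h1
    exact mul_inv_eq_iff_eq_mul.1 h2
  · intro x hxK hxR
    obtain ⟨K₁', h1, h2, h3⟩ := hRF (G ⧸ R) (H.map π) hSP (K.map π) (π x) hK' ⟨x, hxK, rfl⟩
      (fun h0 => hxR ((hker x).1 h0))
    refine ⟨K ⊓ K₁'.comap π, inf_le_left, ?_, ?_, ?_⟩
    · rintro r ⟨hr, hrK⟩
      refine ⟨hrK, ?_⟩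
      show π r ∈ K₁'
      rw [(hker r).2 hr]
      exact K₁'.one_mem
    · rw [inf_comm, Subgroup.inf_relIndex_right, Subgroup.relIndex_comap]
      exact h2
    · intro h0
      exact h3 h0.2

end Pool.Agent.MPcc2398
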