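import Pool.Agent.Lib.MP_cc2398_al.Spec

/-!
# MP_cc2398_al: finite index of a term of the upper central series
-/

set_option autoImplicit false

namespace Pool.Agent.MPcc2398

universe u v

open Subgroup
open scoped commutatorElement

/-- a finite subgroup is locally finite -/
private theorem Nil_finLF {X : Type u} [Group X] (N : Subgroup X) (h : (N : Set X).Finite) : LF N := by
  intro s hs
  apply h.subset
  exact (closure_le N).2 hs

/-- commuting elements of order dividing `m` generate a finite group -/
private theorem Nil_abLF {X : Type u} [Group X] (N : Subgroup X) (hc : ∀ a ∈ N, ∀ b ∈ N, a * b = b * a)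
    (m : ℕ) (hm : 0 < m) (hN : ∀ a ∈ N, a ^ m = 1) : LF N := by
  intro s hs
  have hle : closure (s : Set X) ≤ N := (closure_le N).2 hs
  let _ : CommGroup (closure (s : Set X)) :=
    { (inferInstance : Group (closure (s : Set X))) with
      mul_comm := fun a b => Subtype.ext (hc a (hle a.2) b (hle b.2)) }
  have hfg : Group.FG (closure (s : Set X)) := (Group.fg_iff_subgroup_fg _).2 ⟨s, rfl⟩
  have ht : IsMulTorsion (closure (s : Set X)) := by
    intro g
    rw [isOfFinOrder_iff_pow_eq_one]
    exact ⟨m, hm, Subtype.ext (hN g (hle g.2))⟩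
  exact CommGroup.finite_of_fg_isMulTorsion _ ht

/-- the centralizer as a set of commuting elements -/
private theorem Nil_main {X : Type u} [Group X] (hSchur : S_Schur.{u}) (Z : Subgroup X) [Z.Normal]
    (hZ : Z.index ≠ 0) (hX : ∀ N : Subgroup X, N.Normal → LF N → N = ⊥) :
    ∀ a ∈ centralizer (Z : Set X), ∀ b ∈ centralizer (Z : Set X), a * b = b * a := by
  set C := centralizer (Z : Set X) with hC
  have hCn : C.Normal := inferInstance
  have h1 : (center C).index ≠ 0 := by
    have h2 : Z.subgroupOf C ≤ center C := by
      intro z hz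
      rw [mem_subgroupOf] at hz
      rw [mem_center_iff]
      intro g
      apply Subtype.ext
      have := (mem_centralizer_iff.1 g.2) z hz
      exact this.symm
    have h3 : (Z.subgroupOf C).index ≠ 0 := by
      intro h
      exact hZ (index_eq_zero_of_relIndex_eq_zero h)
    exact fun h => h3 (Nat.eq_zero_of_zero_dvd (h ▸ index_dvd_of_le h2))
  have h2 := hSchur C h1
  have h3 : ⁅C, C⁆ = ⊥ := by
    apply hX
    · infer_instance
    · apply Nil_finLF
      have h4 : ⁅C, C⁆ = (commutator C).map C.subtype := by
        rw [_root_.commutator_def, map_commutator, ← MonoidHom.range_eq_map, range_subtype]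
      rw [h4, coe_map]
      exact h2.image _
  intro a ha b hb
  have h4 : ⁅a, b⁆ ∈ ⁅C, C⁆ := commutator_mem_commutator ha hb
  rw [h3, mem_bot, commutatorElement_eq_one_iff_mul_comm] at h4
  exact h4

theorem vNil (hSchur : S_Schur.{u}) (hLU : S_LU.{u}) : S_Nil.{u} := by
  intro X _ c hc hX
  set Z := Subgroup.upperCentralSeries X c with hZ
  set C := centralizer (Z : Set X) with hC
  have hCn : C.Normal := inferInstance
  have hcom := Nil_main hSchur Z hc hX
  rw [← hC] at hcom
  set m := Z.index with hm
  have hm0 : 0 < m := Nat.pos_of_ne_zero hc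
  -- no torsion in C
  have htor : ∀ a ∈ C, a ^ m = 1 → a = 1 := by
    let N : Subgroup X :=
      { carrier := {a | a ∈ C ∧ a ^ m = 1}
        one_mem' := ⟨C.one_mem, one_pow m⟩
        mul_mem' := by
          rintro a b ⟨ha, ha'⟩ ⟨hb, hb'⟩
          refine ⟨C.mul_mem ha hb, ?_⟩
          have hab : Commute a b := hcom a ha b hb
          rw [hab.mul_pow, ha', hb', one_mul]
        inv_mem' := by
          rintro a ⟨ha, ha'⟩
          refine ⟨C.inv_mem ha, ?_⟩
          rw [inv_pow, ha', inv_one] }
    have hN : N = ⊥ := by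
      apply hX
      · constructor
        rintro a ⟨ha, ha'⟩ g
        refine ⟨hCn.conj_mem a ha g, ?_⟩
        rw [conj_pow, ha', mul_one, mul_inv_cancel]
      · exact Nil_abLF N (fun a ha b hb => hcom a ha.1 b hb.1) m hm0 (fun a ha => ha.2)
    intro a ha ha'
    have : a ∈ N := ⟨ha, ha'⟩
    rw [hN, mem_bot] at this
    exact this
  have hdown : ∀ (j : ℕ) (a : X), a ∈ C → a ^ m ∈ Subgroup.upperCentralSeries X j → a ∈ Subgroup.upperCentralSeries X j := by
    intro j
    induction j with
    | zero =>
      intro a ha h
      rw [Subgroup.upperCentralSeries_zero, mem_bot] at h ⊢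
      exact htor a ha h
    | succ j ih =>
      intro a ha h
      rw [Subgroup.mem_upperCentralSeries_succ_iff] at h ⊢
      intro y
      have h1 : y * a⁻¹ * y⁻¹ ∈ C := hCn.conj_mem _ (C.inv_mem ha) y
      have e1 : ⁅a, y⁆ = a * (y * a⁻¹ * y⁻¹) := by
        rw [commutatorElement_def]
        group
      have h2 : ⁅a, y⁆ ∈ C := by
        rw [e1]
        exact C.mul_mem ha h1
      apply ih _ h2
      have e2 : ⁅a, y⁆ ^ m = ⁅a ^ m, y⁆ := by
        have hab : Commute a (y * a⁻¹ * y⁻¹) := hcom a ha _ h1
        rw [e1, hab.mul_pow, conj_pow, inv_pow, commutatorElement_def]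
        group
      rw [e2]
      exact h y
  have hCZ : C ≤ Z := by
    intro a ha
    apply hdown c a ha
    exact pow_index_mem Z a
  -- the lower central series
  have hγ : ∃ i, (⊤ : Subgroup X).lowerCentralSeries i ≤ Subgroup.upperCentralSeries X c := by
    cases c with
    | zero =>
      refine ⟨0, ?_⟩
      have hfin : ((⊤ : Subgroup X) : Set X).Finite := by
        rw [hZ, Subgroup.upperCentralSeries_zero, index_bot] at hm
        have : Finite X := Nat.finite_of_card_ne_zero (by rw [← hm]; exact hm0.ne')
        exact Set.toFinite _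
      have := hX ⊤ inferInstance (Nil_finLF _ hfin)
      rw [Subgroup.lowerCentralSeries_zero, this]
      exact bot_le
    | succ i =>
      refine ⟨i, ?_⟩
      have h1 := hLU X i
      rw [commutator_eq_bot_iff_le_centralizer] at h1
      exact h1.trans hCZ
  obtain ⟨i, hi⟩ := hγ
  have hfin : ∀ k, k ≤ c → (⊤ : Subgroup X).lowerCentralSeries (i + k) ≤ Subgroup.upperCentralSeries X (c - k) := by
    intro k
    induction k with
    | zero => intro _; exact hi
    | succ k ih =>
      intro hk
      have h1 := ih (by omega)
      rw [← add_assoc, Subgroup.lowerCentralSeries_succ]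
      obtain ⟨j, hj⟩ : ∃ j, c - k = j + 1 := ⟨c - k - 1, by omega⟩
      have hj' : c - (k + 1) = j := by omega
      rw [hj] at h1
      rw [hj']
      exact (commutator_mono h1 le_rfl).trans (Subgroup.commutator_upperCentralSeries_top_le X j)
  rw [Subgroup.nilpotent_iff_lowerCentralSeries]
  refine ⟨i + c, ?_⟩
  rw [eq_bot_iff]
  have := hfin c le_rfl
  rwa [Nat.sub_self, Subgroup.upperCentralSeries_zero] at this

end Pool.Agent.MPcc2398
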