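import Pool.Agent.Lib.MP_cc2398_al.Spec

set_option autoImplicit false

namespace Pool.Agent.MPcc2398

universe u v

theorem vNorm (hFG : S_FG.{u}) : S_Norm.{u} := by
  classical
  intro G _ H hTB hcore N hN hNtop s hs
  have hm : H.relIndex N ≠ 0 := hTB.rel N hNtop
  -- the conjugates of `H` have the same relative index
  have hcjN : ∀ g : G, cj g N = N := by
    intro g
    ext x
    rw [mem_cj']
    constructor
    · intro h
      have := hN.conj_mem _ h g
      simpa [mul_assoc] using this
    · intro h
      have := hN.conj_mem _ h g⁻¹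
      simpa using this
  have hcj : ∀ g : G, (cj g H).relIndex N = H.relIndex N := by
    intro g
    conv_lhs => rw [← hcjN g]
    exact Subgroup.relIndex_map_map_of_injective H N (MulAut.conj g).injective
  set X : Subgroup G := Subgroup.closure (s : Set G) with hX
  have hXN : X ≤ N := (Subgroup.closure_le _).2 hs
  have hrel : ∀ g : G, (cj g H).relIndex X ≠ 0 ∧ (cj g H).relIndex X ≤ H.relIndex N := by
    intro g
    have h1 : (cj g H).relIndex N ≠ 0 := by rw [hcj]; exact hm
    refine ⟨fun h => h1 (Subgroup.relIndex_eq_zero_of_le_right hXN h), ?_⟩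
    rw [← hcj g]
    exact Subgroup.relIndex_le_of_le_right hXN h1
  have hXfg : Group.FG X := by
    rw [Group.fg_iff_subgroup_fg]
    exact ⟨s, rfl⟩
  obtain ⟨J, hJ, hJle⟩ := hFG X hXfg (H.relIndex N)
  -- `J` is trivial
  have hJbot : J = ⊥ := by
    rw [eq_bot_iff]
    intro x hx
    have h1 : (x : G) ∈ (⨅ g : G, cj g H) := by
      rw [Subgroup.mem_iInf]
      intro g
      have h2 : J ≤ (cj g H).subgroupOf X := hJle _ (hrel g).1 (hrel g).2
      exact h2 hx
    have h3 : (⨅ g : G, cj g H) = ⊥ := by
      apply hcore
      · constructor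
        intro n hn g
        rw [Subgroup.mem_iInf] at hn ⊢
        intro y
        have := hn (g⁻¹ * y)
        rw [mem_cj'] at this ⊢
        simpa [mul_assoc] using this
      · refine (iInf_le _ 1).trans ?_
        rw [cj_one]
    rw [h3, Subgroup.mem_bot] at h1
    rw [Subgroup.mem_bot]
    exact Subtype.ext h1
  rw [hJbot, Subgroup.index_bot] at hJ
  haveI : Finite X := Nat.finite_of_card_ne_zero hJ
  exact Set.toFinite _

end Pool.Agent.MPcc2398
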