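import Pool.Agent.Lib.MP_cc2398_al.Spec

/-!
# MP_cc2398_al: elements with a centralizer commensurable with a point stabilizer (`QZ`)
-/

set_option autoImplicit false

namespace Pool.Agent.MPcc2398

universe u v

open scoped commutatorElement

namespace QZ

variable {G : Type u} [Group G]

theorem mem_C {g x : G} : x ∈ Subgroup.centralizer {g} ↔ x * g = g * x := by
  rw [Subgroup.mem_centralizer_singleton_iff]

/-- The set of elements whose centralizer contains a subgroup of finite index of `H`. -/
def U (H : Subgroup G) : Subgroup G where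
  carrier := {g | (Subgroup.centralizer {g}).relIndex H ≠ 0}
  one_mem' := by
    have : Subgroup.centralizer {(1 : G)} = ⊤ := by
      ext x; simp [mem_C]
    show (Subgroup.centralizer {(1 : G)}).relIndex H ≠ 0
    rw [this]; simp
  mul_mem' := by
    intro a b ha hb
    have h := Subgroup.relIndex_inf_ne_zero ha hb
    refine mt (Subgroup.relIndex_eq_zero_of_le_left ?_) h
    rintro x ⟨hx, hy⟩
    have hx' := mem_C.1 hx
    have hy' := mem_C.1 hy
    rw [mem_C, ← mul_assoc, hx', mul_assoc, hy', mul_assoc]
  inv_mem' := by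
    intro a ha
    refine mt (Subgroup.relIndex_eq_zero_of_le_left ?_) ha
    intro x hx
    have hx' := mem_C.1 hx
    rw [mem_C]
    have h2 : a⁻¹ * (x * a) * a⁻¹ = a⁻¹ * (a * x) * a⁻¹ := by rw [hx']
    simpa [mul_assoc] using h2.symm

theorem mem_U {H : Subgroup G} {g : G} : g ∈ U H ↔ (Subgroup.centralizer {g}).relIndex H ≠ 0 := Iff.rfl

theorem cj_C (x g : G) : cj x (Subgroup.centralizer {g}) = Subgroup.centralizer {x * g * x⁻¹} := by
  ext y
  rw [mem_cj', mem_C, mem_C]
  constructor
  · intro h
    have h2 : x * (x⁻¹ * y * x * g) * x⁻¹ = x * (g * (x⁻¹ * y * x)) * x⁻¹ := by rw [h]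
    simpa [mul_assoc] using h2
  · intro h
    have h2 : x⁻¹ * (y * (x * g * x⁻¹)) * x = x⁻¹ * (x * g * x⁻¹ * y) * x := by rw [h]
    simpa [mul_assoc] using h2

theorem relIndex_cj (x : G) (A B : Subgroup G) : (cj x A).relIndex (cj x B) = A.relIndex B :=
  Subgroup.relIndex_map_map_of_injective A B (MulAut.conj x).injective

/-- In a finitely generated group `X` all of whose elements have centralizers of finite index the
commutators of `X` generate a finite subgroup. -/
theorem finite_comm (hSchur : S_Schur.{u}) (L : Subgroup G)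
    (hL : ∀ g : G, (Subgroup.centralizer {g}).relIndex L ≠ 0) (t : Finset G) (ht : (t : Set G) ⊆ L) :
    ((⁅Subgroup.closure (t : Set G), Subgroup.closure (t : Set G)⁆ : Subgroup G) : Set G).Finite := by
  set X : Subgroup G := Subgroup.closure (t : Set G) with hX
  have hXL : X ≤ L := (Subgroup.closure_le L).2 ht
  have h1 : (Subgroup.centralizer (X : Set G)).relIndex L ≠ 0 := by
    have h2 : Subgroup.centralizer (X : Set G) = ⨅ g : t, Subgroup.centralizer {(g : G)} := by
      rw [hX, Subgroup.centralizer_closure, Subgroup.centralizer_eq_iInf]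
      simp only [Finset.mem_coe]
      rw [iInf_subtype]
    rw [h2]
    exact Subgroup.relIndex_iInf_ne_zero fun g => hL g
  have h3 : (Subgroup.centralizer (X : Set G)).relIndex X ≠ 0 :=
    mt (Subgroup.relIndex_eq_zero_of_le_right hXL) h1
  have h4 : (Subgroup.center X).index ≠ 0 := by
    have h5 : (Subgroup.centralizer (X : Set G)).subgroupOf X ≤ Subgroup.center X := by
      intro x hx
      rw [Subgroup.mem_center_iff]
      intro y
      have := Subgroup.mem_centralizer_iff.1 (Subgroup.mem_subgroupOf.1 hx) y y.2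
      exact Subtype.ext this
    exact mt (fun h => Nat.eq_zero_of_zero_dvd (h ▸ Subgroup.index_dvd_of_le h5)) h3
  have h6 := hSchur X h4
  have h7 : (⁅X, X⁆ : Subgroup G) = (commutator X).map X.subtype := by
    rw [commutator_def, Subgroup.map_commutator, ← MonoidHom.range_eq_map, Subgroup.range_subtype]
  rw [h7, Subgroup.coe_map]
  exact h6.image _

theorem comm_mem_closure {L : Subgroup G} {g : G} (hg : g ∈ (⁅L, L⁆ : Subgroup G)) :
    ∃ t : Finset G, (t : Set G) ⊆ L ∧
      g ∈ (⁅Subgroup.closure (t : Set G), Subgroup.closure (t : Set G)⁆ : Subgroup G) := by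
  classical
  rw [Subgroup.commutator_def] at hg
  induction hg using Subgroup.closure_induction with
  | mem x hx =>
    obtain ⟨a, ha, b, hb, rfl⟩ := hx
    refine ⟨{a, b}, ?_, ?_⟩
    · intro y hy
      simp only [Finset.coe_insert, Finset.coe_singleton, Set.mem_insert_iff, Set.mem_singleton_iff] at hy
      rcases hy with rfl | rfl
      · exact ha
      · exact hb
    · exact Subgroup.commutator_mem_commutator (Subgroup.subset_closure (by simp))
        (Subgroup.subset_closure (by simp))
  | one => exact ⟨∅, by simp, Subgroup.one_mem _⟩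
  | mul x y _ _ hx hy =>
    obtain ⟨s, hs, hxs⟩ := hx
    obtain ⟨t, ht, hyt⟩ := hy
    refine ⟨s ∪ t, ?_, ?_⟩
    · rw [Finset.coe_union]; exact Set.union_subset hs ht
    · have h1 : Subgroup.closure (s : Set G) ≤ Subgroup.closure ((s ∪ t : Finset G) : Set G) :=
        Subgroup.closure_mono (by simp)
      have h2 : Subgroup.closure (t : Set G) ≤ Subgroup.closure ((s ∪ t : Finset G) : Set G) :=
        Subgroup.closure_mono (by simp)
      exact Subgroup.mul_mem _ (Subgroup.commutator_mono h1 h1 hxs) (Subgroup.commutator_mono h2 h2 hyt)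
  | inv x _ hx =>
    obtain ⟨s, hs, hxs⟩ := hx
    exact ⟨s, hs, Subgroup.inv_mem _ hxs⟩

theorem LF_comm (hSchur : S_Schur.{u}) (L : Subgroup G)
    (hL : ∀ g : G, (Subgroup.centralizer {g}).relIndex L ≠ 0) : LF (⁅L, L⁆ : Subgroup G) := by
  classical
  intro s hs
  have h1 : ∃ t : Finset G, (t : Set G) ⊆ L ∧
      (s : Set G) ⊆ (⁅Subgroup.closure (t : Set G), Subgroup.closure (t : Set G)⁆ : Subgroup G) := by
    induction s using Finset.induction_on with
    | empty => exact ⟨∅, by simp, by simp⟩
    | insert a s _ ih =>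
      obtain ⟨t, ht, hst⟩ := ih (fun y hy => hs (by simp [Finset.mem_coe.1 hy]))
      obtain ⟨t', ht', hat⟩ := comm_mem_closure (hs (show a ∈ ((insert a s : Finset G) : Set G) by simp))
      refine ⟨t ∪ t', ?_, ?_⟩
      · rw [Finset.coe_union]; exact Set.union_subset ht ht'
      · have h1 : Subgroup.closure (t : Set G) ≤ Subgroup.closure ((t ∪ t' : Finset G) : Set G) :=
          Subgroup.closure_mono (by simp)
        have h2 : Subgroup.closure (t' : Set G) ≤ Subgroup.closure ((t ∪ t' : Finset G) : Set G) :=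
          Subgroup.closure_mono (by simp)
        intro y hy
        rw [Finset.coe_insert] at hy
        rcases hy with rfl | hy
        · exact Subgroup.commutator_mono h2 h2 hat
        · exact Subgroup.commutator_mono h1 h1 (hst hy)
  obtain ⟨t, ht, hst⟩ := h1
  exact (finite_comm hSchur L hL t ht).subset ((Subgroup.closure_le _).2 hst)

/-- A simple group with a pair `TB H` is not commutative. -/
theorem not_comm {H : Subgroup G} (h : SP H) : ¬ ∀ a b : G, a * b = b * a := by
  intro hc
  have h1 : ∃ g : G, g ≠ 1 := by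
    by_contra hne
    push Not at hne
    have : H = ⊤ := by
      ext g; simp [hne g]
    have h2 := h.tb.idx
    rw [this, Subgroup.index_top] at h2
    exact one_ne_zero h2
  obtain ⟨g, hg⟩ := h1
  have hN : (Subgroup.zpowers g).Normal :=
    ⟨fun n hn x => by rw [hc x n, mul_assoc, mul_inv_cancel, mul_one]; exact hn⟩
  rcases h.simple _ hN with h2 | h2
  · exact hg (Subgroup.zpowers_eq_bot.1 h2)
  · exact h.tb.cyc g h2

end QZ

open QZ in
theorem vQZ (hSchur : S_Schur.{u}) (hBig : S_Big.{u}) (hCom : S_Com.{u}) (hLFlaw : S_LFlaw.{u}) :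
    S_QZ.{u} := by
  classical
  intro G _ H hSP K g hK hg
  obtain ⟨-, -, c3, c4, -, -, c7⟩ := hCom G H hSP.tb
  have hHtop : H ≠ ⊤ := by
    intro h
    have h2 := hSP.tb.idx
    rw [h, Subgroup.index_top] at h2
    exact one_ne_zero h2
  have hHH : Co H H := c7 H hHtop le_rfl
  have hN : (U H).Normal := by
    refine ⟨fun n hn x => ?_⟩
    rw [mem_U, ← cj_C]
    have h1 : (cj x (Subgroup.centralizer {n})).relIndex (cj x H) ≠ 0 := by
      rw [relIndex_cj]; exact hn
    exact Subgroup.relIndex_ne_zero_trans h1 (c4 H x hHH).1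
  have hgU : g ∈ U H := by
    rw [mem_U]
    refine mt (Subgroup.relIndex_eq_zero_of_le_left ?_) hK.1
    intro k hk
    exact mem_C.2 (hg k hk).symm
  rcases hSP.simple _ hN with h | h
  · rw [h] at hgU
    exact Subgroup.mem_bot.1 hgU
  · exfalso
    refine not_comm hSP fun a b => ?_
    obtain ⟨L, hL, hHL, -, hab⟩ := hBig G H hSP.tb H hHtop {a, b}
    have hL1 : ∀ g : G, (Subgroup.centralizer {g}).relIndex L ≠ 0 := by
      intro g
      have h1 : g ∈ U H := by rw [h]; trivial
      exact Subgroup.relIndex_ne_zero_trans h1 (hSP.tb.rel L hL)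
    have h2 := LF_comm hSchur L hL1
    have h3 : (⁅L, L⁆ : Subgroup G) ≤ L := by
      rw [Subgroup.commutator_le]
      intro x hx y hy
      exact L.mul_mem (L.mul_mem (L.mul_mem hx hy) (L.inv_mem hx)) (L.inv_mem hy)
    have h4 : Inv L (⁅L, L⁆ : Subgroup G) := by
      intro l hl m hm
      have h5 : l * m * l⁻¹ = ⁅l, m⁆ * m := by
        rw [commutatorElement_def]; group
      rw [h5]
      exact Subgroup.mul_mem _ (Subgroup.commutator_mem_commutator hl (h3 hm)) hm
    have h5 : (⁅L, L⁆ : Subgroup G) = ⊥ := hLFlaw G H hSP L _ (c7 L hL hHL) h3 h4 h2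
    have ha : a ∈ L := hab (by simp)
    have hb : b ∈ L := hab (by simp)
    have h6 : ⁅a, b⁆ ∈ (⁅L, L⁆ : Subgroup G) := Subgroup.commutator_mem_commutator ha hb
    rw [h5, Subgroup.mem_bot] at h6
    exact commutatorElement_eq_one_iff_mul_comm.1 h6

end Pool.Agent.MPcc2398
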