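import Pool.Agent.Lib.MP_cc2398_al.Spec

set_option autoImplicit false

namespace Pool.Agent.MPcc2398

universe u v

theorem vQuot : S_Quot.{u} := by
  intro G _ H N _ hT hN
  set π := QuotientGroup.mk' N with hπ
  have hs : Function.Surjective π := QuotientGroup.mk'_surjective N
  have hk : π.ker = N := QuotientGroup.ker_mk' N
  have hH : H ≠ ⊤ := by
    intro h
    have := hT.idx
    rw [h, Subgroup.index_top] at this
    exact one_ne_zero this
  have hmap : ∀ K : Subgroup G, Subgroup.map π K = ⊤ → K = ⊤ := by
    intro K hK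
    by_contra hne
    have h1 : Subgroup.comap π (Subgroup.map π K) = K ⊔ N := by
      rw [Subgroup.comap_map_eq, hk]
    rw [hK, Subgroup.comap_top] at h1
    exact hT.join K N hne hN h1.symm
  have hcomap : ∀ K' : Subgroup (G ⧸ N), K' ≠ ⊤ → Subgroup.comap π K' ≠ ⊤ := by
    intro K' hK' h
    apply hK'
    rw [← Subgroup.map_comap_eq_self_of_surjective hs K', h]
    exact Subgroup.map_top_of_surjective π hs
  constructor
  · by_contra hne
    have h1 : (Subgroup.map π H).index = (H ⊔ N).index := by
      rw [← Subgroup.index_comap_of_surjective _ hs, Subgroup.comap_map_eq, hk]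
    rw [h1] at hne
    have h2 : H.relIndex (H ⊔ N) ≠ 0 := hT.rel _ (hT.join H N hH hN)
    have h3 := Subgroup.relIndex_mul_index (le_sup_left : H ≤ H ⊔ N)
    rw [hT.idx] at h3
    rcases mul_eq_zero.1 h3 with h | h
    · exact h2 h
    · exact hne h
  · intro K' hK'
    have h1 := hT.rel _ (hcomap K' hK')
    have h2 : K' = Subgroup.map π (Subgroup.comap π K') :=
      (Subgroup.map_comap_eq_self_of_surjective hs K').symm
    rw [h2, ← Subgroup.relIndex_comap, Subgroup.comap_map_eq, hk]
    intro h3
    exact h1 (Subgroup.relIndex_eq_zero_of_le_left le_sup_left h3)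
  · intro K L hK hL h
    have h1 := hT.join _ _ (hcomap K hK) (hcomap L hL)
    apply h1
    apply hmap
    rw [Subgroup.map_sup, Subgroup.map_comap_eq_self_of_surjective hs,
      Subgroup.map_comap_eq_self_of_surjective hs]
    exact h
  · intro g' h
    obtain ⟨g, rfl⟩ := hs g'
    apply hT.cyc g
    apply hmap
    rw [MonoidHom.map_zpowers]
    exact h

end Pool.Agent.MPcc2398
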