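import Pool.Agent.Lib.MP_cc2398_al.Spec

set_option autoImplicit false

namespace Pool.Agent.MPcc2398

universe u v

theorem vRF (hCom : S_Com.{u}) : S_RF.{u} := by
  intro G _ H hSP K x hK hxK hx1
  obtain ⟨hC1, _, hC3, hC4, _⟩ := hCom G H hSP.tb
  have hHtop : H ≠ ⊤ := by
    intro h
    have h2 := hSP.tb.idx
    rw [h, Subgroup.index_top] at h2
    exact one_ne_zero h2
  have hHH : Co H H := by
    constructor <;> rw [Subgroup.relIndex_self] <;> exact one_ne_zero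
  obtain ⟨Φ, hΦ⟩ : ∃ Φ : Subgroup G, Φ = sInf {K | Co H K} := ⟨_, rfl⟩
  have hmem : ∀ g, g ∈ Φ ↔ ∀ K', Co H K' → g ∈ K' := by
    intro g
    rw [hΦ, Subgroup.mem_sInf]
    rfl
  have hnorm : Φ.Normal := by
    refine ⟨fun n hn g => (hmem _).2 fun K' hK' => ?_⟩
    have h1 := (hmem n).1 hn _ (hC4 K' g⁻¹ hK')
    rw [mem_cj', inv_inv] at h1
    exact h1
  have hbot : Φ = ⊥ := by
    rcases hSP.simple Φ hnorm with h | h
    · exact h
    · exfalso
      apply hHtop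
      rw [eq_top_iff, ← h]
      intro g hg
      exact (hmem g).1 hg H hHH
  have hx : x ∉ Φ := by
    rw [hbot, Subgroup.mem_bot]
    exact hx1
  rw [hmem] at hx
  push Not at hx
  obtain ⟨K', hK', hxK'⟩ := hx
  refine ⟨K ⊓ K', inf_le_left, ?_, fun h => hxK' h.2⟩
  rw [Subgroup.inf_relIndex_left]
  exact hC3 K' K hK' (hC1 K hK)

end Pool.Agent.MPcc2398
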