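import Pool.Agent.Lib.MP_cc2398_al.Spec

set_option autoImplicit false

namespace Pool.Agent.MPcc2398

universe u v

/-- The union of all proper normal subgroups. -/
private def Rad.radical {G : Type u} [Group G] {H : Subgroup G} (hTB : TB H) : Subgroup G where
  carrier := {x | ∃ N : Subgroup G, N.Normal ∧ N ≠ ⊤ ∧ x ∈ N}
  one_mem' := by
    refine ⟨⊥, inferInstance, fun h => ?_, Subgroup.one_mem _⟩
    have h1 : H = ⊤ := top_unique (h ▸ bot_le)
    have h2 := hTB.idx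
    rw [h1, Subgroup.index_top] at h2
    exact one_ne_zero h2
  mul_mem' := by
    rintro a b ⟨N, hN, hN', ha⟩ ⟨M, hM, hM', hb⟩
    refine ⟨N ⊔ M, Subgroup.sup_normal N M, hTB.join N M hN' hM', ?_⟩
    exact Subgroup.mul_mem _ (Subgroup.mem_sup_left ha) (Subgroup.mem_sup_right hb)
  inv_mem' := by
    rintro a ⟨N, hN, hN', ha⟩
    exact ⟨N, hN, hN', N.inv_mem ha⟩

theorem vRad (hNorm : S_Norm.{u}) : S_Rad.{u} := by
  classical
  intro G _ H hTB hcore hnlf
  have hmem : ∀ x, x ∈ Rad.radical hTB ↔ ∃ N : Subgroup G, N.Normal ∧ N ≠ ⊤ ∧ x ∈ N :=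
    fun x => Iff.rfl
  have hfin : ∀ s : Finset G, (s : Set G) ⊆ Rad.radical hTB →
      ∃ N : Subgroup G, N.Normal ∧ N ≠ ⊤ ∧ (s : Set G) ⊆ N := by
    intro s
    induction s using Finset.induction_on with
    | empty =>
      intro _
      obtain ⟨N, hN, hN', _⟩ := (hmem 1).1 (Rad.radical hTB).one_mem
      exact ⟨N, hN, hN', by simp⟩
    | insert a s _ ih =>
      intro hs
      rw [Finset.coe_insert, Set.insert_subset_iff] at hs
      obtain ⟨N, hN, hN', haN⟩ := (hmem a).1 hs.1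
      obtain ⟨M, hM, hM', hsM⟩ := ih hs.2
      refine ⟨N ⊔ M, Subgroup.sup_normal N M, hTB.join N M hN' hM', ?_⟩
      rw [Finset.coe_insert, Set.insert_subset_iff]
      exact ⟨Subgroup.mem_sup_left haN, fun x hx => Subgroup.mem_sup_right (hsM hx)⟩
  have hLF : LF (Rad.radical hTB) := by
    intro s hs
    obtain ⟨N, hN, hN', hsN⟩ := hfin s hs
    exact hNorm G H hTB hcore N hN hN' s hsN
  refine ⟨Rad.radical hTB, ⟨?_⟩, ?_, hLF, ?_⟩
  · rintro n hn g
    obtain ⟨N, hN, hN', hnN⟩ := (hmem n).1 hn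
    exact (hmem _).2 ⟨N, hN, hN', hN.conj_mem n hnN g⟩
  · intro h
    rw [h] at hLF
    exact hnlf hLF
  · intro N hN hN' x hx
    exact (hmem x).2 ⟨N, hN, hN', hx⟩

end Pool.Agent.MPcc2398
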