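import Pool.Agent.Lib.MP_cc2398_al.Spec

/-!
# MP_cc2398_al, Schur: if the centre has finite index then the commutator subgroup is finite
-/

set_option autoImplicit false

namespace Pool.Agent.MPcc2398

universe u

open scoped commutatorElement

/-- Schur's theorem -/
theorem vSchur : S_Schur.{u} := by
  intro X _ h
  have : (Subgroup.center X).FiniteIndex := ⟨h⟩
  have : Finite (X ⧸ Subgroup.center X) := inferInstance
  have hf : (commutatorSet X).Finite := by
    have : commutatorSet X ⊆ Set.range (fun p : (X ⧸ Subgroup.center X) × (X ⧸ Subgroup.center X) =>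
        ⁅p.1.out, p.2.out⁆) := by
      rintro _ ⟨a, b, rfl⟩
      refine ⟨((a : X ⧸ Subgroup.center X), (b : X ⧸ Subgroup.center X)), ?_⟩
      have key : ∀ x : X, ∃ z ∈ Subgroup.center X, ((x : X ⧸ Subgroup.center X)).out = x * z := by
        intro x
        obtain ⟨z, hz⟩ := QuotientGroup.mk_out_eq_mul (Subgroup.center X) x
        exact ⟨z, z.2, hz⟩
      obtain ⟨z, hz, ha⟩ := key a
      obtain ⟨w, hw, hb⟩ := key b
      simp only [ha, hb]
      rw [Subgroup.mem_center_iff] at hz hw
      have hz' : ∀ g, z * g = g * z := fun g => (hz g).symm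
      have hw' : ∀ g, w * g = g * w := fun g => (hw g).symm
      rw [commutatorElement_def, commutatorElement_def, mul_inv_rev, mul_inv_rev]
      have e1 : a * z * (b * w) * (z⁻¹ * a⁻¹) = a * b * a⁻¹ * w := by
        calc a * z * (b * w) * (z⁻¹ * a⁻¹) = a * (z * (b * w)) * (z⁻¹ * a⁻¹) := by group
          _ = a * (b * w * z) * (z⁻¹ * a⁻¹) := by rw [hz']
          _ = a * b * (w * a⁻¹) := by group
          _ = a * b * (a⁻¹ * w) := by rw [hw']
          _ = a * b * a⁻¹ * w := by group
      rw [e1]
      group
    exact (Set.finite_range _).subset this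
  have : Finite (commutatorSet X) := hf
  have : Finite (commutator X) := inferInstance
  exact Set.toFinite _

end Pool.Agent.MPcc2398
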