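import Pool.Agent.Lib.MP_cc2398_al.Spec

set_option autoImplicit false

namespace Pool.Agent.MPcc2398

universe u v

namespace Star

/-- Elementwise upper central series of a subgroup. -/
def ZP {G : Type u} [Group G] (B : Subgroup G) : ℕ → G → Prop
  | 0, g => g = 1
  | (i + 1), g => g ∈ B ∧ ∀ y ∈ B, ZP B i (g * y * g⁻¹ * y⁻¹)

theorem zp_iff {G : Type u} [Group G] (B : Subgroup G) (i : ℕ) (g : G) :
    ZP B i g ↔ ∃ h : g ∈ B, (⟨g, h⟩ : B) ∈ Subgroup.upperCentralSeries B i := by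
  induction i generalizing g with
  | zero =>
    simp only [ZP, Subgroup.upperCentralSeries_zero, Subgroup.mem_bot]
    constructor
    · rintro rfl; exact ⟨B.one_mem, rfl⟩
    · rintro ⟨h, h'⟩; exact congrArg Subtype.val h'
  | succ i ih =>
    simp only [ZP, Subgroup.mem_upperCentralSeries_succ_iff]
    constructor
    · rintro ⟨h, h'⟩
      refine ⟨h, fun y => ?_⟩
      obtain ⟨k, hk⟩ := (ih _).1 (h' y y.2)
      exact hk
    · rintro ⟨h, h'⟩
      refine ⟨h, fun y hy => (ih _).2 ⟨B.mul_mem (B.mul_mem (B.mul_mem h hy) (B.inv_mem h)) (B.inv_mem hy), h' ⟨y, hy⟩⟩⟩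

theorem zp_mem {G : Type u} [Group G] {B : Subgroup G} {i : ℕ} {g : G} (h : ZP B i g) : g ∈ B :=
  ((zp_iff B i g).1 h).1

theorem zp_mono {G : Type u} [Group G] {S B : Subgroup G} (hSB : S ≤ B) {i : ℕ} {g : G} (hg : g ∈ S)
    (h : ZP B i g) : ZP S i g := by
  induction i generalizing g with
  | zero => exact h
  | succ i ih =>
    refine ⟨hg, fun y hy => ih ?_ (h.2 y (hSB hy))⟩
    exact S.mul_mem (S.mul_mem (S.mul_mem hg hy) (S.inv_mem hg)) (S.inv_mem hy)

theorem zp_sub {G : Type u} [Group G] {S B : Subgroup G} (hSB : S ≤ B) (i : ℕ) (g : B) :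
    ZP (S.subgroupOf B) i g ↔ ZP S i (g : G) := by
  induction i generalizing g with
  | zero => simp [ZP]
  | succ i ih =>
    simp only [ZP]
    constructor
    · rintro ⟨h, h'⟩
      refine ⟨Subgroup.mem_subgroupOf.1 h, fun y hy => ?_⟩
      have := (ih _).1 (h' ⟨y, hSB hy⟩ (Subgroup.mem_subgroupOf.2 hy))
      simpa using this
    · rintro ⟨h, h'⟩
      refine ⟨Subgroup.mem_subgroupOf.2 h, fun y hy => (ih _).2 ?_⟩
      have := h' y (Subgroup.mem_subgroupOf.1 hy)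
      simpa using this

/-- the subgroup `Z_i(B)` of `G` -/
def ZG {G : Type u} [Group G] (B : Subgroup G) (i : ℕ) : Subgroup G :=
  (Subgroup.upperCentralSeries B i).map B.subtype

theorem mem_ZG {G : Type u} [Group G] (B : Subgroup G) (i : ℕ) (g : G) : g ∈ ZG B i ↔ ZP B i g := by
  rw [zp_iff, ZG, Subgroup.mem_map]
  constructor
  · rintro ⟨x, hx, rfl⟩; exact ⟨x.2, hx⟩
  · rintro ⟨h, h'⟩; exact ⟨_, h', rfl⟩

theorem inv_ZG {G : Type u} [Group G] (B : Subgroup G) (i : ℕ) : Inv B (ZG B i) := by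
  intro l hl m hm
  rw [mem_ZG, zp_iff] at hm ⊢
  obtain ⟨h, h'⟩ := hm
  refine ⟨B.mul_mem (B.mul_mem hl h) (B.inv_mem hl), ?_⟩
  have : (Subgroup.upperCentralSeries B i).Normal := inferInstance
  exact this.conj_mem _ h' ⟨l, hl⟩

theorem lf_map {G G' : Type u} [Group G] [Group G'] (f : G →* G') {B : Subgroup G} (h : LF B) :
    LF (B.map f) := by
  classical
  intro s hs
  have h1 : ∀ y ∈ B.map f, ∃ x, x ∈ B ∧ f x = y := fun y hy => Subgroup.mem_map.1 hy
  choose! g hg using h1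
  have h2 := h (s.image g) (by
    intro x hx
    obtain ⟨y, hy, rfl⟩ := Finset.mem_image.1 (Finset.mem_coe.1 hx)
    exact (hg y (hs hy)).1)
  have h3 : (Subgroup.closure (s : Set G') : Subgroup G') ≤
      (Subgroup.closure ((s.image g : Finset G) : Set G)).map f := by
    rw [Subgroup.closure_le]
    intro y hy
    refine ⟨g y, Subgroup.subset_closure (Finset.mem_coe.2 (Finset.mem_image_of_mem g hy)), (hg y (hs hy)).2⟩
  refine (h2.image f).subset ?_
  intro y hy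
  exact h3 hy

theorem lf_comm_torsion {G : Type u} [Group G] {T : Subgroup G} (hc : ∀ a ∈ T, ∀ b ∈ T, a * b = b * a)
    (ht : ∀ a ∈ T, ∃ n : ℕ, 0 < n ∧ a ^ n = 1) : LF T := by
  intro s hs
  have hle : Subgroup.closure (s : Set G) ≤ T := (Subgroup.closure_le T).2 hs
  let _ : CommGroup (Subgroup.closure (s : Set G)) :=
    { (inferInstance : Group (Subgroup.closure (s : Set G))) with
      mul_comm := fun a b => Subtype.ext (hc a (hle a.2) b (hle b.2)) }
  have : Group.FG (Subgroup.closure (s : Set G)) := by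
    rw [Group.fg_iff_subgroup_fg]
    exact ⟨s, rfl⟩
  have : Finite (Subgroup.closure (s : Set G)) := by
    apply CommGroup.finite_of_fg_isMulTorsion
    intro a
    obtain ⟨n, hn, hn'⟩ := ht a (hle a.2)
    exact isOfFinOrder_iff_pow_eq_one.2 ⟨n, hn, Subtype.ext (by simpa using hn')⟩
  exact Set.toFinite _

theorem nilp_of_comm {G : Type u} [Group G] {B : Subgroup G} (hc : ∀ a ∈ B, ∀ b ∈ B, a * b = b * a) :
    Group.IsNilpotent B := by
  let i : CommGroup B :=
    { (inferInstance : Group B) with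
      mul_comm := fun a b => Subtype.ext (hc a a.2 b b.2) }
  exact @CommGroup.isNilpotent B i

theorem comm_cj {G : Type u} [Group G] {A : Subgroup G} (hcomm : ∀ a ∈ A, ∀ b ∈ A, a * b = b * a) (x : G) :
    ∀ a ∈ cj x A, ∀ b ∈ cj x A, a * b = b * a := by
  intro a ha b hb
  have ha' := mem_cj'.1 ha
  have hb' := mem_cj'.1 hb
  have h5 := hcomm _ ha' _ hb'
  calc a * b = x * ((x⁻¹ * a * x) * (x⁻¹ * b * x)) * x⁻¹ := by group
    _ = x * ((x⁻¹ * b * x) * (x⁻¹ * a * x)) * x⁻¹ := by rw [h5]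
    _ = b * a := by group

theorem exists_c {G : Type u} [Group G] {B : Subgroup G} (h : Group.IsNilpotent B) :
    ∃ c : ℕ, ∀ g ∈ B, ZP B c g := by
  obtain ⟨c, hc⟩ := h.nilpotent
  refine ⟨c, fun g hg => (zp_iff B c g).2 ⟨hg, ?_⟩⟩
  rw [hc]; exact Subgroup.mem_top _

theorem sSup_nil (hFit : S_Fit.{u}) {G : Type u} [Group G] (M : Subgroup G) (𝒮 : Set (Subgroup G))
    (hfin : 𝒮.Finite) (h : ∀ B ∈ 𝒮, B ≤ M ∧ Inv M B ∧ Group.IsNilpotent B) :
    sSup 𝒮 ≤ M ∧ Inv M (sSup 𝒮) ∧ Group.IsNilpotent ↥(sSup 𝒮) := by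
  induction 𝒮, hfin using Set.Finite.induction_on with
  | empty =>
    rw [sSup_empty]
    refine ⟨bot_le, fun l _ m hm => ?_, ?_⟩
    · rw [Subgroup.mem_bot] at hm ⊢; rw [hm]; simp
    · exact nilp_of_comm (fun a ha b hb => by rw [Subgroup.mem_bot] at ha hb; rw [ha, hb])
  | @insert B 𝒮 _ _ ih =>
    obtain ⟨h1, h2, h3⟩ := ih (fun B' hB' => h B' (Set.mem_insert_of_mem _ hB'))
    obtain ⟨h4, h5, h6⟩ := h B (Set.mem_insert _ _)
    rw [sSup_insert]
    exact ⟨sup_le h4 h1, h5.sup h2, hFit G M B (sSup 𝒮) h4 h1 h5 h2 h6 h3⟩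

theorem center_tf (hLF : S_LFlaw.{u}) {G : Type u} [Group G] {H : Subgroup G} (hSP : SP H) (K B : Subgroup G)
    (hK : Co H K) (hB : B ≤ K) (hKB : Inv K B) :
    ∀ z ∈ Subgroup.center B, ∀ n : ℕ, 0 < n → z ^ n = 1 → z = 1 := by
  let T : Subgroup G :=
    { carrier := {g | g ∈ B ∧ (∀ y ∈ B, g * y = y * g) ∧ ∃ n : ℕ, 0 < n ∧ g ^ n = 1}
      one_mem' := ⟨B.one_mem, fun y _ => by simp, 1, one_pos, by simp⟩
      mul_mem' := by
        rintro a b ⟨ha, ha', n, hn, hn'⟩ ⟨hb, hb', m, hm, hm'⟩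
        refine ⟨B.mul_mem ha hb, fun y hy => ?_, n * m, Nat.mul_pos hn hm, ?_⟩
        · rw [mul_assoc, hb' y hy, ← mul_assoc, ha' y hy, mul_assoc]
        · have hab : Commute a b := ha' b hb
          rw [hab.mul_pow, pow_mul, hn', one_pow, mul_comm n m, pow_mul, hm', one_pow, one_mul]
      inv_mem' := by
        rintro a ⟨ha, ha', n, hn, hn'⟩
        refine ⟨B.inv_mem ha, fun y hy => ?_, n, hn, by rw [inv_pow, hn', inv_one]⟩
        have := ha' y hy
        calc a⁻¹ * y = a⁻¹ * (y * a) * a⁻¹ := by group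
          _ = a⁻¹ * (a * y) * a⁻¹ := by rw [this]
          _ = y * a⁻¹ := by group }
  have hT : T = ⊥ := by
    refine hLF G H hSP K T hK (fun g hg => hB hg.1) ?_ ?_
    · rintro k hk g ⟨hg, hg', n, hn, hn'⟩
      refine ⟨hKB k hk g hg, fun y hy => ?_, n, hn, ?_⟩
      · have h1 := hKB k⁻¹ (K.inv_mem hk) y hy
        have h2 := hg' _ h1
        calc k * g * k⁻¹ * y = k * (g * (k⁻¹ * y * k⁻¹⁻¹)) * k⁻¹ := by group
          _ = k * ((k⁻¹ * y * k⁻¹⁻¹) * g) * k⁻¹ := by rw [h2]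
          _ = y * (k * g * k⁻¹) := by group
      · rw [conj_pow, hn']; simp
    · exact lf_comm_torsion (fun a ha b hb => ha.2.1 b hb.1) (fun a ha => ha.2.2)
  intro z hz n hn hzn
  have : (z : G) ∈ T := by
    refine ⟨z.2, fun y hy => ?_, n, hn, ?_⟩
    · have := Subgroup.mem_center_iff.1 hz ⟨y, hy⟩
      exact (congrArg Subtype.val this).symm
    · have := congrArg Subtype.val hzn
      simpa using this
  rw [hT, Subgroup.mem_bot] at this
  exact Subtype.ext this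

theorem noLF (hISup : S_ISup.{u}) (hLF : S_LFlaw.{u}) {G : Type u} [Group G] {H : Subgroup G} (hSP : SP H)
    (L D : Subgroup G) (hL : Co H L) (hD : D ≤ L) (hLD : Inv L D) :
    ∀ N : Subgroup D, N.Normal → LF N → N = ⊥ := by
  intro N hN hNLF
  have h1 : LF (N.map D.subtype) := lf_map _ hNLF
  have hND : N.map D.subtype ≤ D := by
    rintro _ ⟨x, _, rfl⟩; exact x.2
  have hDN : Inv D (N.map D.subtype) := by
    rintro l hl _ ⟨x, hx, rfl⟩
    exact ⟨_, hN.conj_mem x hx ⟨l, hl⟩, rfl⟩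
  have h2 : LF (NC L (N.map D.subtype)) := by
    refine hISup G D L (fun x => cj (x : G) (N.map D.subtype)) ?_ ?_ ?_
    · intro x
      have := cj_mono (x : G) hND
      rwa [cj_eq_of_inv hLD x.2] at this
    · intro x
      have := hDN.cj (x : G)
      rwa [cj_eq_of_inv hLD x.2] at this
    · intro x
      exact lf_map _ h1
  have h3 : NC L (N.map D.subtype) = ⊥ :=
    hLF G H hSP L _ hL (NC_le (hND.trans hD)) (inv_NC _ _) h2
  have h4 : N.map D.subtype = ⊥ := by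
    rw [eq_bot_iff, ← h3]; exact le_NC _ _
  exact (Subgroup.map_eq_bot_iff_of_injective _ D.subtype_injective).1 h4

end Star

theorem vStar (hISup : S_ISup.{u}) (hCom : S_Com.{u}) (hCore : S_Core.{u}) (hLFlaw : S_LFlaw.{u})
    (hFit : S_Fit.{u}) (hIsol : S_Isol.{u}) (hNil : S_Nil.{u}) : S_Star.{u} := by
  intro G _ H hSP K A L hK hAK hKA hcomm hKL hL
  obtain ⟨c1, c2, c3, c4, c5, c6, c7⟩ := hCom G H hSP.tb
  obtain ⟨M, hMK, hM, hLM⟩ := c6 K L hK hKL hL
  have hCoL : Co H L := c2 L hL (fun h0 => hK.1 (Subgroup.relIndex_eq_zero_of_le_left hKL h0))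
  obtain ⟨k1, k2, ⟨k3, k3'⟩, k4, k5⟩ := hCore G K L A M hKL (c3 K L hK hL) hAK hKA hMK (c3 M L hM hL) hLM
  set S := SM L A M with hS
  set D := NC L A with hD
  -- (a)
  have hSnil : Group.IsNilpotent S := by
    have h0 : S = sSup (Set.range fun x : L => cj (x : G) A ⊓ M) := by
      rw [hS, SM, iSup]
    have hfin : (Set.range fun x : L => cj (x : G) A ⊓ M).Finite := by
      have : (Set.range fun x : L => cj (x : G) A ⊓ M) = (fun B => B ⊓ M) '' (Set.range fun x : L => cj (x : G) A) := by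
        rw [← Set.range_comp]; rfl
      rw [this]; exact k1.image _
    have := (Star.sSup_nil hFit M _ hfin (by
      rintro _ ⟨x, rfl⟩
      exact ⟨inf_le_right, (k2 x x.2).inf (inv_self M),
        Star.nilp_of_comm (fun a ha b hb => Star.comm_cj hcomm (x : G) a ha.1 b hb.1)⟩)).2.2
    rw [h0]; exact this
  -- (b), (c)
  have hstep : ∀ x ∈ L, ∀ i : ℕ, ∀ s : G, Star.ZP S (i + 1) s → ∀ y ∈ cj x A, Star.ZP S i (s * y * s⁻¹ * y⁻¹) := by
    intro x hx i s hs y hy
    have hxK : cj x K ≤ L := cj_le_of_le hKL hx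
    have hxM : cj x M = M := cj_eq_of_inv hLM hx
    have hSK : S ≤ cj x K := k3.trans (by rw [← hxM]; exact cj_mono x hMK)
    have hAK' : cj x A ≤ cj x K := cj_mono x hAK
    have hAnil : Group.IsNilpotent (cj x A) := Star.nilp_of_comm (Star.comm_cj hcomm x)
    have hBnil := hFit G (cj x K) (cj x A) S hAK' hSK (hKA.cj x) (k4.mono hxK) hAnil hSnil
    have hCoX : Co H (cj x K) := c4 K x hK
    have htf := Star.center_tf hLFlaw hSP (cj x K) (cj x A ⊔ S) hCoX (sup_le hAK' hSK)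
      ((hKA.cj x).sup (k4.mono hxK))
    have hSB : S ≤ cj x A ⊔ S := le_sup_right
    have hBD : cj x A ⊔ S ≤ D := sup_le (cj_le_NC hx) k3'
    have hpow : ∀ z : ↥(cj x A ⊔ S), ∃ n : ℕ, 0 < n ∧ z ^ n ∈ S.subgroupOf (cj x A ⊔ S) := by
      intro z
      obtain ⟨n, hn, _, hn'⟩ := Subgroup.exists_pow_mem_of_relIndex_ne_zero k5 (hBD z.2)
      exact ⟨n, hn, Subgroup.mem_subgroupOf.2 (by simpa using hn'.1)⟩
    have hiso := hIsol _ (S.subgroupOf (cj x A ⊔ S)) hBnil htf hpow (i + 1)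
    have hsS : s ∈ S := Star.zp_mem hs
    have h1 : Star.ZP (S.subgroupOf (cj x A ⊔ S)) (i + 1) (⟨s, hSB hsS⟩ : ↥(cj x A ⊔ S)) :=
      (Star.zp_sub hSB _ _).2 hs
    obtain ⟨h2, h3⟩ := (Star.zp_iff _ _ _).1 h1
    have h4 := hiso ⟨_, h2⟩ h3
    have h5 : Star.ZP (cj x A ⊔ S) (i + 1) s := (Star.zp_iff _ _ _).2 ⟨hSB hsS, h4⟩
    have hyB : y ∈ cj x A ⊔ S := (le_sup_left : cj x A ≤ _) hy
    have h6 := h5.2 y hyB
    refine Star.zp_mono hSB ?_ h6
    have hyL : y ∈ L := hxK (hAK' hy)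
    have h7 := k4 y hyL s⁻¹ (S.inv_mem hsS)
    have : s * y * s⁻¹ * y⁻¹ = s * (y * s⁻¹ * y⁻¹) := by group
    rw [this]
    exact S.mul_mem hsS h7
  -- (d)
  have hSD : S ≤ D := k3'
  have hle : ∀ i : ℕ, ∀ s : G, Star.ZP S i s → Star.ZP D i s := by
    intro i
    induction i with
    | zero => intro s hs; exact hs
    | succ i ih =>
      intro s hs
      have hsD : s ∈ D := hSD (Star.zp_mem hs)
      refine ⟨hsD, ?_⟩
      let T : Subgroup G :=
        { carrier := {y | y ∈ D ∧ s * y * s⁻¹ * y⁻¹ ∈ Star.ZG D i}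
          one_mem' := ⟨D.one_mem, by simp⟩
          mul_mem' := by
            rintro a b ⟨ha, ha'⟩ ⟨hb, hb'⟩
            refine ⟨D.mul_mem ha hb, ?_⟩
            have h8 := Star.inv_ZG D i a ha _ hb'
            have : s * (a * b) * s⁻¹ * (a * b)⁻¹ = (s * a * s⁻¹ * a⁻¹) * (a * (s * b * s⁻¹ * b⁻¹) * a⁻¹) := by
              group
            show s * (a * b) * s⁻¹ * (a * b)⁻¹ ∈ _
            rw [this]
            exact (Star.ZG D i).mul_mem ha' h8
          inv_mem' := by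
            rintro a ⟨ha, ha'⟩
            refine ⟨D.inv_mem ha, ?_⟩
            have h8 := Star.inv_ZG D i a⁻¹ (D.inv_mem ha) _ ((Star.ZG D i).inv_mem ha')
            have : s * a⁻¹ * s⁻¹ * a⁻¹⁻¹ = a⁻¹ * (s * a * s⁻¹ * a⁻¹)⁻¹ * a⁻¹⁻¹ := by
              group
            show s * a⁻¹ * s⁻¹ * a⁻¹⁻¹ ∈ _
            rw [this]
            exact h8 }
      have hDT : D ≤ T := by
        rw [hD, NC]
        refine iSup_le fun x => ?_
        intro y hy
        refine ⟨cj_le_NC x.2 hy, (Star.mem_ZG _ _ _).2 (ih _ (hstep x x.2 i s hs y hy))⟩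
      intro y hy
      exact (Star.mem_ZG _ _ _).1 (hDT hy).2
  obtain ⟨c, hc⟩ := Star.exists_c hSnil
  -- index
  have hidx : (Subgroup.upperCentralSeries D c).index ≠ 0 := by
    have h1 : S.subgroupOf D ≤ Subgroup.upperCentralSeries D c := by
      intro z hz
      obtain ⟨_, h3⟩ := (Star.zp_iff _ _ _).1 (hle c z (hc z (Subgroup.mem_subgroupOf.1 hz)))
      exact h3
    intro h0
    apply k5
    have := Subgroup.index_dvd_of_le h1
    rw [h0] at this
    exact Nat.eq_zero_of_zero_dvd this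
  exact hNil D c hidx (Star.noLF hISup hLFlaw hSP L D hCoL (NC_le (hAK.trans hKL)) (inv_NC _ _))

end Pool.Agent.MPcc2398
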