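import Pool.Agent.Lib.MP_cc2398_al.Spec

set_option autoImplicit false

namespace Pool.Agent.MPcc2398

universe u v

namespace Sup

/-- the product `A B` of a subgroup `A` and a subgroup `B` normalising it -/
def ps {G : Type u} [Group G] (A B : Subgroup G) (h : Inv B A) : Subgroup G where
  carrier := {g | ∃ a ∈ A, ∃ b ∈ B, g = a * b}
  mul_mem' := by
    rintro _ _ ⟨a, ha, b, hb, rfl⟩ ⟨a', ha', b', hb', rfl⟩
    exact ⟨a * (b * a' * b⁻¹), A.mul_mem ha (h b hb a' ha'), b * b', B.mul_mem hb hb', by group⟩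
  one_mem' := ⟨1, A.one_mem, 1, B.one_mem, by group⟩
  inv_mem' := by
    rintro _ ⟨a, ha, b, hb, rfl⟩
    refine ⟨b⁻¹ * a⁻¹ * b⁻¹⁻¹, h b⁻¹ (B.inv_mem hb) a⁻¹ (A.inv_mem ha), b⁻¹, B.inv_mem hb, by group⟩

theorem mem_ps {G : Type u} [Group G] {A B : Subgroup G} {h : Inv B A} {g : G} :
    g ∈ ps A B h ↔ ∃ a ∈ A, ∃ b ∈ B, g = a * b := Iff.rfl

theorem sup_le_ps {G : Type u} [Group G] {A B : Subgroup G} (h : Inv B A) : A ⊔ B ≤ ps A B h := by
  refine sup_le (fun a ha => ?_) (fun b hb => ?_)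
  · exact mem_ps.mpr ⟨a, ha, 1, B.one_mem, by group⟩
  · exact mem_ps.mpr ⟨1, A.one_mem, b, hb, by group⟩

theorem relIndex_ne_zero {G : Type u} [Group G] {A Y X : Subgroup G} (hY : (Y : Set G).Finite)
    (hX : ∀ x ∈ X, ∃ a ∈ A, ∃ y ∈ Y, x = a * y) : A.relIndex X ≠ 0 := by
  have hYf : Finite Y := hY
  have hx : ∀ x : X, ∃ y : Y, ∃ a ∈ A, (x : G)⁻¹ = a * y := by
    intro x
    obtain ⟨a, ha, y, hy, e⟩ := hX (x : G)⁻¹ (X.inv_mem x.2)
    exact ⟨⟨y, hy⟩, a, ha, e⟩
  choose f a ha hfa using hx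
  have hinj : Function.Injective (fun q : X ⧸ A.subgroupOf X => f q.out) := by
    intro q q' hqq
    have hqq' : f q.out = f q'.out := hqq
    rw [← QuotientGroup.out_eq' q, ← QuotientGroup.out_eq' q', QuotientGroup.eq,
      Subgroup.mem_subgroupOf]
    have h1 : ((q.out⁻¹ * q'.out : X) : G) = a q.out * (a q'.out)⁻¹ := by
      have h2 := hfa q.out
      have h3 := hfa q'.out
      rw [hqq'] at h2
      have h4 : ((q'.out : X) : G) = (a q'.out * (f q'.out : G))⁻¹ := by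
        rw [← h3, inv_inv]
      push_cast
      rw [h2, h4]
      group
    rw [h1]
    exact A.mul_mem (ha _) (A.inv_mem (ha _))
  have hfin : Finite (X ⧸ A.subgroupOf X) := Finite.of_injective _ hinj
  exact Subgroup.index_ne_zero_of_finite

end Sup

open _root_.Pool.Agent.MPcc2398.Sup in
theorem vSup (hExt : S_Ext.{u}) : S_Sup.{u} := by
  intro G _ A B hA hB hI
  refine hExt G A (A ⊔ B) hA ?_
  intro s hs
  classical
  have h1 : ∀ g : G, ∃ b : G, g ∈ s → b ∈ B ∧ ∃ a ∈ A, g = a * b := by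
    intro g
    by_cases hg : g ∈ s
    · obtain ⟨a, ha, b, hb, e⟩ := mem_ps.mp (sup_le_ps hI (hs hg))
      exact ⟨b, fun _ => ⟨hb, a, ha, e⟩⟩
    · exact ⟨1, fun h => absurd h hg⟩
  choose b hb using h1
  have ht : ((s.image b : Finset G) : Set G) ⊆ B := by
    intro y hy
    rw [Finset.coe_image] at hy
    obtain ⟨g, hg, rfl⟩ := hy
    exact (hb g hg).1
  have hYf := hB (s.image b) ht
  have hYB : Subgroup.closure ((s.image b : Finset G) : Set G) ≤ B := (Subgroup.closure_le B).mpr ht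
  have hYI : Inv (Subgroup.closure ((s.image b : Finset G) : Set G)) A := hI.mono hYB
  refine relIndex_ne_zero hYf ?_
  intro x hx
  have h2 : Subgroup.closure (s : Set G) ≤ ps A _ hYI := by
    rw [Subgroup.closure_le]
    intro g hg
    obtain ⟨-, a, ha, e⟩ := hb g hg
    refine mem_ps.mpr ⟨a, ha, b g, Subgroup.subset_closure ?_, e⟩
    rw [Finset.coe_image]
    exact ⟨g, hg, rfl⟩
  exact mem_ps.mp (h2 hx)

end Pool.Agent.MPcc2398
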