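import Pool.Agent.Lib.MP_cc2398_al.Ext
import Pool.Agent.Lib.MP_cc2398_al.Sup
import Pool.Agent.Lib.MP_cc2398_al.ISup
import Pool.Agent.Lib.MP_cc2398_al.Act
import Pool.Agent.Lib.MP_cc2398_al.Big
import Pool.Agent.Lib.MP_cc2398_al.Com
import Pool.Agent.Lib.MP_cc2398_al.Quot
import Pool.Agent.Lib.MP_cc2398_al.FG
import Pool.Agent.Lib.MP_cc2398_al.Norm
import Pool.Agent.Lib.MP_cc2398_al.Rad
import Pool.Agent.Lib.MP_cc2398_al.Schur
import Pool.Agent.Lib.MP_cc2398_al.Dietz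
import Pool.Agent.Lib.MP_cc2398_al.Core
import Pool.Agent.Lib.MP_cc2398_al.LFN
import Pool.Agent.Lib.MP_cc2398_al.LFlaw
import Pool.Agent.Lib.MP_cc2398_al.QZ
import Pool.Agent.Lib.MP_cc2398_al.RF
import Pool.Agent.Lib.MP_cc2398_al.Fit
import Pool.Agent.Lib.MP_cc2398_al.Lay
import Pool.Agent.Lib.MP_cc2398_al.Isol
import Pool.Agent.Lib.MP_cc2398_al.LU
import Pool.Agent.Lib.MP_cc2398_al.Nil
import Pool.Agent.Lib.MP_cc2398_al.Star
import Pool.Agent.Lib.MP_cc2398_al.Simp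
import Pool.Agent.Lib.MP_cc2398_al.Ab
import Pool.Agent.Lib.MP_cc2398_al.Main

set_option autoImplicit false

namespace Pool.Agent.MPcc2398

universe u v

theorem aExt : S_Ext.{u} := vExt
theorem aSup : S_Sup.{u} := vSup aExt
theorem aISup : S_ISup.{u} := vISup aSup
theorem aAct : S_Act.{u, v} := vAct
theorem aBig : S_Big.{u} := vBig
theorem aCom : S_Com.{u} := vCom
theorem aQuot : S_Quot.{u} := vQuot
theorem aFG : S_FG.{u} := vFG
theorem aNorm : S_Norm.{u} := vNorm aFG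
theorem aRad : S_Rad.{u} := vRad aNorm
theorem aSchur : S_Schur.{u} := vSchur
theorem aDietz : S_Dietz.{u} := vDietz aSchur
theorem aCore : S_Core.{u} := vCore aDietz
theorem aLFN : S_LFN.{u} := vLFN aExt aISup aCore
theorem aLFlaw : S_LFlaw.{u} := vLFlaw aSup aBig aCom aLFN
theorem aQZ : S_QZ.{u} := vQZ aSchur aBig aCom aLFlaw
theorem aRF : S_RF.{u} := vRF aCom
theorem aFit : S_Fit.{u} := vFit
theorem aLay : S_Lay.{u} := vLay
theorem aIsol : S_Isol.{u} := vIsol aLay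
theorem aLU : S_LU.{u} := vLU
theorem aNil : S_Nil.{u} := vNil aSchur aLU
theorem aStar : S_Star.{u} := vStar aISup aCom aCore aLFlaw aFit aIsol aNil
theorem aSimp : S_Simp.{u} := vSimp
theorem aAb : S_Ab.{u} := vAb aBig aCom aStar aSimp
theorem aMain : S_Main.{u} := vMain aExt aQuot aRad aLFlaw aQZ aRF aAb

end Pool.Agent.MPcc2398
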