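import Pool.Agent.Lib.MP_cc2398_al.Spec2

/-!
# MP_cc2398_al, second part: exhausting chains
-/

set_option autoImplicit false

namespace Pool.Agent.MPcc2398

universe u v

namespace Chain

theorem key {G : Type u} [Group G] {H X : Subgroup G} (hrel : H.relIndex X ≠ 0)
    {L : ℕ → Subgroup G} (hmono : Monotone L) (hH : ∀ n, H ≤ L n) (hX : ∀ x ∈ X, ∃ n, x ∈ L n) :
    ∃ n, X ≤ L n := by
  have : Finite (X ⧸ H.subgroupOf X) := by
    rw [← not_infinite_iff_finite]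
    intro hinf
    apply hrel
    rw [Subgroup.relIndex, Subgroup.index_eq_zero_iff_infinite]
    exact hinf
  choose n hn using fun q : X ⧸ H.subgroupOf X => hX (Quotient.out q : X) (Quotient.out q : X).2
  obtain ⟨N, hN⟩ := (Set.finite_range n).bddAbove
  refine ⟨N, fun x hx => ?_⟩
  let q : X ⧸ H.subgroupOf X := QuotientGroup.mk (⟨x, hx⟩ : X)
  have h1 : (QuotientGroup.mk (Quotient.out q) : X ⧸ H.subgroupOf X) =
      QuotientGroup.mk (⟨x, hx⟩ : X) := QuotientGroup.out_eq' q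
  rw [QuotientGroup.eq, Subgroup.mem_subgroupOf] at h1
  have h2 : ((Quotient.out q : X) : G) ∈ L N := hmono (hN ⟨q, rfl⟩) (hn q)
  have h3 := (L N).mul_mem h2 (hH N h1)
  simpa using h3

end Chain

open Chain in
theorem vChain : S_Chain.{u} := by
  intro G _ H hTB K₀ hK₀ P hP
  have hHtop : H ≠ ⊤ := by
    rintro rfl
    have := hTB.idx
    simp at this
  have hstart : ∃ L : Subgroup G, L ≠ ⊤ ∧ H ≤ L ∧ K₀ ≤ L ∧ P L := by
    obtain ⟨L, h1, h2, h3⟩ := hP (K₀ ⊔ H) (hTB.join K₀ H hK₀ hHtop)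
    exact ⟨L, h2, le_sup_right.trans h1, le_sup_left.trans h1, h3⟩
  have hstep : ∀ L : {L : Subgroup G // L ≠ ⊤ ∧ H ≤ L ∧ K₀ ≤ L ∧ P L},
      ∃ L' : {L : Subgroup G // L ≠ ⊤ ∧ H ≤ L ∧ K₀ ≤ L ∧ P L},
        L.1 ≤ L'.1 ∧ ¬ L'.1 ≤ L.1 := by
    rintro ⟨L, hL1, hL2, hL3, hL4⟩
    obtain ⟨y, hy⟩ : ∃ y, y ∉ L := by
      by_contra hcon
      push Not at hcon
      exact hL1 (eq_top_iff.2 fun g _ => hcon g)
    obtain ⟨L', h1, h2, h3⟩ := hP (L ⊔ Subgroup.zpowers y)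
      (hTB.join L (Subgroup.zpowers y) hL1 (hTB.cyc y))
    have h4 : L ≤ L' := le_sup_left.trans h1
    refine ⟨⟨L', h2, hL2.trans h4, hL3.trans h4, h3⟩, h4, fun h5 => hy (h5 (h1 ?_))⟩
    exact (le_sup_right : Subgroup.zpowers y ≤ L ⊔ Subgroup.zpowers y)
      (Subgroup.mem_zpowers y)
  choose nx hnx1 hnx2 using hstep
  obtain ⟨L₀, hL₀⟩ := hstart
  let S : ℕ → {L : Subgroup G // L ≠ ⊤ ∧ H ≤ L ∧ K₀ ≤ L ∧ P L} := fun n =>
    Nat.rec ⟨L₀, hL₀⟩ (fun _ L => nx L) n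
  have hS : ∀ n, S (n + 1) = nx (S n) := fun n => rfl
  let L : ℕ → Subgroup G := fun n => (S n).1
  have hmono : Monotone L := by
    apply monotone_nat_of_le_succ
    intro n
    change (S n).1 ≤ (S (n + 1)).1
    rw [hS]
    exact hnx1 _
  have hnot : ∀ n, ¬ L (n + 1) ≤ L n := by
    intro n
    change ¬ (S (n + 1)).1 ≤ (S n).1
    rw [hS]
    exact hnx2 _
  have hprop : ∀ n, L n ≠ ⊤ ∧ H ≤ L n ∧ K₀ ≤ L n ∧ P (L n) := fun n => (S n).2
  have hH : ∀ n, H ≤ L n := fun n => (hprop n).2.1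
  have hdir : Directed (· ≤ ·) L := hmono.directed_le
  have hV : (⨆ n, L n) = ⊤ := by
    by_contra hV
    obtain ⟨n, hn⟩ := key (hTB.rel _ hV) hmono hH
      (fun x hx => (Subgroup.mem_iSup_of_directed hdir).1 hx)
    exact hnot n ((le_iSup L (n + 1)).trans hn)
  have hmem : ∀ g : G, ∃ n, g ∈ L n := by
    intro g
    have h1 : g ∈ (⨆ n, L n) := by rw [hV]; exact Subgroup.mem_top g
    exact (Subgroup.mem_iSup_of_directed hdir).1 h1
  refine ⟨L, ⟨hmono, hmem, ?_⟩, hprop⟩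
  intro X hX
  obtain ⟨n, hn⟩ := key (hTB.rel _ (hTB.join X H hX hHtop)) hmono hH (fun x _ => hmem x)
  exact ⟨n, le_sup_left.trans hn⟩

end Pool.Agent.MPcc2398
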