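import Pool.Agent.Lib.MP_cc2398_al.Spec2

set_option autoImplicit false

namespace Pool.Agent.MPcc2398

universe u v

open Filter Topology

namespace ClaimA

theorem dn_eq (O : Type v) [Fintype O] (p : O → Prop) :
    dn O p = (({ε : O | p ε} : Set O).ncard : ℝ) / (Nat.card O : ℝ) := rfl

theorem dn_nonneg (O : Type v) [Fintype O] (p : O → Prop) : 0 ≤ dn O p :=
  div_nonneg (Nat.cast_nonneg _) (Nat.cast_nonneg _)

theorem dn_le_one (O : Type v) [Fintype O] (p : O → Prop) : dn O p ≤ 1 := by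
  rw [dn_eq]
  apply div_le_one_of_le₀ _ (Nat.cast_nonneg _)
  exact_mod_cast Set.ncard_le_card _

theorem dn_mono (O : Type v) [Fintype O] {p p' : O → Prop} (h : ∀ ε, p ε → p' ε) :
    dn O p ≤ dn O p' := by
  rw [dn_eq, dn_eq]
  apply div_le_div_of_nonneg_right _ (Nat.cast_nonneg _)
  exact_mod_cast Set.ncard_le_ncard (fun ε (hε : p ε) => h ε hε) (Set.toFinite _)

theorem dn_or (O : Type v) [Fintype O] (p p' : O → Prop) :
    dn O (fun ε => p ε ∨ p' ε) ≤ dn O p + dn O p' := by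
  rw [dn_eq, dn_eq, dn_eq, ← add_div]
  apply div_le_div_of_nonneg_right _ (Nat.cast_nonneg _)
  exact_mod_cast Set.ncard_union_le {ε : O | p ε} {ε : O | p' ε}

theorem dn_ex (O : Type v) [Fintype O] (K : ℕ) (p : ℕ → O → Prop) :
    dn O (fun ε => ∃ k < K, p k ε) ≤ ∑ k ∈ Finset.range K, dn O (p k) := by
  induction K with
  | zero =>
    rw [Finset.range_zero, Finset.sum_empty]
    have h : dn O (fun ε => ∃ k < 0, p k ε) = 0 := by
      have h1 : {ε : O | ∃ k < 0, p k ε} = ∅ := by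
        rw [Set.eq_empty_iff_forall_notMem]
        rintro ε ⟨k, hk, -⟩
        exact absurd hk (Nat.not_lt_zero k)
      rw [dn_eq, h1]
      simp
    exact h.le
  | succ K ih =>
    rw [Finset.sum_range_succ]
    refine le_trans ?_ (add_le_add ih le_rfl)
    refine le_trans ?_ (dn_or O _ _)
    apply dn_mono
    rintro ε ⟨k, hk, hp⟩
    rcases Nat.lt_succ_iff_lt_or_eq.mp hk with h | h
    · exact Or.inl ⟨k, h, hp⟩
    · subst h
      exact Or.inr hp

theorem dn_sdiff (O : Type v) [Fintype O] {p p' : O → Prop} (h : ∀ ε, p ε → p' ε) :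
    dn O (fun ε => p' ε ∧ ¬ p ε) = dn O p' - dn O p := by
  rw [dn_eq, dn_eq, dn_eq, ← sub_div]
  congr 1
  have h1 : ({ε : O | p' ε ∧ ¬ p ε} : Set O).ncard + ({ε : O | p ε} : Set O).ncard =
      ({ε : O | p' ε} : Set O).ncard :=
    Set.ncard_sdiff_add_ncard_of_subset (s := {ε : O | p ε}) (t := {ε : O | p' ε})
      (fun ε hε => h ε hε) (Set.toFinite _)
  rw [← h1]
  push_cast
  ring

theorem dn_pos (O : Type v) [Fintype O] {p : O → Prop} (h : 0 < dn O p) : ∃ ε, p ε := by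
  by_contra hcon
  push Not at hcon
  have h1 : dn O p = 0 := by
    have : {ε : O | p ε} = ∅ := by
      rw [Set.eq_empty_iff_forall_notMem]
      exact hcon
    rw [dn_eq, this]
    simp
  rw [h1] at h
  exact lt_irrefl _ h

theorem geo (q : ℝ) (K : ℕ) :
    ∑ k ∈ Finset.range K, q / 2 ^ (k + 2) = q / 2 - q / 2 ^ (K + 1) := by
  induction K with
  | zero => simp
  | succ K ih =>
    rw [Finset.sum_range_succ, ih]
    have h2 : (2 : ℝ) ^ (K + 1) ≠ 0 := by positivity
    field_simp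
    ring

end ClaimA

open ClaimA

theorem vClaimA (hLim : S_Lim) (hCpt : S_Cpt.{u}) : S_ClaimA.{u, v} := by
  classical
  intro G _ L hL O _ Z hne 𝒰 F hF δ hδ
  by_contra hcon
  push Not at hcon
  -- proportions and limits
  let pr : ℕ → Finset G → ℕ → ℝ := fun k W n =>
    dn (O n) (fun ε => ∃ w ∈ W, w ∈ Z n ε ∧ w ∉ L k)
  have hpr : ∀ k W n, 0 ≤ pr k W n ∧ pr k W n ≤ 1 := fun k W n =>
    ⟨dn_nonneg _ _, dn_le_one _ _⟩
  choose e he0 he1 het using fun (k : ℕ) (W : Finset G) => hLim 𝒰 (pr k W) (hpr k W)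
  have heW : ∀ k W W', W ⊆ W' → e k W ≤ e k W' := by
    intro k W W' h
    refine le_of_tendsto_of_tendsto' (het k W) (het k W') fun n => ?_
    apply dn_mono
    rintro ε ⟨w, hw, h1⟩
    exact ⟨w, h hw, h1⟩
  let q : ℕ → ℝ := fun k => ⨆ W, e k W
  have hbdd : ∀ k, BddAbove (Set.range (e k)) := by
    intro k
    refine ⟨1, ?_⟩
    rintro _ ⟨W, rfl⟩
    exact he1 k W
  have heq : ∀ k W, e k W ≤ q k := fun k W => le_ciSup (hbdd k) W
  have hδq : ∀ k, δ ≤ q k := by
    intro k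
    obtain ⟨w, hw, hfreq⟩ := hcon k
    have h1 : ∀ᶠ n in (𝒰 : Filter ℕ), δ ≤ pr k {w} n := by
      have h2 : ∀ᶠ n in (𝒰 : Filter ℕ), ¬ dn (O n) (fun ε => w ∈ Z n ε) < δ := by
        rw [Ultrafilter.eventually_not]
        intro h4
        obtain ⟨n, hn1, hn2⟩ := (hfreq.and h4).exists
        exact absurd hn2 (not_lt.mpr hn1)
      filter_upwards [h2] with n hn
      refine (not_lt.mp hn).trans ?_
      apply dn_mono
      intro ε h3
      exact ⟨w, Finset.mem_singleton_self w, h3, hw⟩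
    exact (ge_of_tendsto (het k {w}) h1).trans (heq k {w})
  have hqb : BddBelow (Set.range q) := by
    refine ⟨0, ?_⟩
    rintro _ ⟨k, rfl⟩
    exact hδ.le.trans (hδq k)
  let Q : ℝ := ⨅ k, q k
  have hQ : 0 < Q := lt_of_lt_of_le hδ (le_ciInf hδq)
  have hQq : ∀ k, Q ≤ q k := fun k => ciInf_le hqb k
  -- the finite sets
  have hW₀ : ∀ k, ∃ W, q k - Q / 2 ^ (k + 2) < e k W := by
    intro k
    have h1 : q k - Q / 2 ^ (k + 2) < ⨆ W, e k W := by
      have : 0 < Q / 2 ^ (k + 2) := by positivity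
      show q k - Q / 2 ^ (k + 2) < q k
      linarith
    exact exists_lt_of_lt_ciSup h1
  choose W₀ hW₀ using hW₀
  let W : ℕ → Finset G := fun k => (Finset.range (k + 1)).biUnion W₀
  have hWm : ∀ k K, k ≤ K → W k ⊆ W K := by
    intro k K h
    apply Finset.biUnion_subset_biUnion_of_subset_left
    intro x hx
    rw [Finset.mem_range] at hx ⊢
    omega
  have hWe : ∀ k, q k - Q / 2 ^ (k + 2) < e k (W k) := by
    intro k
    refine lt_of_lt_of_le (hW₀ k) (heW k _ _ ?_)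
    exact Finset.subset_biUnion_of_mem W₀ (Finset.mem_range.mpr (Nat.lt_succ_self k))
  -- the key estimate
  have hkey : ∀ K, ∀ᶠ n in (𝒰 : Filter ℕ),
      ∃ ε : O n, ∀ k ≤ K, ∃ w ∈ W k, w ∈ Z n ε ∧ w ∉ L k := by
    intro K
    have h1 : Tendsto (fun n => pr K (W K) n - ∑ k ∈ Finset.range K,
        (pr k (W K) n - pr k (W k) n)) (𝒰 : Filter ℕ)
        (𝓝 (e K (W K) - ∑ k ∈ Finset.range K, (e k (W K) - e k (W k)))) := by
      refine (het K (W K)).sub ?_
      apply tendsto_finsetSum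
      intro k _
      exact (het k (W K)).sub (het k (W k))
    have h2 : 0 < e K (W K) - ∑ k ∈ Finset.range K, (e k (W K) - e k (W k)) := by
      have h3 : ∑ k ∈ Finset.range K, (e k (W K) - e k (W k)) ≤
          ∑ k ∈ Finset.range K, Q / 2 ^ (k + 2) := by
        apply Finset.sum_le_sum
        intro k _
        have := hWe k
        have := heq k (W K)
        linarith
      rw [geo] at h3
      have h4 := hWe K
      have h5 := hQq K
      have h6 : 0 < Q / 2 ^ (K + 1) := by positivity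
      have h7 : Q / 2 ^ (K + 2) ≤ Q / 4 := by
        apply div_le_div_of_nonneg_left hQ.le (by norm_num)
        have : (1 : ℝ) ≤ 2 ^ K := one_le_pow₀ (by norm_num)
        rw [pow_add]
        linarith
      linarith
    have h3 := h1.eventually (lt_mem_nhds h2)
    filter_upwards [h3] with n hn
    apply dn_pos (O n)
    have h4 : pr K (W K) n ≤ dn (O n) (fun ε => ∀ k ≤ K, ∃ w ∈ W k, w ∈ Z n ε ∧ w ∉ L k) +
        ∑ k ∈ Finset.range K, (pr k (W K) n - pr k (W k) n) := by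
      have h5 : ∀ k ∈ Finset.range K, pr k (W K) n - pr k (W k) n =
          dn (O n) (fun ε => (∃ w ∈ W K, w ∈ Z n ε ∧ w ∉ L k) ∧
            ¬ ∃ w ∈ W k, w ∈ Z n ε ∧ w ∉ L k) := by
        intro k hk
        rw [Finset.mem_range] at hk
        refine (dn_sdiff (O n) ?_).symm
        rintro ε ⟨w, hw, h6⟩
        exact ⟨w, hWm k K hk.le hw, h6⟩
      rw [Finset.sum_congr rfl h5]
      refine le_trans ?_ (add_le_add le_rfl (dn_ex (O n) K _))
      refine le_trans ?_ (dn_or (O n) _ _)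
      apply dn_mono
      rintro ε ⟨w, hw, hwZ, hwL⟩
      by_cases h6 : ∀ k ≤ K, ∃ w ∈ W k, w ∈ Z n ε ∧ w ∉ L k
      · exact Or.inl h6
      · right
        push Not at h6
        obtain ⟨k, hk, h7⟩ := h6
        rcases Nat.lt_or_eq_of_le hk with h8 | h8
        · refine ⟨k, h8, ⟨w, hw, hwZ, fun h9 => hwL (hL.mono hk h9)⟩, ?_⟩
          rintro ⟨w', hw', hwZ', hwL'⟩
          exact hwL' (h7 w' hw' hwZ')
        · subst h8
          exact absurd (h7 w hw hwZ) hwL
    linarith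
  have hX : ∀ K, ∃ X : Subgroup G, (∀ k ≤ K, ∃ w ∈ W k, w ∈ X ∧ w ∉ L k) ∧ ∃ f ∈ F, f ∉ X := by
    intro K
    obtain ⟨n, ⟨ε, hε⟩, hn⟩ := ((hkey K).and hF).exists
    exact ⟨Z n ε, hε, hn ε⟩
  choose X hX1 hX2 using hX
  exact hCpt G L hL F W X hX1 hX2

end Pool.Agent.MPcc2398
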