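import Pool.Agent.Lib.MP_cc2398_al.Spec2

/-!
# MP_cc2398_al, module Cpt: limits of subgroups
-/

set_option autoImplicit false

namespace Pool.Agent.MPcc2398

universe u v

open Filter Topology

/-- the limit of a sequence of subgroups along an ultrafilter -/
private def cptLim {G : Type u} [Group G] (𝒱 : Ultrafilter ℕ) (X' : ℕ → Subgroup G) :
    Subgroup G where
  carrier := {x | ∀ᶠ K in (𝒱 : Filter ℕ), x ∈ X' K}
  mul_mem' := by
    intro a b ha hb
    filter_upwards [ha, hb] with K h1 h2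
    exact (X' K).mul_mem h1 h2
  one_mem' := Eventually.of_forall fun K => (X' K).one_mem
  inv_mem' := by
    intro a ha
    filter_upwards [ha] with K h1
    exact (X' K).inv_mem h1

private theorem cpt_exists {α : Type u} (𝒱 : Ultrafilter ℕ) (W : Finset α) (P : ℕ → α → Prop)
    (h : ∀ᶠ K in (𝒱 : Filter ℕ), ∃ w ∈ W, P K w) :
    ∃ w ∈ W, ∀ᶠ K in (𝒱 : Filter ℕ), P K w := by
  have h1 : (⋃ w ∈ (W : Set α), {K | P K w}) ∈ 𝒱 := by
    refine Filter.mem_of_superset h ?_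
    rintro K ⟨w, hw, hP⟩
    exact Set.mem_biUnion hw hP
  rw [Ultrafilter.finite_biUnion_mem_iff W.finite_toSet] at h1
  obtain ⟨w, hw, h2⟩ := h1
  exact ⟨w, hw, h2⟩

theorem vCpt : S_Cpt.{u} := by
  intro G _ L hL F W X' h1 h2
  have hX : cptLim (hyperfilter ℕ) X' = ⊤ := by
    by_contra hne
    obtain ⟨k, hk⟩ := hL.bdd _ hne
    have h3 : ∀ᶠ K in ((hyperfilter ℕ : Ultrafilter ℕ) : Filter ℕ),
        ∃ w ∈ W k, w ∈ X' K ∧ w ∉ L k := by
      have h4 : ∀ᶠ K in (atTop : Filter ℕ), ∃ w ∈ W k, w ∈ X' K ∧ w ∉ L k := by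
        filter_upwards [eventually_ge_atTop k] with K hK
        exact h1 K k hK
      exact h4.filter_mono (by
        rw [← Nat.cofinite_eq_atTop]
        exact hyperfilter_le_cofinite)
    obtain ⟨w, _, h5⟩ := cpt_exists _ _ _ h3
    have h6 : w ∈ cptLim (hyperfilter ℕ) X' := h5.mono fun K h => h.1
    obtain ⟨K, h7⟩ := h5.exists
    exact h7.2 (hk h6)
  obtain ⟨f, _, hf⟩ := cpt_exists (hyperfilter ℕ) F (fun K f => f ∉ X' K)
    (Eventually.of_forall h2)
  have h8 : f ∈ cptLim (hyperfilter ℕ) X' := by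
    rw [hX]
    exact Subgroup.mem_top f
  have h9 : ∀ᶠ K in ((hyperfilter ℕ : Ultrafilter ℕ) : Filter ℕ), f ∈ X' K := h8
  obtain ⟨K, h10, h11⟩ := (h9.and hf).exists
  exact h11 h10

end Pool.Agent.MPcc2398
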