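import Pool.Agent.Lib.MP_cc2398_al.Spec2

set_option autoImplicit false

namespace Pool.Agent.MPcc2398

universe u v

theorem vDec : S_Dec.{u} := by
  intro G _ D hD 𝒩 hfin
  induction 𝒩, hfin using Set.Finite.induction_on with
  | empty =>
    intro _
    exact ⟨D, hD, le_refl D, inv_self D, fun P hP => absurd hP (Set.notMem_empty P)⟩
  | @insert Q 𝒩 _ _ ih =>
    intro h
    obtain ⟨E, hE, hED, hEI, hEP⟩ := ih fun P hP => h P (Set.mem_insert_of_mem Q hP)
    obtain ⟨hQD, hQI⟩ := h Q (Set.mem_insert Q 𝒩)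
    by_cases hEQ : E ⊓ Q = ⊥
    · refine ⟨E, hE, hED, hEI, ?_⟩
      intro P hP
      rcases Set.mem_insert_iff.mp hP with rfl | hP
      · right
        intro e he p hp
        have h1 : e * p * e⁻¹ * p⁻¹ ∈ E ⊓ P := by
          refine ⟨?_, P.mul_mem (hQI e (hED he) p hp) (P.inv_mem hp)⟩
          have h2 := hEI p (hQD hp) e⁻¹ (E.inv_mem he)
          have h3 := E.mul_mem he h2
          have h4 : e * p * e⁻¹ * p⁻¹ = e * (p * e⁻¹ * p⁻¹) := by group
          rw [h4]
          exact h3
        rw [hEQ, Subgroup.mem_bot] at h1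
        have h2 : e * p = (e * p * e⁻¹ * p⁻¹) * (p * e) := by group
        rw [h2, h1, one_mul]
      · exact hEP P hP
    · refine ⟨E ⊓ Q, hEQ, inf_le_left.trans hED, hEI.inf hQI, ?_⟩
      intro P hP
      rcases Set.mem_insert_iff.mp hP with rfl | hP
      · exact Or.inl inf_le_right
      · rcases hEP P hP with h1 | h1
        · exact Or.inl (inf_le_left.trans h1)
        · exact Or.inr fun e he p hp => h1 e he.1 p hp

end Pool.Agent.MPcc2398
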