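import Pool.Agent.Lib.MP_cc2398_al.Spec2

/-!
# MP_cc2398_al, second part: fixed points in finite blocks
-/

set_option autoImplicit false

namespace Pool.Agent.MPcc2398

universe u v

open Filter Topology Pointwise

namespace Fix

variable {G : Type u} [Group G] {Ω : Type v} [MulAction G Ω]

/-- a proper subgroup is contained in the stabilizer of a large finite block -/
theorem le_stab {K : Subgroup G} {ω : Ω} {B : Set Ω} (hB : MulAction.IsBlock G B)
    (hKB : MulAction.orbit K ω ⊆ B) : K ≤ MulAction.stabilizer G B := by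
  intro k hk
  have h1 : ω ∈ B := hKB (MulAction.mem_orbit_self ω)
  have h2 : k • ω ∈ B := hKB ⟨⟨k, hk⟩, rfl⟩
  exact hB.smul_eq_of_mem h1 h2

theorem stab_ne_top [Infinite Ω] (htr : MulAction.IsPretransitive G Ω) {ω : Ω} {B : Set Ω}
    (hω : ω ∈ B) (hfin : B.Finite) : MulAction.stabilizer G B ≠ ⊤ := by
  intro htop
  apply Set.infinite_univ (α := Ω)
  refine hfin.subset fun y _ => ?_
  obtain ⟨x, rfl⟩ := htr.exists_smul_eq ω y
  have hx : x ∈ MulAction.stabilizer G B := by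
    rw [htop]
    exact Subgroup.mem_top x
  have h1 : x • B = B := hx
  rw [← h1]
  exact Set.smul_mem_smul_set hω

/-- an element of the stabilizer of `B` permutes `B` -/
def permOf {B : Set Ω} {x : G} (hx : x • B = B) : Equiv.Perm B where
  toFun β := ⟨x • (β : Ω), hx.subset (Set.smul_mem_smul_set β.2)⟩
  invFun β := ⟨x⁻¹ • (β : Ω), Set.mem_smul_set_iff_inv_smul_mem.1 (hx.symm.subset β.2)⟩
  left_inv β := Subtype.ext (inv_smul_smul x (β : Ω))
  right_inv β := Subtype.ext (smul_inv_smul x (β : Ω))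

theorem not_all_conj {L : Subgroup G} (hL : L ≠ ⊤) {g : G}
    (hg : Subgroup.normalClosure {g} = (⊤ : Subgroup G)) (h : ∀ z : G, g ∈ cj z L) : False := by
  apply hL
  rw [← top_le_iff, ← hg]
  have h1 : Subgroup.normalClosure {g} ≤ L.normalCore := by
    apply Subgroup.normalClosure_le_normal
    rw [Set.singleton_subset_iff]
    intro b
    have h2 := mem_cj'.1 (h b⁻¹)
    rwa [inv_inv] at h2
  exact h1.trans (Subgroup.normalCore_le L)

theorem card_eq (B : Set Ω) (g : G) :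
    Nat.card {β : Ω // β ∈ B ∧ g • β = β} =
      Nat.card {ε : B // g ∈ MulAction.stabilizer G (ε : Ω)} := by
  refine Nat.card_congr ?_
  exact
    { toFun := fun β => ⟨⟨β.1, β.2.1⟩, β.2.2⟩
      invFun := fun ε => ⟨ε.1.1, ε.1.2, ε.2⟩
      left_inv := fun _ => rfl
      right_inv := fun _ => rfl }

end Fix

open Pool.Agent.MPcc2398.Fix in
theorem vFix (hAct : S_Act.{u, v}) (hChain : S_Chain.{u}) (hT1 : S_T1.{u, v}) :
    S_Fix.{u, v} := by
  intro G _ Ω _ hinf hfaith htr horb hblk s hs g hg δ hδ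
  by_contra hcon
  have hcon' : ∀ B₀ : Set Ω, B₀.Finite → ∃ B : Set Ω, B₀ ⊆ B ∧ B.Finite ∧
      MulAction.IsBlock G B ∧ δ * (Nat.card B : ℝ) <
        (Nat.card {β : Ω // β ∈ B ∧ g • β = β} : ℝ) := by
    intro B₀ hB₀
    by_contra h
    apply hcon
    refine ⟨B₀, hB₀, fun B hsub hfin hB => ?_⟩
    by_contra hlt
    exact h ⟨B, hsub, hfin, hB, not_le.1 hlt⟩
  obtain ⟨ω⟩ : Nonempty Ω := inferInstance
  obtain ⟨hTB, -⟩ := hAct G Ω hinf hfaith htr horb hblk ω
  have hbot : (⊥ : Subgroup G) ≠ ⊤ := by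
    have h1 := hTB.cyc 1
    rwa [Subgroup.zpowers_one_eq_bot] at h1
  obtain ⟨L, hL, hLP⟩ := hChain G (MulAction.stabilizer G ω) hTB ⊥ hbot
    (fun L => ∃ B : Set Ω, ω ∈ B ∧ B.Finite ∧ L = MulAction.stabilizer G B ∧
      δ * (Nat.card B : ℝ) < (Nat.card {β : Ω // β ∈ B ∧ g • β = β} : ℝ)) (by
    intro K hK
    obtain ⟨B, hsub, hfin, hB, hlt⟩ := hcon' (MulAction.orbit K ω) (horb K hK ω)
    have hωB : ω ∈ B := hsub (MulAction.mem_orbit_self ω)
    exact ⟨MulAction.stabilizer G B, le_stab hB hsub, stab_ne_top htr hωB hfin, B, hωB, hfin,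
      rfl, hlt⟩)
  choose B hB using fun n => (hLP n).2.2.2
  have : ∀ n, Fintype (B n) := fun n => (hB n).2.1.fintype
  have hEqv : Eqv L (fun n => ↥(B n)) (fun n β => MulAction.stabilizer G (β : Ω)) := by
    refine ⟨fun n => ⟨⟨ω, (hB n).1⟩⟩, fun n x hx => ?_⟩
    rw [(hB n).2.2.1] at hx
    refine ⟨permOf hx, fun β => ?_⟩
    exact MulAction.stabilizer_smul_eq_stabilizer_map_conj x (β : Ω)
  obtain ⟨k, hk⟩ := hT1 G L hL (fun n => ↥(B n)) (fun n β => MulAction.stabilizer G (β : Ω))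
    hEqv s g δ hδ (Frequently.of_forall fun n => by
      refine ⟨?_, fun β => ?_⟩
      · have h1 := (hB n).2.2.2
        rw [card_eq] at h1
        have : Nonempty (B n) := ⟨⟨ω, (hB n).1⟩⟩
        have h2 : (0 : ℝ) < (Nat.card (B n) : ℝ) := by exact_mod_cast Nat.card_pos
        rw [dn, le_div_iff₀ h2]
        exact h1.le
      · exact hs (β : Ω))
  exact not_all_conj (hLP k).1 hg hk

end Pool.Agent.MPcc2398
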