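import Pool.Agent.Lib.MP_cc2398_al.Spec2

set_option autoImplicit false

namespace Pool.Agent.MPcc2398

universe u v

open Filter Topology

theorem vLim : S_Lim := by
  intro 𝒰 f hf
  have h1 : (↑(𝒰.map f) : Filter ℝ) ≤ 𝓟 (Set.Icc (0:ℝ) 1) := by
    rw [le_principal_iff]
    show Set.Icc (0:ℝ) 1 ∈ Filter.map f (𝒰 : Filter ℕ)
    rw [mem_map]
    exact Filter.univ_mem' (fun n => hf n)
  obtain ⟨c, hc, hle⟩ := isCompact_Icc.ultrafilter_le_nhds (𝒰.map f) h1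
  exact ⟨c, hc.1, hc.2, hle⟩

end Pool.Agent.MPcc2398
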