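import Pool.Agent.Lib.MP_cc2398_al.Spec2

set_option autoImplicit false

namespace Pool.Agent.MPcc2398

universe u v

open Filter Topology

namespace Prime

theorem dn_eq (O : Type v) [Fintype O] (p : O → Prop) :
    dn O p = (({ε : O | p ε} : Set O).ncard : ℝ) / (Nat.card O : ℝ) := rfl

theorem dn_mono (O : Type v) [Fintype O] {p p' : O → Prop} (h : ∀ ε, p ε → p' ε) :
    dn O p ≤ dn O p' := by
  rw [dn_eq, dn_eq]
  apply div_le_div_of_nonneg_right _ (Nat.cast_nonneg _)
  exact_mod_cast Set.ncard_le_ncard (fun ε (hε : p ε) => h ε hε) (Set.toFinite _)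

theorem dn_or (O : Type v) [Fintype O] (p p' : O → Prop) :
    dn O (fun ε => p ε ∨ p' ε) ≤ dn O p + dn O p' := by
  rw [dn_eq, dn_eq, dn_eq, ← add_div]
  apply div_le_div_of_nonneg_right _ (Nat.cast_nonneg _)
  exact_mod_cast Set.ncard_union_le {ε : O | p ε} {ε : O | p' ε}

theorem dn_true (O : Type v) [Fintype O] [Nonempty O] (p : O → Prop) (h : ∀ ε, p ε) :
    dn O p = 1 := by
  have h1 : {ε : O | p ε} = Set.univ := Set.eq_univ_of_forall h
  rw [dn_eq, h1, Set.ncard_univ]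
  apply div_self
  have : Nat.card O ≠ 0 := Nat.card_ne_zero.mpr ⟨inferInstance, inferInstance⟩
  exact_mod_cast this

theorem centralizer_cj {G : Type u} [Group G] (x : G) (ε : Subgroup G) :
    Subgroup.centralizer ((cj x ε : Subgroup G) : Set G) =
      cj x (Subgroup.centralizer (ε : Set G)) := by
  ext y
  rw [mem_cj', Subgroup.mem_centralizer_iff, Subgroup.mem_centralizer_iff]
  constructor
  · intro h e he
    have h1 := h (x * e * x⁻¹) (conj_mem_cj he)
    have h2 : x⁻¹ * (x * e * x⁻¹ * y) * x = x⁻¹ * (y * (x * e * x⁻¹)) * x := by rw [h1]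
    simpa [mul_assoc] using h2
  · intro h e he
    have he' : x⁻¹ * e * x ∈ ε := mem_cj'.1 he
    have h1 := h _ he'
    have h2 : x * (x⁻¹ * e * x * (x⁻¹ * y * x)) * x⁻¹ =
        x * (x⁻¹ * y * x * (x⁻¹ * e * x)) * x⁻¹ := by rw [h1]
    simpa [mul_assoc] using h2

theorem cj_inv_cj {G : Type u} [Group G] (x : G) (ε : Subgroup G) : cj x⁻¹ (cj x ε) = ε := by
  rw [← cj_mul, inv_mul_cancel, cj_one]

theorem cj_cj_inv {G : Type u} [Group G] (x : G) (ε : Subgroup G) : cj x (cj x⁻¹ ε) = ε := by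
  rw [← cj_mul, mul_inv_cancel, cj_one]

end Prime

open Prime

theorem vPrime (hQZ : S_QZ.{u}) (hChain : S_Chain.{u}) (hT1 : S_T1.{u, u}) (hStep : S_Step.{u}) :
    S_Prime.{u} := by
  classical
  intro G _ H hSP hFG K N₁ N₂ hCo h1K h2K hi1 hi2 hcomm
  by_contra hcon
  push Not at hcon
  obtain ⟨a, ha, ha1⟩ := (Subgroup.bot_or_exists_ne_one N₁).resolve_left hcon.1
  obtain ⟨b, hb, hb1⟩ := (Subgroup.bot_or_exists_ne_one N₂).resolve_left hcon.2
  have hK : K ≠ ⊤ := by
    rintro rfl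
    exact hCo.2 (by rw [Subgroup.relIndex_top_right]; exact hSP.tb.idx)
  obtain ⟨L, hL, hLn⟩ := hChain G H hSP.tb K hK (fun _ => True)
    (fun K' hK' => ⟨K', le_rfl, hK', trivial⟩)
  choose 𝒪 hfin hne hbot hcj hdec using fun n => hStep G H hSP K N₁ N₂ (L n) hCo h1K hi1
    (fun c hc m hm => (hcomm m hm c hc).symm) (hLn n).2.2.1 (hLn n).1
  let O : ℕ → Type u := fun n => (𝒪 n : Type u)
  letI : ∀ n, Fintype (O n) := fun n => (hfin n).fintype
  have hON : ∀ n, Nonempty (O n) := fun n => (hne n).to_subtype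
  let Z : ∀ n, O n → Subgroup G := fun n ε => Subgroup.centralizer ((ε.1 : Subgroup G) : Set G)
  have hEqv : Eqv L O Z := by
    refine ⟨hON, fun n x hx => ?_⟩
    refine ⟨⟨fun ε => ⟨cj x ε.1, hcj n x hx ε.1 ε.2⟩,
      fun ε => ⟨cj x⁻¹ ε.1, hcj n x⁻¹ ((L n).inv_mem hx) ε.1 ε.2⟩, ?_, ?_⟩, ?_⟩
    · intro ε
      exact Subtype.ext (cj_inv_cj x ε.1)
    · intro ε
      exact Subtype.ext (cj_cj_inv x ε.1)
    · intro ε
      exact centralizer_cj x ε.1
  obtain ⟨F, hF⟩ := hFG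
  have hFZ : ∀ n, ∀ ε : O n, ∃ f ∈ F, f ∉ Z n ε := by
    intro n ε
    by_contra h
    push Not at h
    have h1 : H ≤ Z n ε := by
      rw [← hF, Subgroup.closure_le]
      exact fun f hf => h f hf
    have h2 : (ε.1 : Subgroup G) = ⊥ := by
      rw [Subgroup.eq_bot_iff_forall]
      intro e he
      apply hQZ G H hSP H e ⟨by simp, by simp⟩
      intro k hk
      exact (Subgroup.mem_centralizer_iff.mp (h1 hk)) e he
    exact hbot n (h2 ▸ ε.2)
  -- one element is impossible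
  have key : ∀ g : G, g ≠ 1 →
      ¬ ∃ᶠ n in atTop, (1 / 2 : ℝ) ≤ dn (O n) (fun ε => g ∈ Z n ε) := by
    intro g hg hfr
    obtain ⟨k, hk⟩ := hT1 G L hL O Z hEqv F g (1 / 2) (by norm_num)
      (hfr.mono fun n hn => ⟨hn, hFZ n⟩)
    have h1 : g ∈ (L k).normalCore := by
      intro y
      have h2 := hk y⁻¹
      rw [mem_cj', inv_inv] at h2
      exact h2
    rcases hSP.simple (L k).normalCore inferInstance with h2 | h2
    · rw [h2, Subgroup.mem_bot] at h1
      exact hg h1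
    · apply (hLn k).1
      rw [eq_top_iff, ← h2]
      exact Subgroup.normalCore_le _
  have hall : ∀ n, (1 / 2 : ℝ) ≤ dn (O n) (fun ε => a ∈ Z n ε) ∨
      (1 / 2 : ℝ) ≤ dn (O n) (fun ε => b ∈ Z n ε) := by
    intro n
    by_contra h
    push Not at h
    haveI := hON n
    have h1 : dn (O n) (fun ε => a ∈ Z n ε ∨ b ∈ Z n ε) = 1 := by
      apply dn_true
      intro ε
      rcases hdec n ε.1 ε.2 with h2 | h2
      · right
        rw [Subgroup.mem_centralizer_iff]
        intro e he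
        exact (h2 b hb e he).symm
      · left
        rw [Subgroup.mem_centralizer_iff]
        intro e he
        exact (h2 a ha e he).symm
    have h3 := dn_or (O n) (fun ε => a ∈ Z n ε) (fun ε => b ∈ Z n ε)
    rw [h1] at h3
    linarith [h.1, h.2]
  have hfr : ∃ᶠ n in atTop, (1 / 2 : ℝ) ≤ dn (O n) (fun ε => a ∈ Z n ε) ∨
      (1 / 2 : ℝ) ≤ dn (O n) (fun ε => b ∈ Z n ε) := Frequently.of_forall hall
  rw [frequently_or_distrib] at hfr
  rcases hfr with h | h
  · exact key a ha1 h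
  · exact key b hb1 h

end Pool.Agent.MPcc2398
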