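import Pool.Agent.Lib.MP_cc2398_al.Spec2

set_option autoImplicit false

namespace Pool.Agent.MPcc2398

universe u v

namespace PrimeR

theorem co_map {G G' : Type u} [Group G] [Group G'] (f : G →* G') {H K : Subgroup G} (h : Co H K) :
    Co (H.map f) (K.map f) := by
  constructor
  · rw [← Subgroup.relIndex_comap]
    intro h0
    exact h.1 (Subgroup.relIndex_eq_zero_of_le_left (Subgroup.le_comap_map f K) h0)
  · rw [← Subgroup.relIndex_comap]
    intro h0
    exact h.2 (Subgroup.relIndex_eq_zero_of_le_left (Subgroup.le_comap_map f H) h0)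

theorem relIndex_closure {G : Type u} [Group G] (R : Subgroup G) [R.Normal] (X : Subgroup G) :
    R.relIndex X = Nat.card (X.map (QuotientGroup.mk' R)) := by
  rw [← Subgroup.relIndex_ker, QuotientGroup.ker_mk']

theorem section_of_lf {G : Type u} [Group G] (R : Subgroup G) [R.Normal]
    (h : LF (⊤ : Subgroup (G ⧸ R))) (s : Finset G) : R.relIndex (Subgroup.closure (s : Set G)) ≠ 0 := by
  classical
  rw [relIndex_closure]
  have h1 := h (s.image (QuotientGroup.mk' R)) (by simp)
  have h2 : (Subgroup.closure (s : Set G)).map (QuotientGroup.mk' R) =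
      Subgroup.closure ((s.image (QuotientGroup.mk' R) : Finset (G ⧸ R)) : Set (G ⧸ R)) := by
    rw [MonoidHom.map_closure, Finset.coe_image]
  rw [h2]
  have h3 : Finite (Subgroup.closure ((s.image (QuotientGroup.mk' R) : Finset (G ⧸ R)) : Set (G ⧸ R))) :=
    h1.to_subtype
  exact Nat.card_pos.ne'

theorem inv_map {G G' : Type u} [Group G] [Group G'] (f : G →* G') {L M : Subgroup G} (h : Inv L M) :
    Inv (L.map f) (M.map f) := by
  rintro _ ⟨l, hl, rfl⟩ _ ⟨m, hm, rfl⟩
  exact ⟨_, h l hl m hm, by simp⟩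

end PrimeR

theorem vPrimeR (hExt : S_Ext.{u}) (hQuot : S_Quot.{u}) (hRad : S_Rad.{u}) (hPrime : S_Prime.{u}) :
    S_PrimeR.{u} := by
  intro G _ H hTB hcore hnlf hFG
  obtain ⟨R, hRn, hRt, hRLF, hRmax⟩ := hRad G H hTB hcore hnlf
  refine ⟨R, hRn, hRt, hRLF, hRmax, ?_⟩
  set π := QuotientGroup.mk' R with hπ
  have hker : ∀ g : G, π g = 1 ↔ g ∈ R := fun g => by
    rw [← MonoidHom.mem_ker, hπ, QuotientGroup.ker_mk']
  have hsurj : Function.Surjective π := QuotientGroup.mk'_surjective R
  have hbot : ∀ N : Subgroup G, N.map π = ⊥ → N ≤ R := by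
    intro N hN g hg
    rw [← hker]
    have : π g ∈ N.map π := ⟨g, hg, rfl⟩
    rw [hN, Subgroup.mem_bot] at this
    exact this
  have hSP : SP (H.map π) := by
    refine ⟨hQuot G H R hTB hRt, ?_, ?_⟩
    · intro N' hN'
      have hn : (N'.comap π).Normal := hN'.comap π
      have hNN : (N'.comap π).map π = N' := Subgroup.map_comap_eq_self_of_surjective hsurj N'
      by_cases ht : N'.comap π = ⊤
      · right
        rw [← hNN, ht, Subgroup.map_top_of_surjective π hsurj]
      · left
        have hle := hRmax _ hn ht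
        rw [eq_bot_iff, ← hNN]
        rintro _ ⟨g, hg, rfl⟩
        rw [Subgroup.mem_bot]
        exact (hker g).2 (hle hg)
    · intro hLF
      exact hnlf (hExt G R ⊤ hRLF (fun s _ => PrimeR.section_of_lf R hLF s))
  have hFG1 : (H.map π).FG := by
    classical
    obtain ⟨S, hS⟩ := hFG
    refine ⟨S.image π, ?_⟩
    rw [Finset.coe_image, ← MonoidHom.map_closure, hS]
  intro K N₁ N₂ hK hN₁ hN₂ hI₁ hI₂ hcomm
  rcases hPrime (G ⧸ R) (H.map π) hSP hFG1 (K.map π) (N₁.map π) (N₂.map π) (PrimeR.co_map π hK)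
    (Subgroup.map_mono hN₁) (Subgroup.map_mono hN₂) (PrimeR.inv_map π hI₁) (PrimeR.inv_map π hI₂) (by
      rintro _ ⟨a, ha, rfl⟩ _ ⟨b, hb, rfl⟩
      have h1 := (hker _).2 (hcomm a ha b hb)
      simp only [map_mul, map_inv] at h1
      have h2 : π a * π b * (π a)⁻¹ = π b := mul_inv_eq_one.1 h1
      exact mul_inv_eq_iff_eq_mul.1 h2) with h | h
  · exact Or.inl (hbot N₁ h)
  · exact Or.inr (hbot N₂ h)

end Pool.Agent.MPcc2398
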