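import Pool.Agent.Lib.MP_cc2398_al.Spec2

set_option autoImplicit false

namespace Pool.Agent.MPcc2398

universe u v

namespace Step

theorem fin_range {G : Type u} [Group G] (X L : Subgroup G) (hi : X.relIndex L ≠ 0) {α : Type u} (f : G → α)
    (hf : ∀ x ∈ L, ∀ k ∈ X, f (x * k) = f x) : (Set.range fun x : L => f (x : G)).Finite := by
  have hfin : Finite (L ⧸ X.subgroupOf L) := Nat.finite_of_card_ne_zero hi
  refine (Set.finite_range (fun q : L ⧸ X.subgroupOf L => f ((q.out : L) : G))).subset ?_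
  rintro _ ⟨x, rfl⟩
  refine ⟨(QuotientGroup.mk x : L ⧸ X.subgroupOf L), ?_⟩
  obtain ⟨k, hk⟩ := QuotientGroup.mk_out_eq_mul (X.subgroupOf L) x
  show f (((QuotientGroup.mk x : L ⧸ X.subgroupOf L).out : L) : G) = f x
  rw [hk]
  exact hf x x.2 _ (Subgroup.mem_subgroupOf.1 k.2)

end Step

theorem vStep (hCom : S_Com.{u}) (hQZ : S_QZ.{u}) (hAb : S_Ab.{u}) (hDec : S_Dec.{u}) : S_Step.{u} := by
  intro G _ H hSP K N C L hK hNK hKN hCN hKL hL
  have hTB := hSP.tb
  obtain ⟨c1, c2, c3, c4, c5, c6, c7⟩ := hCom G H hTB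
  obtain ⟨D, hDK, hD, hLD⟩ := c6 K L hK hKL hL
  have hDbot : D ≠ ⊥ := by
    intro h
    have h1 : ∀ g : G, g = 1 := by
      intro g
      refine hQZ G H hSP D g hD ?_
      intro k hk
      rw [h, Subgroup.mem_bot] at hk
      rw [hk]; simp
    have : Subsingleton G := ⟨fun a b => by rw [h1 a, h1 b]⟩
    have h0 := hTB.idx
    have h2 : H = ⊤ := Subsingleton.elim _ _
    rw [h2, Subgroup.index_top] at h0
    exact one_ne_zero h0
  have hDL : D ≤ L := hDK.trans hKL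
  have hDfin : D.relIndex L ≠ 0 := c3 D L hD hL
  have hKfin : K.relIndex L ≠ 0 := c3 K L hK hL
  have hDx : ∀ x ∈ L, D ≤ cj x K := by
    intro x hx
    rw [← cj_eq_of_inv hLD hx]
    exact cj_mono x hDK
  -- the finite family
  have hNfin : (Set.range fun x : L => cj (x : G) N ⊓ D).Finite := by
    refine Step.fin_range K L hKfin (fun x => cj x N ⊓ D) ?_
    intro x _ k hk
    show cj (x * k) N ⊓ D = cj x N ⊓ D
    rw [cj_mul, cj_eq_of_inv hKN hk]
  obtain ⟨E, hE1, hED, hDE, hE⟩ := hDec G D hDbot _ hNfin (by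
    rintro _ ⟨x, rfl⟩
    exact ⟨inf_le_right, ((hKN.cj (x : G)).mono (hDx x x.2)).inf (inv_self D)⟩)
  refine ⟨Set.range fun x : L => cj (x : G) E, ?_, ⟨_, ⟨1, rfl⟩⟩, ?_, ?_, ?_⟩
  · refine Step.fin_range D L hDfin (fun x => cj x E) ?_
    intro x _ k hk
    show cj (x * k) E = cj x E
    rw [cj_mul, cj_eq_of_inv hDE hk]
  · rintro ⟨x, hx⟩
    apply hE1
    have h1 : cj ((x : G)⁻¹) (cj (x : G) E) = E := by rw [← cj_mul, inv_mul_cancel, cj_one]
    rw [← h1]
    have hx' : cj (x : G) E = ⊥ := hx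
    rw [hx', cj_bot]
  · rintro x hx _ ⟨y, rfl⟩
    exact ⟨⟨x * y, L.mul_mem hx y.2⟩, cj_mul x y E⟩
  · rintro _ ⟨y, rfl⟩
    have hyinv : (y : G)⁻¹ ∈ L := L.inv_mem y.2
    -- `cj y (cj y⁻¹ N ⊓ D) = N ⊓ D`
    have hcy : cj (y : G) (cj ((y : G)⁻¹) N ⊓ D) = N ⊓ D := by
      rw [cj_inf, ← cj_mul, mul_inv_cancel, cj_one, cj_eq_of_inv hLD y.2]
    have hεD : cj (y : G) E ≤ D := by
      have := cj_mono (y : G) hED
      rwa [cj_eq_of_inv hLD y.2] at this
    rcases hE (cj ((y : G)⁻¹) N ⊓ D) ⟨⟨_, hyinv⟩, rfl⟩ with h | h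
    · left
      have h1 : cj (y : G) E ≤ N ⊓ D := by
        rw [← hcy]; exact cj_mono _ h
      intro c hc e he
      exact hCN c hc e (h1 he).1
    · right
      -- `ε` commutes with `N ⊓ D`
      have hcomm : ∀ e ∈ cj (y : G) E, ∀ p ∈ N ⊓ D, e * p = p * e := by
        intro e he p hp
        rw [← hcy] at hp
        rw [mem_cj'] at he hp
        have h2 := h _ he _ hp
        calc e * p = y * (((y : G)⁻¹ * e * y) * ((y : G)⁻¹ * p * y)) * (y : G)⁻¹ := by group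
          _ = y * (((y : G)⁻¹ * p * y) * ((y : G)⁻¹ * e * y)) * (y : G)⁻¹ := by rw [h2]
          _ = p * e := by group
      -- the centre of `N ⊓ D` is trivial
      have hZ : (N ⊓ D) ⊓ Subgroup.centralizer ((N ⊓ D : Subgroup G) : Set G) = ⊥ := by
        have hinvND : Inv D (N ⊓ D) := (hKN.mono hDK).inf (inv_self D)
        refine hAb G H hSP D _ hD (inf_le_left.trans inf_le_right) ?_ ?_
        · refine hinvND.inf ?_
          intro d hd c hc
          rw [Subgroup.mem_centralizer_iff] at hc ⊢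
          intro p hp
          have hp' : d⁻¹ * p * d⁻¹⁻¹ ∈ N ⊓ D := hinvND d⁻¹ (D.inv_mem hd) p hp
          have h3 := hc _ hp'
          calc p * (d * c * d⁻¹) = d * ((d⁻¹ * p * d⁻¹⁻¹) * c) * d⁻¹ := by group
            _ = d * (c * (d⁻¹ * p * d⁻¹⁻¹)) * d⁻¹ := by rw [h3]
            _ = d * c * d⁻¹ * p := by group
        · intro a ha b hb
          exact (Subgroup.mem_centralizer_iff.1 hb.2 a ha.1)
      intro n hn e he
      have hnK : n ∈ K := hNK hn
      have hnL : n ∈ L := hKL hnK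
      have heD : e ∈ D := hεD he
      have ht1 : n * e * n⁻¹ * e⁻¹ ∈ N := by
        have h4 : e * n⁻¹ * e⁻¹ ∈ N := hKN e (hDK heD) n⁻¹ (N.inv_mem hn)
        have : n * e * n⁻¹ * e⁻¹ = n * (e * n⁻¹ * e⁻¹) := by group
        rw [this]; exact N.mul_mem hn h4
      have hneD : n * e * n⁻¹ ∈ D := hLD n hnL e heD
      have ht2 : n * e * n⁻¹ * e⁻¹ ∈ D := D.mul_mem hneD (D.inv_mem heD)
      have ht3 : n * e * n⁻¹ * e⁻¹ ∈ Subgroup.centralizer ((N ⊓ D : Subgroup G) : Set G) := by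
        refine Subgroup.mul_mem _ ?_ (Subgroup.inv_mem _ ?_)
        · rw [Subgroup.mem_centralizer_iff]
          intro p hp
          have hp' : n⁻¹ * p * n⁻¹⁻¹ ∈ N ⊓ D :=
            ⟨hKN n⁻¹ (K.inv_mem hnK) p hp.1, hLD n⁻¹ (L.inv_mem hnL) p hp.2⟩
          have h5 := hcomm e he _ hp'
          calc p * (n * e * n⁻¹) = n * ((n⁻¹ * p * n⁻¹⁻¹) * e) * n⁻¹ := by group
            _ = n * (e * (n⁻¹ * p * n⁻¹⁻¹)) * n⁻¹ := by rw [h5]
            _ = n * e * n⁻¹ * p := by group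
        · rw [Subgroup.mem_centralizer_iff]
          intro p hp
          exact (hcomm e he p hp).symm
      have ht : n * e * n⁻¹ * e⁻¹ ∈ (N ⊓ D) ⊓ Subgroup.centralizer ((N ⊓ D : Subgroup G) : Set G) :=
        ⟨⟨ht1, ht2⟩, ht3⟩
      rw [hZ, Subgroup.mem_bot] at ht
      have h6 : n * e * n⁻¹ = e := mul_inv_eq_one.1 ht
      exact mul_inv_eq_iff_eq_mul.1 h6

end Pool.Agent.MPcc2398
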