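import Pool.Agent.Lib.MP_cc2398_al.Spec2

set_option autoImplicit false

namespace Pool.Agent.MPcc2398

universe u v

open Filter Topology

theorem vT1 (hClaimA : S_ClaimA.{u, v}) : S_T1.{u, v} := by
  classical
  intro G _ L hL O _ Z hE F g δ hδ hfreq
  have hne : (atTop ⊓ 𝓟 {n | δ ≤ dn (O n) (fun ε => g ∈ Z n ε) ∧
      ∀ ε : O n, ∃ f ∈ F, f ∉ Z n ε}).NeBot := frequently_mem_iff_neBot.mp hfreq
  obtain ⟨𝒰, h𝒰⟩ := @Ultrafilter.exists_le _ _ hne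
  have hS : ∀ᶠ n in (𝒰 : Filter ℕ), δ ≤ dn (O n) (fun ε => g ∈ Z n ε) ∧
      ∀ ε : O n, ∃ f ∈ F, f ∉ Z n ε := h𝒰 (mem_inf_of_right (mem_principal_self _))
  have htop : (𝒰 : Filter ℕ) ≤ atTop := h𝒰.trans inf_le_left
  obtain ⟨k, hk⟩ := hClaimA G L hL O Z hE.ne 𝒰 F (hS.mono fun n hn => hn.2) δ hδ
  refine ⟨k, fun z => ?_⟩
  by_contra hg
  rw [mem_cj'] at hg
  have h1 := hk _ hg
  obtain ⟨m, hm⟩ := hL.mem z
  have h2 : ∀ᶠ n in (𝒰 : Filter ℕ), m ≤ n := htop (eventually_ge_atTop m)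
  obtain ⟨n, ⟨hn1, hn2⟩, hn3⟩ := ((h1.and h2).and hS).exists
  obtain ⟨σ, hσ⟩ := hE.eqv n z (hL.mono hn2 hm)
  have h3 : dn (O n) (fun ε => g ∈ Z n ε) = dn (O n) (fun ε => z⁻¹ * g * z ∈ Z n ε) := by
    unfold dn
    have h4 : Nat.card {ε : O n // z⁻¹ * g * z ∈ Z n ε} = Nat.card {ε : O n // g ∈ Z n ε} :=
      Nat.card_congr (σ.subtypeEquiv fun ε => by rw [hσ, mem_cj'])
    rw [h4]
  have h4 := hn3.1
  rw [h3] at h4
  exact absurd hn1 (not_lt.mpr h4)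

end Pool.Agent.MPcc2398
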