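import Pool.Agent.Lib.MP_cc2398_al.All
import Pool.Agent.Lib.MP_cc2398_al.Chain
import Pool.Agent.Lib.MP_cc2398_al.Lim
import Pool.Agent.Lib.MP_cc2398_al.Cpt
import Pool.Agent.Lib.MP_cc2398_al.ClaimA
import Pool.Agent.Lib.MP_cc2398_al.T1
import Pool.Agent.Lib.MP_cc2398_al.Dec
import Pool.Agent.Lib.MP_cc2398_al.Step
import Pool.Agent.Lib.MP_cc2398_al.Prime
import Pool.Agent.Lib.MP_cc2398_al.PrimeR
import Pool.Agent.Lib.MP_cc2398_al.Fix
import Pool.Agent.Lib.MP_cc2398_al.NoFix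

set_option autoImplicit false

namespace Pool.Agent.MPcc2398

universe u v

theorem aChain : S_Chain.{u} := vChain
theorem aLim : S_Lim := vLim
theorem aCpt : S_Cpt.{u} := vCpt
theorem aClaimA : S_ClaimA.{u, v} := vClaimA aLim aCpt
theorem aT1 : S_T1.{u, v} := vT1 aClaimA
theorem aDec : S_Dec.{u} := vDec
theorem aStep : S_Step.{u} := vStep aCom aQZ aAb aDec
theorem aPrime : S_Prime.{u} := vPrime aQZ aChain aT1 aStep
theorem aPrimeR : S_PrimeR.{u} := vPrimeR aExt aQuot aRad aPrime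
theorem aFix : S_Fix.{u, v} := vFix aAct aChain aT1
theorem aNoFix : S_NoFix.{u} := vNoFix aCom aBig

end Pool.Agent.MPcc2398
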