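import Mathlib

/-!
# MP_cc2398_al: definitions

`LF K`: the subgroup `K` is locally finite.  `Inv L M`: `L` normalises `M`.  `TB H`: the pair `(G,H)` is
barely transitive and totally imprimitive, written in terms of subgroups (`H` is the stabilizer of a point).
`Co H K`: `H` and `K` are commensurable.  `SP H`: `TB H`, `G` is simple and not locally finite.
-/

set_option autoImplicit false

namespace Pool.Agent.MPcc2398

universe u v

/-- The subgroup `K` is locally finite: each finite subset of `K` generates a finite subgroup. -/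
def LF {G : Type u} [Group G] (K : Subgroup G) : Prop :=
  ∀ s : Finset G, (s : Set G) ⊆ K → ((Subgroup.closure (s : Set G) : Subgroup G) : Set G).Finite

/-- `L` normalises `M`. -/
def Inv {G : Type u} [Group G] (L M : Subgroup G) : Prop := ∀ l ∈ L, ∀ m ∈ M, l * m * l⁻¹ ∈ M

/-- The conjugate `x A x⁻¹`. -/
def cj {G : Type u} [Group G] (x : G) (A : Subgroup G) : Subgroup G := A.map (MulAut.conj x).toMonoidHom

/-- The subgroup generated by the conjugates `x A x⁻¹`, `x ∈ L`. -/
def NC {G : Type u} [Group G] (L A : Subgroup G) : Subgroup G := ⨆ x : L, cj (x : G) A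

/-- The subgroup generated by the `x A x⁻¹ ∩ M`, `x ∈ L`. -/
def SM {G : Type u} [Group G] (L A M : Subgroup G) : Subgroup G := ⨆ x : L, (cj (x : G) A ⊓ M)

/-- Totally imprimitive barely transitive pair: `H` has infinite index; `|K : H ∩ K|` is finite for each proper
subgroup `K`; two proper subgroups generate a proper subgroup; cyclic subgroups are proper. -/
structure TB {G : Type u} [Group G] (H : Subgroup G) : Prop where
  idx : H.index = 0
  rel : ∀ K : Subgroup G, K ≠ ⊤ → H.relIndex K ≠ 0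
  join : ∀ K L : Subgroup G, K ≠ ⊤ → L ≠ ⊤ → K ⊔ L ≠ ⊤
  cyc : ∀ g : G, Subgroup.zpowers g ≠ ⊤

/-- `K` and `H` are commensurable. -/
def Co {G : Type u} [Group G] (H K : Subgroup G) : Prop := K.relIndex H ≠ 0 ∧ H.relIndex K ≠ 0

/-- `TB H`, and `G` is simple and not locally finite. -/
structure SP {G : Type u} [Group G] (H : Subgroup G) : Prop where
  tb : TB H
  simple : ∀ N : Subgroup G, N.Normal → N = ⊥ ∨ N = ⊤
  nlf : ¬ LF (⊤ : Subgroup G)

theorem mem_cj {G : Type u} [Group G] {x g : G} {A : Subgroup G} : g ∈ cj x A ↔ ∃ a ∈ A, x * a * x⁻¹ = g := by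
  simp [cj, Subgroup.mem_map]

theorem conj_mem_cj {G : Type u} [Group G] {x a : G} {A : Subgroup G} (ha : a ∈ A) : x * a * x⁻¹ ∈ cj x A :=
  mem_cj.2 ⟨a, ha, rfl⟩

theorem mem_cj' {G : Type u} [Group G] {x g : G} {A : Subgroup G} : g ∈ cj x A ↔ x⁻¹ * g * x ∈ A := by
  rw [mem_cj]
  constructor
  · rintro ⟨a, ha, rfl⟩
    simpa [mul_assoc] using ha
  · intro h
    exact ⟨_, h, by group⟩

theorem cj_one {G : Type u} [Group G] (A : Subgroup G) : cj 1 A = A := by
  ext g; rw [mem_cj']; simp

theorem cj_mul {G : Type u} [Group G] (x y : G) (A : Subgroup G) : cj (x * y) A = cj x (cj y A) := by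
  ext g; rw [mem_cj', mem_cj', mem_cj']; simp [mul_assoc]

theorem cj_mono {G : Type u} [Group G] (x : G) {A B : Subgroup G} (h : A ≤ B) : cj x A ≤ cj x B := by
  intro g hg; rw [mem_cj'] at hg ⊢; exact h hg

theorem cj_inf {G : Type u} [Group G] (x : G) (A B : Subgroup G) : cj x (A ⊓ B) = cj x A ⊓ cj x B := by
  ext g; simp [mem_cj']

theorem cj_sup {G : Type u} [Group G] (x : G) (A B : Subgroup G) : cj x (A ⊔ B) = cj x A ⊔ cj x B :=
  Subgroup.map_sup _ _ _

theorem cj_bot {G : Type u} [Group G] (x : G) : cj x (⊥ : Subgroup G) = ⊥ := Subgroup.map_bot _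

theorem cj_top {G : Type u} [Group G] (x : G) : cj x (⊤ : Subgroup G) = ⊤ := by
  ext g; simp [mem_cj']

theorem cj_eq_of_inv {G : Type u} [Group G] {L M : Subgroup G} (h : Inv L M) {x : G} (hx : x ∈ L) : cj x M = M := by
  ext g
  rw [mem_cj']
  constructor
  · intro hg
    have := h x hx _ hg
    simpa [mul_assoc] using this
  · intro hg
    have := h x⁻¹ (L.inv_mem hx) _ hg
    simpa using this

theorem Inv.mono {G : Type u} [Group G] {L L' M : Subgroup G} (h : Inv L M) (hL : L' ≤ L) : Inv L' M :=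
  fun l hl m hm => h l (hL hl) m hm

theorem Inv.cj {G : Type u} [Group G] {L M : Subgroup G} (h : Inv L M) (x : G) : Inv (cj x L) (cj x M) := by
  intro l hl m hm
  rw [mem_cj'] at hl hm ⊢
  have := h _ hl _ hm
  simpa [mul_assoc] using this

theorem Inv.inf {G : Type u} [Group G] {L M N : Subgroup G} (h : Inv L M) (h' : Inv L N) : Inv L (M ⊓ N) :=
  fun l hl m hm => ⟨h l hl m hm.1, h' l hl m hm.2⟩

theorem Inv.sup {G : Type u} [Group G] {L M N : Subgroup G} (h : Inv L M) (h' : Inv L N) : Inv L (M ⊔ N) := by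
  intro l hl m hm
  have : l * m * l⁻¹ ∈ Pool.Agent.MPcc2398.cj l (M ⊔ N) := conj_mem_cj hm
  rw [cj_sup, cj_eq_of_inv h hl, cj_eq_of_inv h' hl] at this
  exact this

theorem inv_self {G : Type u} [Group G] (L : Subgroup G) : Inv L L :=
  fun l hl m hm => L.mul_mem (L.mul_mem hl hm) (L.inv_mem hl)

theorem inv_of_le {G : Type u} [Group G] {L M : Subgroup G} (h : L ≤ M) : Inv L M :=
  (inv_self M).mono h

theorem LF.mono {G : Type u} [Group G] {K K' : Subgroup G} (h : LF K) (hK : K' ≤ K) : LF K' :=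
  fun s hs => h s (hs.trans hK)

theorem cj_le_of_le {G : Type u} [Group G] {A L : Subgroup G} (h : A ≤ L) {x : G} (hx : x ∈ L) : cj x A ≤ L := by
  intro g hg
  obtain ⟨a, ha, rfl⟩ := mem_cj.1 hg
  exact L.mul_mem (L.mul_mem hx (h ha)) (L.inv_mem hx)

theorem le_NC {G : Type u} [Group G] (L A : Subgroup G) : A ≤ NC L A := by
  have := le_iSup (fun x : L => cj (x : G) A) 1
  simpa [NC, cj_one] using this

theorem cj_le_NC {G : Type u} [Group G] {L A : Subgroup G} {x : G} (hx : x ∈ L) : cj x A ≤ NC L A :=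
  le_iSup (fun x : L => cj (x : G) A) ⟨x, hx⟩

theorem NC_le {G : Type u} [Group G] {L A : Subgroup G} (h : A ≤ L) : NC L A ≤ L :=
  iSup_le fun x => cj_le_of_le h x.2

theorem inv_NC {G : Type u} [Group G] (L A : Subgroup G) : Inv L (NC L A) := by
  intro l hl m hm
  have h1 : l * m * l⁻¹ ∈ cj l (NC L A) := conj_mem_cj hm
  have h2 : cj l (NC L A) ≤ NC L A := by
    unfold NC
    rw [cj, Subgroup.map_iSup]
    refine iSup_le fun x => ?_
    have h3 : Subgroup.map (MulAut.conj l).toMonoidHom (cj (x : G) A) = cj (l * x) A := (cj_mul l x A).symm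
    rw [h3]
    exact cj_le_NC (L.mul_mem hl x.2)
  exact h2 h1

end Pool.Agent.MPcc2398
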