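import Pool.Agent.Lib.MP_cc2398_al.Spec

/-!
# MP_cc2398_al, Dietz: Dietzmann's lemma
-/

set_option autoImplicit false

namespace Pool.Agent.MPcc2398

universe u

namespace Dietz

/-- the case of a generating set -/
theorem fin_top (hS : S_Schur.{u}) {X : Type u} [Group X] {t : Set X} (ht : t.Finite)
    (hgen : Subgroup.closure t = ⊤) (hc : ∀ x : X, ∀ y ∈ t, x * y * x⁻¹ ∈ t)
    (ho : ∀ y ∈ t, IsOfFinOrder y) : Finite X := by
  have hft : Finite t := ht
  -- the centralizers
  have hcent : ∀ y ∈ t, (Subgroup.centralizer {y}).index ≠ 0 := by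
    intro y hy
    have hfin : Finite (X ⧸ Subgroup.centralizer {y}) := by
      refine Finite.of_injective
        (fun q : X ⧸ Subgroup.centralizer {y} => (⟨q.out * y * q.out⁻¹, hc _ y hy⟩ : t)) ?_
      intro q q' h
      have h' : q.out * y * q.out⁻¹ = q'.out * y * q'.out⁻¹ := congrArg Subtype.val h
      have h2 : q.out⁻¹ * q'.out ∈ Subgroup.centralizer {y} := by
        rw [Subgroup.mem_centralizer_singleton_iff]
        calc q.out⁻¹ * q'.out * y = q.out⁻¹ * (q'.out * y * q'.out⁻¹) * q'.out := by group
          _ = q.out⁻¹ * (q.out * y * q.out⁻¹) * q'.out := by rw [h']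
          _ = y * (q.out⁻¹ * q'.out) := by group
      have h3 : (q.out : X ⧸ Subgroup.centralizer {y}) = (q'.out : X ⧸ Subgroup.centralizer {y}) :=
        QuotientGroup.eq.2 h2
      rwa [QuotientGroup.out_eq', QuotientGroup.out_eq'] at h3
    exact (Subgroup.finiteIndex_iff_finite_quotient.2 hfin).index_ne_zero
  have hcen : (Subgroup.center X).index ≠ 0 := by
    rw [Subgroup.center_eq_infi' hgen]
    exact Subgroup.index_iInf_ne_zero fun y => hcent y.1 y.2
  have hcom : Finite (commutator X) := hS X hcen
  -- the abelianization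
  have hsurj : Function.Surjective (Abelianization.of : X →* Abelianization X) :=
    QuotientGroup.mk'_surjective _
  have hfg : Group.FG (Abelianization X) := by
    have h0 : Group.FG X := Group.fg_iff.2 ⟨t, hgen, ht⟩
    exact Group.fg_of_surjective (f := Abelianization.of) hsurj
  have htor : ∀ x : Abelianization X, IsOfFinOrder x := by
    intro x
    obtain ⟨x, rfl⟩ := hsurj x
    have hx : x ∈ Subgroup.closure t := by rw [hgen]; trivial
    induction hx using Subgroup.closure_induction with
    | mem y hy => exact MonoidHom.isOfFinOrder _ (ho y hy)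
    | one => rw [map_one]; exact IsOfFinOrder.one
    | mul a b _ _ ha hb => rw [map_mul]; exact ha.mul hb
    | inv a _ ha => rw [map_inv]; exact ha.inv
  have hab : Finite (Abelianization X) := CommGroup.finite_of_fg_isMulTorsion _ htor
  have hidx : (commutator X).index ≠ 0 := by
    have : Finite (X ⧸ commutator X) := hab
    exact (Subgroup.finiteIndex_iff_finite_quotient.2 this).index_ne_zero
  have hcard : Nat.card X ≠ 0 := by
    rw [← Subgroup.card_mul_index (commutator X)]
    exact mul_ne_zero Nat.card_pos.ne' hidx
  exact Nat.finite_of_card_ne_zero hcard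

end Dietz

/-- Dietzmann's lemma -/
theorem vDietz (hS : S_Schur.{u}) : S_Dietz.{u} := by
  intro X _ t ht hc ho
  have h := Dietz.fin_top hS (X := Subgroup.closure t)
    (t := (((↑) : Subgroup.closure t → X) ⁻¹' t)) (ht.preimage Subtype.coe_injective.injOn)
    Subgroup.closure_closure_coe_preimage (fun x y hy => by
      have := hc x.1 y.1 hy
      simpa using this) (fun y hy => by
      have := ho y.1 hy
      exact (Submonoid.isOfFinOrder_coe (H := (Subgroup.closure t).toSubmonoid)).1 this)
  exact Set.toFinite _

end Pool.Agent.MPcc2398
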