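import Pool.Agent.Lib.MP_cc2398_al.Spec

/-!
# Extensions of locally finite subgroups
-/

set_option autoImplicit false

namespace Pool.Agent.MPcc2398

universe u v

theorem vExt : S_Ext.{u} := by
  intro G _ A B hA hB s hs
  classical
  have hX : A.relIndex (Subgroup.closure (s : Set G)) ≠ 0 := hB s hs
  have hFG : Group.FG (Subgroup.closure (s : Set G)) :=
    (Group.fg_iff_subgroup_fg _).2 ⟨s, rfl⟩
  have hFI : (A.subgroupOf (Subgroup.closure (s : Set G))).FiniteIndex := ⟨hX⟩
  have hFG2 : Group.FG (A.subgroupOf (Subgroup.closure (s : Set G))) :=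
    Subgroup.fg_of_index_ne_zero _
  obtain ⟨t, ht⟩ := (Group.fg_iff_subgroup_fg _).1 hFG2
  have h1 : ((t.image (fun x : Subgroup.closure (s : Set G) => (x : G)) : Finset G) : Set G) ⊆ A := by
    intro g hg
    rw [Finset.coe_image] at hg
    obtain ⟨x, hx, rfl⟩ := hg
    have h2 : x ∈ A.subgroupOf (Subgroup.closure (s : Set G)) := by
      rw [← ht]
      exact Subgroup.subset_closure hx
    exact h2
  have h2 := hA _ h1
  have h3 : Finite (A.subgroupOf (Subgroup.closure (s : Set G))) := by
    have hfin : Finite (Subgroup.closure
        ((t.image (fun x : Subgroup.closure (s : Set G) => (x : G)) : Finset G) : Set G)) :=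
      h2.to_subtype
    have hm : ∀ x : A.subgroupOf (Subgroup.closure (s : Set G)), ((x : Subgroup.closure (s : Set G)) : G) ∈
        Subgroup.closure ((t.image (fun x : Subgroup.closure (s : Set G) => (x : G)) : Finset G) : Set G) := by
      intro x
      have h4 : (x : Subgroup.closure (s : Set G)) ∈ Subgroup.closure (t : Set (Subgroup.closure (s : Set G))) := by
        rw [ht]
        exact x.2
      have h5 := Subgroup.mem_map_of_mem (Subgroup.closure (s : Set G)).subtype h4
      rw [MonoidHom.map_closure] at h5
      rw [Finset.coe_image]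
      exact h5
    refine Finite.of_injective (fun x => (⟨_, hm x⟩ : Subgroup.closure
      ((t.image (fun x : Subgroup.closure (s : Set G) => (x : G)) : Finset G) : Set G))) ?_
    intro x y hxy
    have h6 := congrArg Subtype.val hxy
    exact Subtype.ext (Subtype.ext h6)
  have h4 : Finite (Subgroup.closure (s : Set G)) :=
    Finite.of_equiv _ (Subgroup.groupEquivQuotientProdSubgroup
      (s := A.subgroupOf (Subgroup.closure (s : Set G)))).symm
  exact Set.toFinite _

end Pool.Agent.MPcc2398
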