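import Pool.Agent.Lib.MP_cc2398_al.Spec

set_option autoImplicit false

namespace Pool.Agent.MPcc2398

universe u v

theorem vHyp (hCom : S_Com.{u}) (hMain : S_Main.{u}) : S_Hyp.{u} := by
  intro G _ H hTB hcore K hKH hKi hyp
  by_contra hnlf
  obtain ⟨R, hRn, hRt, hRLF, hRmax, hst⟩ := hMain G H hTB hcore hnlf
  obtain ⟨c1, c2, c3, c4, c5, c6, c7⟩ := hCom G H hTB
  have hHt : H ≠ ⊤ := by
    intro h
    have := hTB.idx
    rw [h, Subgroup.index_top] at this
    exact one_ne_zero this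
  have hKt : K ≠ ⊤ := fun h => hHt (top_le_iff.1 (h ▸ hKH))
  have hCo : Co H K := c2 K hKt hKi
  obtain ⟨b1, b2, b3, b4⟩ := hst K hCo
  have hKR : ¬ K ≤ R := by
    intro h
    apply hRt
    rw [Subgroup.eq_top_iff']
    intro g
    apply b1 g
    intro k hk
    exact R.mul_mem (hRn.conj_mem k (h hk) g) (R.inv_mem (h hk))
  have hlt : K ⊓ R < K := lt_of_le_of_ne inf_le_left (fun h => hKR (inf_eq_left.1 h))
  have hinv : Inv K (K ⊓ R) := (inv_self K).inf (fun l _ m hm => hRn.conj_mem m hm l)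
  obtain ⟨M, hNM, hMK, hKM, h⟩ := hyp (K ⊓ R) hlt hinv
  have hMR : M ≤ R := by
    rcases h with h | h
    · refine b2 M hMK hKM (fun s hs h0 => h s hs ?_)
      exact Subgroup.relIndex_eq_zero_of_le_left inf_le_right h0
    · exact b3 M hMK hKM (fun a ha b hb => (h a ha b hb).2)
  exact absurd (le_inf hMK hMR) (not_le_of_gt hNM)

end Pool.Agent.MPcc2398
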