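import Pool.Agent.Lib.MP_cc2398_al.Spec2

set_option autoImplicit false

namespace Pool.Agent.MPcc2398

universe u v

theorem vNoFix (hCom : S_Com.{u}) (hBig : S_Big.{u}) : S_NoFix.{u} := by
  classical
  intro G _ H hT hFG
  have hH : H ≠ ⊤ := by
    intro h
    have h1 := hT.idx
    rw [h, Subgroup.index_top] at h1
    exact one_ne_zero h1
  obtain ⟨g, hg⟩ : ∃ g : G, g ∉ H := by
    by_contra hcon
    push Not at hcon
    exact hH ((Subgroup.eq_top_iff' H).mpr hcon)
  obtain ⟨L, hL, hHL, -, hgL⟩ := hBig G H hT H hH {g}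
  have hgL' : g ∈ L := hgL (by simp)
  obtain ⟨S, hS⟩ := hFG
  have hfin : Finite (L ⧸ H.subgroupOf L) := by
    have h1 : (H.subgroupOf L).index ≠ 0 := hT.rel L hL
    have h2 : (H.subgroupOf L).FiniteIndex := ⟨h1⟩
    exact Subgroup.finite_quotient_of_finiteIndex
  have : Fintype (L ⧸ H.subgroupOf L) := Fintype.ofFinite _
  let s : Finset G := S ∪ (Finset.univ : Finset (L ⧸ H.subgroupOf L)).image
    (fun q => ((Quotient.out q : L) : G))
  have hs : ∀ A : Subgroup G, (∀ y ∈ s, y ∈ A) → L ≤ A := by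
    intro A hA
    have hHA : H ≤ A := by
      rw [← hS, Subgroup.closure_le]
      intro y hy
      exact hA y (Finset.mem_union_left _ hy)
    intro l hl
    have h1 : ((Quotient.out ((⟨l, hl⟩ : L) : L ⧸ H.subgroupOf L) : L) : G) ∈ A :=
      hA _ (Finset.mem_union_right _ (Finset.mem_image_of_mem _ (Finset.mem_univ _)))
    have h2 : (Quotient.out ((⟨l, hl⟩ : L) : L ⧸ H.subgroupOf L))⁻¹ * (⟨l, hl⟩ : L) ∈
        H.subgroupOf L := by
      rw [← QuotientGroup.eq]
      exact Quotient.out_eq _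
    have h3 : ((Quotient.out ((⟨l, hl⟩ : L) : L ⧸ H.subgroupOf L) : L) : G)⁻¹ * l ∈ A := by
      rw [Subgroup.mem_subgroupOf] at h2
      exact hHA h2
    have h4 := A.mul_mem h1 h3
    rwa [mul_inv_cancel_left] at h4
  refine ⟨s, fun x => ?_⟩
  by_contra hcon
  push Not at hcon
  have hLA := hs _ hcon
  obtain ⟨L', hL', hHL', hLL', hx⟩ := hBig G H hT L hL {x}
  have hx' : x ∈ L' := hx (by simp)
  have hHA : H ≤ cj x H := hHL.trans hLA
  have hAL' : cj x H ≤ L' := cj_le_of_le hHL' hx'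
  have h1 : H.relIndex (cj x H) * (cj x H).relIndex L' = H.relIndex L' :=
    Subgroup.relIndex_mul_relIndex _ _ _ hHA hAL'
  have h2 : (cj x H).relIndex L' = H.relIndex L' := by
    have h3 : cj x L' = L' := cj_eq_of_inv (inv_self L') hx'
    have h4 : (cj x H).relIndex (cj x L') = H.relIndex L' :=
      Subgroup.relIndex_map_map_of_injective H L' (MulAut.conj x).injective
    rwa [h3] at h4
  have h3 : H.relIndex L' ≠ 0 := hT.rel L' hL'
  rw [h2] at h1
  have h4 : H.relIndex (cj x H) = 1 := by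
    have h5 : H.relIndex (cj x H) * H.relIndex L' = 1 * H.relIndex L' := by rw [h1, one_mul]
    exact Nat.eq_of_mul_eq_mul_right (Nat.pos_of_ne_zero h3) h5
  rw [Subgroup.relIndex_eq_one] at h4
  exact hg (h4 (hLA hgL'))

end Pool.Agent.MPcc2398
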