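import Pool.Agent.Lib.MP_cc2398_al.Spec

/-!
# MP_cc2398_al, Simp: a simple locally nilpotent group is commutative
-/

set_option autoImplicit false

namespace Pool.Agent.MPcc2398

universe u

open scoped commutatorElement

namespace Simp

/-- an element of the normal closure of `b` needs only finitely many conjugators -/
theorem fin_conj {G : Type u} [Group G] (b c : G) (hc : c ∈ Subgroup.normalClosure {b}) :
    ∃ s : Finset G, ∀ P : Subgroup G, b ∈ P → (∀ x ∈ s, ∀ p ∈ P, x * p * x⁻¹ ∈ P) → c ∈ P := by
  classical
  unfold Subgroup.normalClosure at hc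
  induction hc using Subgroup.closure_induction with
  | mem c hc =>
    obtain ⟨b', hb', hb⟩ := Group.mem_conjugatesOfSet_iff.1 hc
    rw [Set.mem_singleton_iff] at hb'
    subst hb'
    obtain ⟨x, hx⟩ := isConj_iff.1 hb
    refine ⟨{x}, fun P hP h => ?_⟩
    rw [← hx]
    exact h x (Finset.mem_singleton_self x) _ hP
  | one => exact ⟨∅, fun P _ _ => P.one_mem⟩
  | mul c d _ _ hc hd =>
    obtain ⟨s, hs⟩ := hc
    obtain ⟨t, ht⟩ := hd
    exact ⟨s ∪ t, fun P hP h => P.mul_mem
      (hs P hP fun x hx => h x (Finset.mem_union_left _ hx))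
      (ht P hP fun x hx => h x (Finset.mem_union_right _ hx))⟩
  | inv c _ hc =>
    obtain ⟨s, hs⟩ := hc
    exact ⟨s, fun P hP h => P.inv_mem (hs P hP h)⟩

end Simp

/-- a simple locally nilpotent group is commutative -/
theorem vSimp : S_Simp.{u} := by
  classical
  intro G _ hsim hloc a g
  by_contra hne
  have hb : ⁅a, g⁆ ≠ 1 := fun h => hne (commutatorElement_eq_one_iff_mul_comm.1 h)
  have htop : Subgroup.normalClosure {⁅a, g⁆} = (⊤ : Subgroup G) := by
    rcases hsim _ Subgroup.normalClosure_normal with h | h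
    · exact absurd ((Subgroup.eq_bot_iff_forall _).1 h _
        (Subgroup.subset_normalClosure (Set.mem_singleton _))) hb
    · exact h
  obtain ⟨s, hs⟩ := Simp.fin_conj ⁅a, g⁆ a (by rw [htop]; trivial)
  obtain ⟨X, hX, hnil⟩ := hloc (s ∪ {a, g})
  have ha : a ∈ X := hX (by simp)
  have hg : g ∈ X := hX (by simp)
  obtain ⟨n, hn⟩ := (Subgroup.isNilpotent_iff_lowerCentralSeries X).1 hnil
  have key : ∀ i, a ∈ X.lowerCentralSeries i := by
    intro i
    induction i with
    | zero => exact ha
    | succ i ih =>
      apply hs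
      · rw [Subgroup.lowerCentralSeries_succ]
        exact Subgroup.commutator_mem_commutator ih hg
      · intro x hx p hp
        have hxX : x ∈ X := hX (by simp [hx])
        have := X.self_le_normalizer_lowerCentralSeries (i + 1) hxX
        exact (Subgroup.mem_normalizer_iff.1 this p).1 hp
  have h1 := key n
  rw [hn, Subgroup.mem_bot] at h1
  apply hne
  rw [h1, one_mul, mul_one]

end Pool.Agent.MPcc2398
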