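import Pool.Agent.Lib.MP_cc2398_al.Defs
set_option autoImplicit false
namespace Pool.Agent.MPcc2398
universe u v

/-- A soluble group is hyper-abelian in the form used in the theorem. -/
theorem hyper_of_solvable {G : Type u} [Group G] (K : Subgroup G) (hK : Group.IsSolvable K) (N : Subgroup G)
    (hN : N < K) (hKN : ∀ k ∈ K, ∀ n ∈ N, k * n * k⁻¹ ∈ N) :
    ∃ M : Subgroup G, N < M ∧ M ≤ K ∧ (∀ k ∈ K, ∀ m ∈ M, k * m * k⁻¹ ∈ M) ∧
        ((∀ s : Finset G, (s : Set G) ⊆ M → N.relIndex (Subgroup.closure (s : Set G)) ≠ 0) ∨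
         (∀ a ∈ M, ∀ b ∈ M, a * b * a⁻¹ * b⁻¹ ∈ N)) := by
  classical
  let D : ℕ → Subgroup G := fun i => (derivedSeries K i).map K.subtype
  have hD0 : D 0 = K := by
    show (derivedSeries K 0).map K.subtype = K
    rw [derivedSeries_zero, ← MonoidHom.range_eq_map, Subgroup.range_subtype]
  have hDK : ∀ i, D i ≤ K := by
    rintro i _ ⟨x, _, rfl⟩; exact x.2
  have hDinv : ∀ i, Inv K (D i) := by
    rintro i l hl _ ⟨x, hx, rfl⟩
    exact ⟨_, (derivedSeries_normal K i).conj_mem x hx ⟨l, hl⟩, rfl⟩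
  have hDcomm : ∀ i, ∀ a ∈ D i, ∀ b ∈ D i, a * b * a⁻¹ * b⁻¹ ∈ D (i + 1) := by
    rintro i _ ⟨x, hx, rfl⟩ _ ⟨y, hy, rfl⟩
    refine ⟨x * y * x⁻¹ * y⁻¹, ?_, by simp⟩
    show x * y * x⁻¹ * y⁻¹ ∈ derivedSeries K (i + 1)
    rw [derivedSeries_succ]
    exact Subgroup.commutator_mem_commutator hx hy
  obtain ⟨n, hn⟩ := (Group.isSolvable_def K).1 hK
  have hDn : D n = ⊥ := by
    show (derivedSeries K n).map K.subtype = ⊥
    rw [hn, Subgroup.map_bot]
  -- the least `i` with `D i ≤ N`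
  have hex : ∃ i, D i ≤ N := ⟨n, by rw [hDn]; exact bot_le⟩
  have hi := Nat.find_spec hex
  have hi0 : Nat.find hex ≠ 0 := by
    intro h0
    rw [h0, hD0] at hi
    exact absurd hi (not_le_of_gt hN)
  obtain ⟨j, hj⟩ := Nat.exists_eq_succ_of_ne_zero hi0
  have hjN : ¬ D j ≤ N := Nat.find_min hex (by omega)
  have hj1 : D (j + 1) ≤ N := by rw [hj] at hi; exact hi
  refine ⟨N ⊔ D j, ?_, sup_le hN.le (hDK j), Inv.sup hKN (hDinv j), Or.inr ?_⟩
  · exact lt_of_le_of_ne le_sup_left (fun h => hjN (by rw [h]; exact le_sup_right))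
  · -- work in `K / N`
    have hNn : (N.subgroupOf K).Normal := by
      refine ⟨fun x hx y => ?_⟩
      rw [Subgroup.mem_subgroupOf] at hx ⊢
      exact hKN y y.2 x hx
    have hsup : N ⊔ D j ≤ K := sup_le hN.le (hDK j)
    let π := QuotientGroup.mk' (N.subgroupOf K)
    have hker : ∀ g : K, π g = 1 ↔ (g : G) ∈ N := fun g => by
      rw [← MonoidHom.mem_ker, QuotientGroup.ker_mk', Subgroup.mem_subgroupOf]
    -- the set of `x ∈ K` with `π x ∈ π (D j)`
    let M' : Subgroup G := ((derivedSeries K j).map π).comap π |>.map K.subtype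
    have hM' : N ⊔ D j ≤ M' := by
      refine sup_le ?_ ?_
      · intro x hx
        refine ⟨⟨x, hN.le hx⟩, ?_, rfl⟩
        show π _ ∈ (derivedSeries K j).map π
        rw [(hker _).2 hx]
        exact Subgroup.one_mem _
      · rintro _ ⟨x, hx, rfl⟩
        exact ⟨x, ⟨x, hx, rfl⟩, rfl⟩
    intro a ha b hb
    obtain ⟨x, ⟨x', hx', hxx⟩, rfl⟩ := hM' ha
    obtain ⟨y, ⟨y', hy', hyy⟩, rfl⟩ := hM' hb
    have h1 : π (x' * y' * x'⁻¹ * y'⁻¹) = 1 := by
      rw [hker]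
      have := hDcomm j _ ⟨x', hx', rfl⟩ _ ⟨y', hy', rfl⟩
      exact hj1 (by simpa using this)
    have h2 : π (x * y * x⁻¹ * y⁻¹) = 1 := by
      rw [← h1]
      simp only [map_mul, map_inv, hxx, hyy]
    have h3 := (hker _).1 h2
    simpa using h3

end Pool.Agent.MPcc2398
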