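import Pool.Agent.Lib.MP_cc2398_al.Defs

/-!
# MP_cc2398_al: statements

THEOREM.  Let `G` be a totally imprimitive barely transitive group on `Ω`, not locally finite.  Then `G` has a
largest proper normal subgroup `R`; `R` is locally finite; and for each subgroup `K` commensurable with a point
stabilizer, modulo `R`: `C(K) = 1`, `K` has no nontrivial locally finite normal subgroup, no nontrivial abelian
normal subgroup, and `K` is residually finite.  Consequence: if a subgroup of finite index in a point stabilizer is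
hyper-(locally finite or abelian), e.g. soluble, then `G` is locally finite.

Every statement `S_Xxx` is a `Prop`, proved in its own file (`theorem vXxx`), with the statements it uses as
hypotheses.  The complete proofs are in the docstrings.  Notation: `⟨s⟩ = closure s`; `|B : A ∩ B|` is
`A.relIndex B` (`0` if infinite).  Definitions and many small lemmas (`mem_cj'`, `cj_mul`, `Inv.cj`, `inv_NC`,
`cj_eq_of_inv`, ...) are in `Defs.lean`.
-/

set_option autoImplicit false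

namespace Pool.Agent.MPcc2398

universe u v

/-! ## Locally finite subgroups -/

/-- **Ext.**  Extensions.  Proof.  Let `s ⊆ B` be finite, `X = ⟨s⟩`.  `A ⊓ X` has finite index in `X`, so it is
finitely generated (Schreier: `Subgroup.fg_of_index_ne_zero` for `A.subgroupOf X`), say by the finite set `t ⊆ A`;
`LF A` gives that `A ⊓ X = ⟨t⟩` is finite, hence `X` is finite (finite index over a finite subgroup, `Nat.card`/
`index_mul_card` or `Finite` of the fibres of `X → X ⧸ ..`). -/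
def S_Ext : Prop := ∀ (G : Type u) [Group G] (A B : Subgroup G), LF A →
  (∀ s : Finset G, (s : Set G) ⊆ B → A.relIndex (Subgroup.closure (s : Set G)) ≠ 0) → LF B

/-- **Sup** (from `Ext`).  Products.  Proof.  By `Ext` for `A ≤ A ⊔ B`: let `s ⊆ A ⊔ B` be finite.  As `B`
normalises `A`, each element of `A ⊔ B` is `a b` (`a ∈ A`, `b ∈ B`) (`Subgroup.mem_sup`-like, closure induction, or
`Subgroup.sup_eq_closure_mul`/`mul_normal` inside `↥(A ⊔ B)` where `A` is normal).  Let `t ⊆ B` be the finite set of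
the `b`'s, `Y = ⟨t⟩`, finite.  `⟨s⟩ ≤ A ⊔ Y = A Y`, so `⟨s⟩` is covered by the finitely many cosets `A y`, `y ∈ Y`:
`|⟨s⟩ : A ∩ ⟨s⟩| ≤ |Y|`. -/
def S_Sup : Prop := ∀ (G : Type u) [Group G] (A B : Subgroup G), LF A → LF B → Inv B A → LF (A ⊔ B)

/-- **ISup** (from `Sup`).  Proof.  A finite `s ⊆ ⨆ i, A i` is contained in `⨆ i ∈ t, A i` for a finite `t`
(each element of an `iSup` of subgroups lies in a finite partial join: `Subgroup.iSup_eq_closure`, closure induction,
or the directed union of the finite joins, `Subgroup.mem_iSup_of_directed`).  By induction on `t` the join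
`⨆ i ∈ t, A i` is `≤ D`, normalised by `D` (`Inv.sup`) and locally finite (`Sup`). -/
def S_ISup : Prop := ∀ (G : Type u) [Group G] (D : Subgroup G) (ι : Type u) (A : ι → Subgroup G),
  (∀ i, A i ≤ D) → (∀ i, Inv D (A i)) → (∀ i, LF (A i)) → LF (⨆ i, A i)

/-! ## Pairs -/

/-- **Act.**  From the action to the pair.  Proof.  `H = stabilizer G ω`; `|K : H ∩ K| = |K ω|`
(`MulAction.index_stabilizer`, orbit of `K`), finite for proper `K`; `|G : H| = |Ω| = ∞` (transitive).
If `K` is a proper subgroup then `K ω` is finite; for a finite block `B ⊇ K ω ∪ {ω}` each `k ∈ K` has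
`k • B = B` (`ω ∈ B`, `k • ω ∈ B ∩ k • B`).  Given proper `K, L` take `B ⊇ K ω ∪ L ω ∪ {ω}`: `K ⊔ L` stabilises `B`
so `(K ⊔ L) ω ⊆ B` is finite, while `G ω = Ω` is infinite.  For `g ∈ G` take `B ⊇ {ω, g • ω}`: `g • B = B`, so
`⟨g⟩ ω ⊆ B`, `⟨g⟩ ≠ ⊤`.  If `N` is normal and `N ≤ stabilizer ω` then `N` fixes each `g • ω`
(`n g ω = g (g⁻¹ n g) ω = g ω`), i.e. everything, so `N = ⊥` (faithful). -/
def S_Act : Prop := ∀ (G : Type u) [Group G] (Ω : Type v) [MulAction G Ω], Infinite Ω → FaithfulSMul G Ω →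
  MulAction.IsPretransitive G Ω →
  (∀ K : Subgroup G, K ≠ ⊤ → ∀ ω : Ω, (MulAction.orbit K ω).Finite) →
  (∀ F : Set Ω, F.Finite → ∃ B : Set Ω, F ⊆ B ∧ B.Finite ∧ MulAction.IsBlock G B) →
  ∀ ω : Ω, TB (MulAction.stabilizer G ω) ∧
    ∀ N : Subgroup G, N.Normal → N ≤ MulAction.stabilizer G ω → N = ⊥

/-- **Big.**  Proof.  Induction on `s` (`join` and `cyc`: add `zpowers g`), starting with `K ⊔ H`
(`H ≠ ⊤` as `H.index = 0`). -/
def S_Big : Prop := ∀ (G : Type u) [Group G] (H : Subgroup G), TB H → ∀ (K : Subgroup G), K ≠ ⊤ →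
  ∀ s : Finset G, ∃ L : Subgroup G, L ≠ ⊤ ∧ H ≤ L ∧ K ≤ L ∧ (s : Set G) ⊆ L

/-- **Com.**  Commensurability.  Proof.  (1) If `K = ⊤` then `H.relIndex ⊤ = H.index = 0`.  (2) `K ≠ ⊤` and `rel`.
(3) `L ⊔ H` is proper, `H` has finite index in it (`rel`), `K ∩ H` has finite index in `H`, so
`(K ⊓ H).relIndex (L ⊔ H) ≠ 0`, so `K.relIndex (L ⊔ H) ≠ 0`, so `K.relIndex L ≠ 0`
(`relIndex_mul_relIndex`, `relIndex_eq_zero_of_le_left/right`).  (4) Let `L ≥ H, K`, `x ∈ L` be proper (join of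
`H`, `K`, `zpowers x`).  `K`, `H` have finite index in `L`, so `cj x K` has finite index in `cj x L = L`
(`relIndex_map_map_of_injective`), so in `H`.  Use (2).  (5) `relIndex_inf_ne_zero` and (2).  (6) `M` is the image
in `G` of the normal core of `K.subgroupOf L` in `L` (`Subgroup.finiteIndex_normalCore`); `M.relIndex L ≠ 0`, so
`M.relIndex H ≠ 0`: `M` has finite index in `K`, which is commensurable with `H` (`relIndex_ne_zero_trans`).
(7) `H.relIndex K ≠ 0` with `H ≤ K`: use (2) and `K.relIndex H = 1`. -/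
def S_Com : Prop := ∀ (G : Type u) [Group G] (H : Subgroup G), TB H →
  (∀ K : Subgroup G, Co H K → K ≠ ⊤) ∧
  (∀ K : Subgroup G, K ≠ ⊤ → K.relIndex H ≠ 0 → Co H K) ∧
  (∀ K L : Subgroup G, Co H K → L ≠ ⊤ → K.relIndex L ≠ 0) ∧
  (∀ (K : Subgroup G) (x : G), Co H K → Co H (cj x K)) ∧
  (∀ K K' : Subgroup G, Co H K → Co H K' → Co H (K ⊓ K')) ∧
  (∀ K L : Subgroup G, Co H K → K ≤ L → L ≠ ⊤ → ∃ M : Subgroup G, M ≤ K ∧ Co H M ∧ Inv L M) ∧
  (∀ K : Subgroup G, K ≠ ⊤ → H ≤ K → Co H K)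

/-- **Quot.**  Proof.  Let `π = QuotientGroup.mk' N`, surjective with kernel `N`; `comap π` is injective on
subgroups and `comap π ⊤ = ⊤`.  `idx`: `(H.map π).index = (H ⊔ N).index` (`Subgroup.index_map` and surjectivity); if
it were nonzero then, `H ⊔ N` being proper (`join`; `H ≠ ⊤`), `H.relIndex (H ⊔ N) ≠ 0` (`rel`) would give
`H.index ≠ 0`.  `rel`: for `K' ≠ ⊤` the subgroup `K = comap π K'` is proper, `K' = K.map π`, and
`(H.map π).relIndex (K.map π) = (H ⊔ N).relIndex (K ⊔ N)` (`relIndex_map_map`) is nonzero as `H.relIndex K ≠ 0`.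
`join`: `comap π (K' ⊔ L') = comap π K' ⊔ comap π L'` (surjective).  `cyc`: `zpowers (π g) = (zpowers g).map π`; if it
is `⊤` then `zpowers g ⊔ N = ⊤`, against `join`, `cyc`. -/
def S_Quot : Prop := ∀ (G : Type u) [Group G] (H N : Subgroup G) [N.Normal], TB H → N ≠ ⊤ →
  TB (H.map (QuotientGroup.mk' N))

/-! ## The largest proper normal subgroup -/

/-- **FG.**  A finitely generated group has a subgroup of finite index contained in all subgroups of index at most
`n`.  Proof.  A homomorphism `X → Perm (Fin k)` is determined by the images of finitely many generators, so there are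
finitely many; let `J` be the intersection of their kernels for all `k ≤ n`: finite index (finite intersection of
subgroups of finite index; the kernels have finite index as the image is finite).  If `Y` has index `k ≤ n`, `k ≠ 0`,
then `X` acts on `X ⧸ Y ≃ Fin k`, which gives a homomorphism whose kernel is contained in `Y` (it fixes the coset
`Y`). -/
def S_FG : Prop := ∀ (X : Type u) [Group X], Group.FG X → ∀ n : ℕ, ∃ J : Subgroup X, J.index ≠ 0 ∧
  ∀ Y : Subgroup X, Y.index ≠ 0 → Y.index ≤ n → J ≤ Y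

/-- **Norm** (from `FG`).  Proof.  `H.relIndex N = m ≠ 0` (`rel`).  For `g ∈ G`: `(cj g H).relIndex N = m` since
`cj g N = N` (`relIndex_map_map_of_injective`).  Let `s ⊆ N` be finite, `X = ⟨s⟩ ≤ N`: `(cj g H).relIndex X ≤ m` and
`≠ 0` (`relIndex_le_of_le_right`).  By `FG` there is `J ≤ X` of finite index in `X` contained in all `cj g H`.  The
normal core of `H` (`⨅ g, cj g H`; or: the subgroup of all elements which lie in every `cj g H`) is normal and
contained in `H`, so it is trivial: `J = ⊥`, so `X` is finite. -/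
def S_Norm : Prop := ∀ (G : Type u) [Group G] (H : Subgroup G), TB H →
  (∀ N : Subgroup G, N.Normal → N ≤ H → N = ⊥) → ∀ N : Subgroup G, N.Normal → N ≠ ⊤ → LF N

/-- **Rad** (from `Norm`).  Proof.  `R` = the union of all proper normal subgroups; it is a subgroup as the join of
two proper normal subgroups is proper (`join`) and normal; so each finite subset of `R` lies in a proper normal
subgroup, which is locally finite (`Norm`): `LF R`.  If `R = ⊤` then `LF ⊤`, excluded. -/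
def S_Rad : Prop := ∀ (G : Type u) [Group G] (H : Subgroup G), TB H →
  (∀ N : Subgroup G, N.Normal → N ≤ H → N = ⊥) → ¬ LF (⊤ : Subgroup G) →
  ∃ R : Subgroup G, R.Normal ∧ R ≠ ⊤ ∧ LF R ∧ ∀ N : Subgroup G, N.Normal → N ≠ ⊤ → N ≤ R

/-! ## Finite conjugacy classes -/

/-- **Schur.**  Proof.  `[a,b]` depends only on the cosets of `a, b` modulo the centre: the set of commutators
(`commutatorSet X`) is finite, and Mathlib has the instance `Finite (commutatorSet G) → Finite (commutator G)`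
(`Mathlib/GroupTheory/Schreier.lean`). -/
def S_Schur : Prop := ∀ (X : Type u) [Group X], (Subgroup.center X).index ≠ 0 →
  ((commutator X : Subgroup X) : Set X).Finite

/-- **Dietz** (from `Schur`).  Dietzmann's lemma.  Proof.  `Y = ⟨t⟩`.  For `y ∈ t` the conjugates of `y` lie in `t`,
so its centralizer has finite index; so the centre of `Y` (it contains `Y ∩ ⋂_{y ∈ t} C(y)`) has finite index in
`Y`.  By `Schur` (for `↥Y`) the commutator subgroup of `Y` is finite.  The abelianization of `Y` is finitely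
generated, generated by elements of finite order, hence finite (a commutative group generated by a finite set of
elements of finite order is finite: it is finitely generated and torsion, `CommGroup.finite_of_fg_torsion` or its
new name).  So `Y` is finite. -/
def S_Dietz : Prop := ∀ (X : Type u) [Group X] (t : Set X), t.Finite → (∀ x : X, ∀ y ∈ t, x * y * x⁻¹ ∈ t) →
  (∀ y ∈ t, IsOfFinOrder y) → ((Subgroup.closure t : Subgroup X) : Set X).Finite

/-- **Core** (from `Dietz`).  Proof.  (1) `cj x A` (`x ∈ L`) depends only on the coset `x K` (`cj_mul`,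
`cj_eq_of_inv`), and `L / K` is finite.  (2) `Inv (cj x K) (cj x A)` (`Inv.cj`) and `M = cj x M ≤ cj x K`.
(3) `SM L A M ≤ M` and `≤ NC L A`: clear.  (4) `y (x A x⁻¹ ∩ M) y⁻¹ = (yx) A (yx)⁻¹ ∩ M` for `y, x ∈ L` (as in
`inv_NC`).  (5) Let `S = SM L A M` and `Q = L / S` (`S.subgroupOf L` is normal).  The image of `cj x A` in `Q` is
finite: `cj x A ∩ M ≤ S` has finite index in `cj x A`, as `M` has finite index in `L`.  Let `t ⊆ Q` be the union of
the images of the `cj x A`, `x ∈ L`: finite by (1), closed under conjugation, and its elements lie in finite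
subgroups, so they have finite order.  By `Dietz` the group generated by `t` is finite; it is the image of
`NC L A`.  So `|NC L A : S|` is finite. -/
def S_Core : Prop := ∀ (G : Type u) [Group G] (K L A M : Subgroup G), K ≤ L → K.relIndex L ≠ 0 → A ≤ K → Inv K A →
  M ≤ K → M.relIndex L ≠ 0 → Inv L M →
  (Set.range fun x : L => cj (x : G) A).Finite ∧
  (∀ x ∈ L, Inv M (cj x A)) ∧
  (SM L A M ≤ M ∧ SM L A M ≤ NC L A) ∧
  Inv L (SM L A M) ∧
  (SM L A M).relIndex (NC L A) ≠ 0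

/-! ## The laws -/

/-- **LFN** (from `Ext`, `ISup`, `Core`).  Proof.  Let `M` be the normal core of `K` in `L` (as in `Com` (6)).
`S = SM L A M` is a join of locally finite subgroups of `M` (each in a conjugate of `A`), normalised by `M`: `LF S`
(`ISup` with `D = M`; `LF (cj x A)` from `LF A`).  `S.relIndex (NC L A) ≠ 0` (`Core`), so `LF (NC L A)` (`Ext`). -/
def S_LFN : Prop := ∀ (G : Type u) [Group G] (K L A : Subgroup G), K ≤ L → K.relIndex L ≠ 0 → A ≤ K → Inv K A →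
  LF A → LF (NC L A)

/-- **LFlaw** (from `Sup`, `Big`, `Com`, `LFN`).  Proof.  Call `A` good if `LF A` and `A ≤ L`, `Inv L A` for some
`L ≠ ⊤` with `H ≤ L`.  Let `U` be the union of the good subgroups.  (a) If `A` is good (with `L`) and `L ≤ L' ≠ ⊤`
then `NC L' A ≥ A` is good with `L'` (`LFN`; `L` has finite index in `L'`, being `≥ H`: `Com`).  (b) If `A`, `B` are
good (with `L₁`, `L₂`), let `L' = L₁ ⊔ L₂`: `NC L' A ⊔ NC L' B` is good with `L'` (`Sup`, `Inv.sup`).  So `U` is a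
subgroup, and each finite subset of `U` lies in a good subgroup: `LF U`.  (c) `U` is normal: `g ∈ A` good with `L`,
`x ∈ G`; take `L' ≥ L`, `x ∈ L'` (`Big`); `x g x⁻¹ ∈ NC L' A`.  So `U ≠ ⊤` (`nlf`) and `U = ⊥` (`simple`).
Now let `K`, `A` be as in the statement and `L = K ⊔ H ≠ ⊤`.  `NC L A` is good (`LFN`, `inv_NC`, `NC_le`; `Com` (3)
gives `K.relIndex L ≠ 0`), so `A ≤ NC L A ≤ U = ⊥`. -/
def S_LFlaw : Prop := ∀ (G : Type u) [Group G] (H : Subgroup G), SP H → ∀ K A : Subgroup G, Co H K → A ≤ K →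
  Inv K A → LF A → A = ⊥

/-- **QZ** (from `Schur`, `Big`, `Com`, `LFlaw`).  Proof.  Let `U` be the set of `g` such that
`(Subgroup.centralizer {g}).relIndex H ≠ 0`.  It is a subgroup (`C(g) ∩ C(g') ≤ C(g g')`).  It is normal:
`C(x g x⁻¹) = cj x C(g)`, `(cj x C(g)).relIndex (cj x H) = C(g).relIndex H ≠ 0`, and `cj x H` is commensurable with
`H` (`Com`), so `(cj x C(g)).relIndex H ≠ 0` (`relIndex_ne_zero_trans`-like).  The given `g` is in `U` (`K ≤ C(g)`).
If `U = ⊥`, done.  Suppose `U = ⊤`.  Let `L ≠ ⊤`, `H ≤ L`.  For each `g`, `C(g).relIndex L ≠ 0` (`C(g)` has finite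
index in `H`, `H` in `L`).  Then `⁅L, L⁆` is locally finite: a finite subset of it lies in `⁅X, X⁆` for some
`X = ⟨t⟩`, `t ⊆ L` finite (closure induction); the centre of `X` (it contains `X ∩ ⋂_{g ∈ t} C(g)`) has finite index
in `X`, so `⁅X, X⁆` is finite (`Schur`).  `L` normalises `⁅L, L⁆ ≤ L` and `Co H L`, so `⁅L, L⁆ = ⊥` (`LFlaw`) and
`L` is commutative.  Any two elements of `G` lie in such an `L` (`Big`), so `G` is commutative.  `G ≠ 1`
(`H.index = 0`): for `g ≠ 1` the subgroup `zpowers g` is normal, so it is `⊤` (`simple`), against `cyc`. -/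
def S_QZ : Prop := ∀ (G : Type u) [Group G] (H : Subgroup G), SP H → ∀ (K : Subgroup G) (g : G), Co H K →
  (∀ k ∈ K, g * k = k * g) → g = 1

/-- **RF** (from `Com`).  Proof.  Let `Φ = ⨅ {K : Co H K}, K` (as `sInf`).  It is normal (`Com` (4): `cj x` permutes
the `K` with `Co H K`), `Φ ≤ H ≠ ⊤` (`Co H H`), so `Φ = ⊥` (`simple`).  So there is `K'` with `Co H K'`, `x ∉ K'`;
`K₁ = K ⊓ K'` (`Com` (3): `K'.relIndex K ≠ 0`, `relIndex_inf_ne_zero`). -/
def S_RF : Prop := ∀ (G : Type u) [Group G] (H : Subgroup G), SP H → ∀ (K : Subgroup G) (x : G), Co H K →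
  x ∈ K → x ≠ 1 → ∃ K₁ : Subgroup G, K₁ ≤ K ∧ K₁.relIndex K ≠ 0 ∧ x ∉ K₁

/-! ## Nilpotent groups -/

/-- **Fit.**  Fitting's theorem.  Proof.  WLOG `X = ↥(A ⊔ B)`, `A`, `B` normal, `A B = X`.  Let `γ_i` be the lower
central series (`Subgroup.lowerCentralSeries`).  `A_i = γ_i(A)` is normal in `X`.  Let `γ_c(A) = 1`, `γ_d(B) = 1`
(Mathlib indexing, `γ_0(A) = A`).  For `x ∈ A_i` and `g = a b`: `[x, a b] ∈ [x, a] · a [x, b] a⁻¹`, and
`[A_i, A] ≤ A_{i+1}`; so `⁅A_i, ⊤⁆ ≤ ⁅A_i, B⁆ ⊔ A_{i+1}`.  By induction on `j`: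
`⁅..⁅A_i, ⊤⁆ .., ⊤⁆ (j times) ≤ (A_i ⊓ γ_{j-1}(B)) ⊔ A_{i+1}` for `j ≥ 1` (`⁅A_i ⊓ γ_{j-1}(B), ⊤⁆ ≤
(A_i ⊓ γ_j(B)) ⊔ A_{i+1}` by the same computation).  So the `(d+1)`-fold commutator of `A_i` with `X` is in
`A_{i+1}`, and the `c(d+1)`-fold commutator of `A` with `X` is trivial.  The same for `B`.  As
`⁅A ⊔ B, ⊤⁆ = ⁅A, ⊤⁆ ⊔ ⁅B, ⊤⁆` for normal subgroups, the lower central series of `X` reaches `1`.
(Another way: `A ≤ Z_k(X)` for some `k`, by induction.) -/
def S_Fit : Prop := ∀ (G : Type u) [Group G] (M A B : Subgroup G), A ≤ M → B ≤ M → Inv M A → Inv M B →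
  Group.IsNilpotent A → Group.IsNilpotent B → Group.IsNilpotent ↥(A ⊔ B)

/-- **Lay.**  Layers of the upper central series of a group with torsion-free centre.  Proof.  Induction on `i`.
`i = 0`: the hypothesis (`Z_1` = centre, `Z_0 = 1`).  `i + 1`: let `x ∈ Z_{i+2}`, `x ^ n ∈ Z_{i+1}`, `n > 0`.  For
`y ∈ X`: `c = [x, y] ∈ Z_{i+1}`, which is central modulo `Z_i`, so `[x ^ n, y] ≡ c ^ n` modulo `Z_i` (induction on
`n`, e.g. in the quotient `X ⧸ Z_i`); `[x ^ n, y] ∈ Z_i`; so `c ^ n ∈ Z_i`, so `c ∈ Z_i` (induction hypothesis).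
So `x ∈ Z_{i+1}` (`mem_upperCentralSeries_succ_iff`).  Second statement: `x ∈ Z_j` for some `j` (nilpotent); go down
from `j` to `i` with the first statement (`x ^ n ∈ Z_i ≤ Z_k` for `k ≥ i`). -/
def S_Lay : Prop := ∀ (X : Type u) [Group X], Group.IsNilpotent X →
  (∀ z ∈ Subgroup.center X, ∀ n : ℕ, 0 < n → z ^ n = 1 → z = 1) →
  ∀ (i n : ℕ) (x : X), 0 < n → x ^ n ∈ Subgroup.upperCentralSeries X i → x ∈ Subgroup.upperCentralSeries X i

/-- **Isol** (from `Lay`).  Proof.  Induction on `i` (`i = 0` clear).  Let `s ∈ Z_{i+1}(S)`, `y ∈ X`, `y ^ n ∈ S`,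
`n > 0`.  Then `[s, y ^ n] ∈ Z_i(S) ≤ Z_i(X)`.  Let `Q = X ⧸ Z_i(X)`: nilpotent, and its centre `Z_{i+1}(X)/Z_i(X)`
is torsion-free, indeed all layers are: `q ^ n ∈ Z_k(Q) → q ∈ Z_k(Q)` (from `Lay` for `X`, or apply `Lay` to `Q`
whose centre is torsion-free by `Lay`).  In `Q` roots are unique up to ... precisely: if `(y ^ n)` commutes with `s`
then `y' = s y s⁻¹` has `y' ^ n = y ^ n`.  Claim: in a nilpotent group `Q` with torsion-free centre
`a ^ n = b ^ n → a = b` (`n > 0`): induction on the class: `Q ⧸ center Q` has torsion-free centre (`Lay`), so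
`a = b z`, `z` central, `a ^ n = b ^ n z ^ n`, `z ^ n = 1`, `z = 1`.  So `s` commutes with `y` in `Q`:
`[s, y] ∈ Z_i(X)` for all `y`, i.e. `s ∈ Z_{i+1}(X)`. -/
def S_Isol : Prop := ∀ (X : Type u) [Group X] (S : Subgroup X), Group.IsNilpotent X →
  (∀ z ∈ Subgroup.center X, ∀ n : ℕ, 0 < n → z ^ n = 1 → z = 1) →
  (∀ x : X, ∃ n : ℕ, 0 < n ∧ x ^ n ∈ S) →
  ∀ (i : ℕ) (s : S), s ∈ Subgroup.upperCentralSeries S i → (s : X) ∈ Subgroup.upperCentralSeries X i

/-- **LU.**  `[γ_{i+1}, Z_{i+1}] = 1`.  Proof.  Show `⁅γ_i, Z_{j+i+1}⁆ ≤ Z_j` (Mathlib indexing, `γ_0 = ⊤`) by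
induction on `i`.  `i = 0`: definition of `Z_{j+1}`.  `i + 1`: `⁅⁅γ_i, ⊤⁆, Z_{j+i+2}⁆ ≤ Z_j` by the three subgroups
lemma modulo the normal subgroup `Z_j` (`Subgroup.commutator_commutator_eq_bot_of_rotate` in `X ⧸ Z_j`, or directly):
`⁅⁅⊤, Z_{j+i+2}⁆, γ_i⁆ ≤ ⁅Z_{j+i+1}, γ_i⁆ ≤ Z_j` and `⁅⁅Z_{j+i+2}, γ_i⁆, ⊤⁆ ≤ ⁅Z_{j+1}, ⊤⁆ ≤ Z_j`. -/
def S_LU : Prop := ∀ (X : Type u) [Group X] (i : ℕ),
  ⁅(⊤ : Subgroup X).lowerCentralSeries i, Subgroup.upperCentralSeries X (i + 1)⁆ = ⊥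

/-- **Nil** (from `Schur`, `LU`).  Proof.  Let `Z = Z_c(X)`, `C` its centralizer, both normal.  `C ∩ Z` is in the
centre of `C` and has finite index in `C`, so `C'` is finite (`Schur` for `↥C`); its image in `X` is a finite normal
subgroup (`C' = ⁅C, C⁆`), so it is trivial: `C` is commutative.  The elements of finite order of `C` form a normal
subgroup of `X`, locally finite (commutative torsion), so trivial: `C` is torsion-free.
`C ≤ Z_c`: let `m = |X : Z| > 0` (`x ^ m ∈ Z`, `Subgroup.pow_index_mem`).  For `j ≤ c`: `a ∈ C`, `a ^ m ∈ Z_j`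
implies `a ∈ Z_j`, by induction on `j`: `j = 0`: `a ^ m = 1`, `a = 1`.  `j + 1`: for `y ∈ X`, `[a, y] = a (y a⁻¹ y⁻¹)`
is a product of two elements of the commutative group `C`, so `[a, y] ^ m = a ^ m (y a⁻¹ y⁻¹) ^ m = [a ^ m, y] ∈ Z_j`
and `[a, y] ∈ C`, so `[a, y] ∈ Z_j`.
`γ_{c-1}(X)` (Mathlib indexing) centralises `Z_c` (`LU`; if `c = 0` then `X` is finite, so trivial): so
`γ_{c-1}(X) ≤ C ≤ Z_c(X)`, so `γ_{c-1+c}(X) = 1` and `X` is nilpotent. -/
def S_Nil : Prop := ∀ (X : Type u) [Group X] (c : ℕ), (Subgroup.upperCentralSeries X c).index ≠ 0 →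
  (∀ N : Subgroup X, N.Normal → LF N → N = ⊥) → Group.IsNilpotent X

/-- **Star** (from `ISup`, `Com`, `Core`, `LFlaw`, `Fit`, `Isol`, `Nil`).  Proof.  Let `M ≤ K` be as in `Com` (6):
`Co H M`, `Inv L M`; `M.relIndex L ≠ 0` (`Com` (3)).  `D = NC L A`, `S = SM L A M`.
(a) `S` is nilpotent: by `Core` it is a join of finitely many subgroups `cj x A ⊓ M`, commutative, normalised by `M`:
`Fit` and induction.
(b) For `x ∈ L`: `B_x = cj x A ⊔ S` is nilpotent and normalised by `cj x K`: `cj x A ≤ cj x K`, `S ≤ M = cj x M ≤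
cj x K ≤ L`, `Inv (cj x K) (cj x A)`, `Inv L S`: `Fit`.  `Co H (cj x K)`.  The centre of `B_x` is torsion-free: its
elements of finite order form a locally finite subgroup (commutative, torsion) normalised by `cj x K` (image in `G`
of a characteristic subgroup of `B_x`), so trivial by `LFlaw`.
(c) For each `y ∈ B_x` there is `n > 0` with `y ^ n ∈ S` (`S.relIndex D ≠ 0`, `B_x ≤ D`).  By `Isol`
`Z_i(S) ≤ Z_i(B_x)`.  So for `s ∈ Z_{i+1}(S)`, `y ∈ cj x A`: `[s, y] ∈ Z_i(B_x) ∩ S ≤ Z_i(S)` (a general fact for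
subgroups).
(d) `Z_i(S) ≤ Z_i(D)` by induction: for `s ∈ Z_{i+1}(S)` the set of `y ∈ D` with `[s, y] ∈ Z_i(D)` is a subgroup
(centralizer modulo the normal subgroup `Z_i(D)`) which contains all `cj x A` by (c) and the induction hypothesis.
So `S ≤ Z_c(D)`, where `c` is the class of `S`: `Z_c(D)` has finite index in `D`.
(e) `D` has no nontrivial locally finite normal subgroup: if `N` is one, then `⨆ x : L, cj x N` (in `G`) is a join of
locally finite subgroups of `D`, normalised by `D` (`Inv L D`), so it is locally finite (`ISup`), it is normalised by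
`L` and `Co H L` (`L ≠ ⊤`; `L ≥ K`, `K.relIndex H ≠ 0`), so it is trivial (`LFlaw`).  By `Nil` `D` is nilpotent. -/
def S_Star : Prop := ∀ (G : Type u) [Group G] (H : Subgroup G), SP H → ∀ K A L : Subgroup G, Co H K → A ≤ K →
  Inv K A → (∀ a ∈ A, ∀ b ∈ A, a * b = b * a) → K ≤ L → L ≠ ⊤ → Group.IsNilpotent ↥(NC L A)

/-- **Simp.**  Proof.  Suppose `a g ≠ g a`; `b = [a, g] ≠ 1`.  The normal closure of `b` is `⊤`, so `a` is a product
of conjugates `x_i b^{±1} x_i⁻¹`, `i ≤ n`.  Let `X` be a nilpotent subgroup containing `a, g, x_1, ..., x_n`.  Let `P`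
be the normal closure of `a` in `X`.  `b = [a, g] ∈ ⁅P, X⁆`, normal in `X`, so `a ∈ ⁅P, X⁆` and `P ≤ ⁅P, X⁆`.  So
`P ≤ γ_i(X)` for all `i` (induction), `P = 1`, `a = 1`, contradiction. -/
def S_Simp : Prop := ∀ (G : Type u) [Group G], (∀ N : Subgroup G, N.Normal → N = ⊥ ∨ N = ⊤) →
  (∀ s : Finset G, ∃ X : Subgroup G, (s : Set G) ⊆ X ∧ Group.IsNilpotent X) → ∀ a g : G, a * g = g * a

/-- **Ab** (from `Big`, `Com`, `Star`, `Simp`).  Proof.  Suppose `A ≠ ⊥`.  `NC ⊤ A` is normal and nontrivial, so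
`⊤`.  So a finite `s` is contained in the join of `cj x A`, `x ∈ t`, for a finite set `t`, so in `NC L A` for a proper
`L` containing `K`, `t` (`Big`), which is nilpotent (`Star`).  By `Simp` `G` is commutative.  `G ≠ 1`: for `g ≠ 1`
`zpowers g` is normal, so `⊤`, against `cyc`. -/
def S_Ab : Prop := ∀ (G : Type u) [Group G] (H : Subgroup G), SP H → ∀ K A : Subgroup G, Co H K → A ≤ K →
  Inv K A → (∀ a ∈ A, ∀ b ∈ A, a * b = b * a) → A = ⊥

/-! ## The theorem -/

/-- The structure of a totally imprimitive barely transitive group which is not locally finite. -/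
def Struct {G : Type u} [Group G] (H R : Subgroup G) : Prop :=
  R.Normal ∧ R ≠ ⊤ ∧ LF R ∧ (∀ N : Subgroup G, N.Normal → N ≠ ⊤ → N ≤ R) ∧
  ∀ K : Subgroup G, Co H K →
    (∀ g : G, (∀ k ∈ K, g * k * g⁻¹ * k⁻¹ ∈ R) → g ∈ R) ∧
    (∀ N : Subgroup G, N ≤ K → Inv K N →
      (∀ s : Finset G, (s : Set G) ⊆ N → R.relIndex (Subgroup.closure (s : Set G)) ≠ 0) → N ≤ R) ∧
    (∀ N : Subgroup G, N ≤ K → Inv K N → (∀ a ∈ N, ∀ b ∈ N, a * b * a⁻¹ * b⁻¹ ∈ R) → N ≤ R) ∧
    (∀ x ∈ K, x ∉ R → ∃ K₁ : Subgroup G, K₁ ≤ K ∧ R ⊓ K ≤ K₁ ∧ K₁.relIndex K ≠ 0 ∧ x ∉ K₁)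

/-- **Main** (from `Ext`, `Quot`, `Rad`, `LFlaw`, `QZ`, `RF`, `Ab`).  Proof.  `R` from `Rad`;
`π = QuotientGroup.mk' R : G → Q = G ⧸ R`.  `SP (H.map π)`: `TB` by `Quot`; a normal subgroup `N'` of `Q` is
`(comap π N').map π`, and `comap π N'` is `⊤` or `≤ R`; if `LF (⊤ : Subgroup Q)` then `LF (⊤ : Subgroup G)` by `Ext`
with `A = R` (`R.relIndex ⟨s⟩ = |π(⟨s⟩)|`, `⟨π(s)⟩` finite; `Subgroup.relIndex_ker`).  If `Co H K` then
`Co (H.map π) (K.map π)` (`relIndex_map_map`: `(K.map π).relIndex (H.map π) = (K ⊔ R).relIndex (H ⊔ R)`, nonzero as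
`K.relIndex H ≠ 0`: index of `K ⊔ R` in `H ⊔ R` divides/is at most that of `K ∩ H` in `H`; or map the cosets).
Then: (B1) is `QZ` for `π g`, `K.map π`.  (B2) `LFlaw` for `N.map π`: a finite subset of `N.map π` is `π(s)`,
`s ⊆ N` finite, and `⟨π(s)⟩ = π(⟨s⟩)` is finite (`relIndex_ker`).  (B3) `Ab` for `N.map π`.  (B4) `RF` for `π x`,
`K.map π` gives `K₁'`; `K₁ = K ⊓ comap π K₁'`. -/
def S_Main : Prop := ∀ (G : Type u) [Group G] (H : Subgroup G), TB H →
  (∀ N : Subgroup G, N.Normal → N ≤ H → N = ⊥) → ¬ LF (⊤ : Subgroup G) → ∃ R : Subgroup G, Struct H R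

/-- **Hyp** (from `Com`, `Main`).  Proof.  Suppose not `LF ⊤`; `R` from `Main`.  `Co H K` as `K ≤ H`,
`K.relIndex H ≠ 0`.  If `K ≤ R` then (B1) gives `g ∈ R` for each `g` (`R` normal), `R = ⊤`, excluded.  So
`N = K ⊓ R` is a proper subgroup of `K`, normalised by `K`.  Let `M` be as in the hypothesis.  In the first case
`R.relIndex ⟨s⟩ ≠ 0` for finite `s ⊆ M` (as `N ≤ R`), in the second `[a, b] ∈ R` on `M`; so `M ≤ R` by (B2)/(B3),
`M ≤ K ⊓ R = N`, contradiction. -/
def S_Hyp : Prop := ∀ (G : Type u) [Group G] (H : Subgroup G), TB H →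
  (∀ N : Subgroup G, N.Normal → N ≤ H → N = ⊥) → ∀ K : Subgroup G, K ≤ H → K.relIndex H ≠ 0 →
  (∀ N : Subgroup G, N < K → Inv K N → ∃ M : Subgroup G, N < M ∧ M ≤ K ∧ Inv K M ∧
    ((∀ s : Finset G, (s : Set G) ⊆ M → N.relIndex (Subgroup.closure (s : Set G)) ≠ 0) ∨
     (∀ a ∈ M, ∀ b ∈ M, a * b * a⁻¹ * b⁻¹ ∈ N))) →
  LF (⊤ : Subgroup G)

end Pool.Agent.MPcc2398
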