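import Pool.Agent.Lib.MP_cc2398_al.Spec

/-!
# MP_cc2398_al: second part, finitely generated point stabilizers

THEOREM P.  Let `G` be a totally imprimitive barely transitive group, not locally finite, with finitely generated
point stabilizer, `R` its largest proper normal subgroup.  If `K` is commensurable with a point stabilizer and
`N₁, N₂` are normal subgroups of `K` with `[N₁, N₂] ≤ R`, then `N₁ ≤ R` or `N₂ ≤ R`.

THEOREM F.  Let `G` be a totally imprimitive barely transitive group such that some finitely generated subgroup has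
no fixed point, and let `g` be an element whose normal closure is `G`.  Then `|Fix_B(g)| / |B| → 0` over the finite
blocks `B`.

Both follow from `T1`, a zero-one law for equivariant families of subgroups (in other words: a simple totally
imprimitive barely transitive group has no nontrivial invariant random subgroups).
-/

set_option autoImplicit false

namespace Pool.Agent.MPcc2398

universe u v

open Filter Topology

/-- An exhausting chain: `L 0 ≤ L 1 ≤ ...`, each element of `G` is in some `L n`, each proper subgroup is contained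
in some `L n`. -/
structure Chn {G : Type u} [Group G] (L : ℕ → Subgroup G) : Prop where
  mono : Monotone L
  mem : ∀ g : G, ∃ n, g ∈ L n
  bdd : ∀ X : Subgroup G, X ≠ ⊤ → ∃ n, X ≤ L n

/-- An equivariant family: `O n` is a finite nonempty type, `Z n ε` is a subgroup of `G` for `ε : O n`, and each
`x ∈ L n` permutes `O n` so that `Z n (σ ε) = x (Z n ε) x⁻¹`. -/
structure Eqv {G : Type u} [Group G] (L : ℕ → Subgroup G) (O : ℕ → Type v) [∀ n, Fintype (O n)]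
    (Z : ∀ n, O n → Subgroup G) : Prop where
  ne : ∀ n, Nonempty (O n)
  eqv : ∀ n, ∀ x ∈ L n, ∃ σ : Equiv.Perm (O n), ∀ ε : O n, Z n (σ ε) = cj x (Z n ε)

/-- The proportion of the `ε ∈ O` with property `p`. -/
noncomputable def dn (O : Type v) [Fintype O] (p : O → Prop) : ℝ :=
  (Nat.card {ε : O // p ε} : ℝ) / (Nat.card O : ℝ)

/-- **Chain.**  Proof.  Define `L n` recursively: `L 0` is a subgroup `≥ K₀ ⊔ H` with `P`; given `L n ≠ ⊤` choose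
`y ∉ L n` and `L (n+1) ≥ L n ⊔ zpowers y` with `P`, `≠ ⊤` (`join`, `cyc`).  The union `V` of the `L n` is a subgroup
(monotone chain) with `H ≤ V`; if `V ≠ ⊤` then `H.relIndex V ≠ 0`, so `V` is the union of finitely many cosets
`x_i H`; the `x_i` lie in one `L n`, so `V ≤ L n`, but `L (n+1) ≤ V` is not `≤ L n`.  So `V = ⊤`: `mem`.
If `X ≠ ⊤` then `X ⊔ H ≠ ⊤` is a union of finitely many cosets of `H`, whose representatives lie in one `L n`:
`X ≤ L n`. -/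
def S_Chain : Prop := ∀ (G : Type u) [Group G] (H : Subgroup G), TB H → ∀ (K₀ : Subgroup G), K₀ ≠ ⊤ →
  ∀ P : Subgroup G → Prop, (∀ K : Subgroup G, K ≠ ⊤ → ∃ L : Subgroup G, K ≤ L ∧ L ≠ ⊤ ∧ P L) →
  ∃ L : ℕ → Subgroup G, Chn L ∧ ∀ n, L n ≠ ⊤ ∧ H ≤ L n ∧ K₀ ≤ L n ∧ P (L n)

/-- **Lim.**  Limits along an ultrafilter.  Proof.  `isCompact_Icc.ultrafilter_le_nhds` applied to the image
ultrafilter `𝒰.map f`, which contains `Set.Icc 0 1`. -/
def S_Lim : Prop := ∀ (𝒰 : Ultrafilter ℕ) (f : ℕ → ℝ), (∀ n, 0 ≤ f n ∧ f n ≤ 1) →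
  ∃ c : ℝ, 0 ≤ c ∧ c ≤ 1 ∧ Tendsto f (𝒰 : Filter ℕ) (𝓝 c)

/-- **Cpt.**  Limits of subgroups.  Proof.  Let `𝒱 = hyperfilter ℕ` and `X = {x | ∀ᶠ K in 𝒱, x ∈ X' K}`: a subgroup.
For `k` the set `W k` is finite and for all `K ≥ k` some `w ∈ W k` is in `X' K` and not in `L k`: some `w ∈ W k` has
this property for `𝒱`-almost all `K` (a finite union of sets is in an ultrafilter iff one of them is:
`Ultrafilter.eventually_or`, `Ultrafilter.finite_biUnion_mem_iff`).  So `w ∈ X`, `w ∉ L k`: `X` is not contained in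
any `L k`, so `X = ⊤` (`Chn.bdd`).  But for all `K` some `f ∈ F` is not in `X' K`, so some `f ∈ F` is not in `X' K`
for `𝒱`-almost all `K`, so `f ∉ X`.  Contradiction. -/
def S_Cpt : Prop := ∀ (G : Type u) [Group G] (L : ℕ → Subgroup G), Chn L → ∀ (F : Finset G) (W : ℕ → Finset G)
  (X' : ℕ → Subgroup G), (∀ K, ∀ k ≤ K, ∃ w ∈ W k, w ∈ X' K ∧ w ∉ L k) → (∀ K, ∃ f ∈ F, f ∉ X' K) → False

/-- **ClaimA** (from `Lim`, `Cpt`).  Proof.  For `k : ℕ`, `W : Finset G` let `e(k,W)` be the limit along `𝒰` (`Lim`) of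
`dn (O n) {ε | ∃ w ∈ W, w ∈ Z n ε ∧ w ∉ L k}` and `q k = ⨆ W, e(k,W) ∈ [0,1]`; `e` is increasing in `W` and decreasing
in `k` (`L` is monotone), so `q` is decreasing.  Let `q = ⨅ k, q k`.  The claim is `q < δ` for each `δ > 0`; suppose
`q > 0`.  Choose `W k` increasing with `e(k, W k) ≥ q k - q / 2 ^ (k+2)`.  For `K : ℕ` let
`A n = {ε : O n | ∀ k ≤ K, ∃ w ∈ W k, w ∈ Z n ε ∧ w ∉ L k}`.  The set
`{ε | ∃ w ∈ W K, w ∈ Z n ε ∧ w ∉ L K}` minus `A n` is contained in the union over `k < K` of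
`{ε | ∃ w ∈ W K, w ∈ Z n ε ∧ w ∉ L k} \ {ε | ∃ w ∈ W k, w ∈ Z n ε ∧ w ∉ L k}`, and the limit of the proportion of the
`k`-th one is `e(k, W K) - e(k, W k) ≤ q k - e(k, W k) ≤ q / 2 ^ (k+2)`.  So the limit of the proportion of `A n` is at
least `e(K, W K) - ∑_{k<K} q / 2^(k+2) ≥ q - ∑_{k ≤ K} q / 2^(k+2) ≥ q / 2 > 0`.  So for `𝒰`-many `n` the set `A n` is
nonempty; choose one with `∀ ε, ∃ f ∈ F, f ∉ Z n ε` (`hF`), take `ε ∈ A n` and `X' K = Z n ε`.  Now `Cpt` gives a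
contradiction.  (`dn` is monotone and subadditive in the set.)  So `q = 0`, and there is `k` with `q k < δ`, which is
more than the assertion: `e(k,{w}) < δ`, so `dn (O n) {ε | w ∈ Z n ε} < δ` for `𝒰`-almost all `n` if `w ∉ L k`. -/
def S_ClaimA : Prop := ∀ (G : Type u) [Group G] (L : ℕ → Subgroup G), Chn L →
  ∀ (O : ℕ → Type v) [∀ n, Fintype (O n)] (Z : ∀ n, O n → Subgroup G), (∀ n, Nonempty (O n)) →
  ∀ (𝒰 : Ultrafilter ℕ) (F : Finset G),
  (∀ᶠ n in (𝒰 : Filter ℕ), ∀ ε : O n, ∃ f ∈ F, f ∉ Z n ε) →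
  ∀ δ : ℝ, 0 < δ → ∃ k : ℕ, ∀ w : G, w ∉ L k →
    ∀ᶠ n in (𝒰 : Filter ℕ), dn (O n) (fun ε => w ∈ Z n ε) < δ

/-- **T1** (from `ClaimA`).  The zero-one law.  Proof.  Let `𝒰` be an ultrafilter `≤ atTop` containing the set of `n`
in `hfreq` (`Ultrafilter.of` of `atTop ⊓ 𝓟 S`, which is `NeBot` by frequently).  `ClaimA` gives `k`.  Let `z : G` and
suppose `g ∉ cj z (L k)`, i.e. `w = z⁻¹ g z ∉ L k`.  For `n` large `z ∈ L n` (`mono`, `mem`), and the permutation `σ`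
of `O n` for `z` gives a bijection of `{ε | w ∈ Z n ε}` with `{ε | g ∈ Z n ε}` (`g ∈ cj z (Z n ε) ↔ w ∈ Z n ε`).  So
`δ ≤ dn (O n) {g ∈ Z} = dn (O n) {w ∈ Z} < δ` for some `n`, contradiction. -/
def S_T1 : Prop := ∀ (G : Type u) [Group G] (L : ℕ → Subgroup G), Chn L →
  ∀ (O : ℕ → Type v) [∀ n, Fintype (O n)] (Z : ∀ n, O n → Subgroup G), Eqv L O Z →
  ∀ (F : Finset G) (g : G) (δ : ℝ), 0 < δ →
  (∃ᶠ n in atTop, δ ≤ dn (O n) (fun ε => g ∈ Z n ε) ∧ ∀ ε : O n, ∃ f ∈ F, f ∉ Z n ε) →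
  ∃ k : ℕ, ∀ z : G, g ∈ cj z (L k)

/-- **Dec** (decisive subgroup).  Proof.  Induction on the finite set `𝒩`, starting with `E = D`.  Given `E ≠ ⊥` for
`𝒩` and a further `P`: if `E ⊓ P ≠ ⊥` replace `E` by `E ⊓ P`; otherwise for `e ∈ E`, `p ∈ P`:
`e p e⁻¹ p⁻¹ ∈ E ⊓ P = ⊥` (`E`, `P` are normalised by `D`), so `E` and `P` commute. -/
def S_Dec : Prop := ∀ (G : Type u) [Group G] (D : Subgroup G), D ≠ ⊥ → ∀ 𝒩 : Set (Subgroup G), 𝒩.Finite →
  (∀ P ∈ 𝒩, P ≤ D ∧ Inv D P) →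
  ∃ E : Subgroup G, E ≠ ⊥ ∧ E ≤ D ∧ Inv D E ∧ ∀ P ∈ 𝒩, E ≤ P ∨ ∀ e ∈ E, ∀ p ∈ P, e * p = p * e

/-- **Step** (from `Com`, `QZ`, `Ab`, `Dec`).  Proof.  `D ≤ K` from `Com` (6) for `K ≤ L`: `Co H D`, `Inv L D`.
`D ≠ ⊥` (otherwise each `g` commutes with `D`, so `g = 1` by `QZ`, against `H.index = 0`).  `D` has finite index in `L`
(`Com` (3)).  `𝒩 = {cj x N ⊓ D | x ∈ L}` is finite: `cj x N` depends only on the coset `x K`.  Its elements are
`≤ D` and normalised by `D` (`D = cj x D ≤ cj x K`).  Let `E` be as in `Dec`; `𝒪 = {cj x E | x ∈ L}`, finite, since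
`cj x E` depends only on `x D`; it is closed under `cj y`, `y ∈ L`, and `⊥ ∉ 𝒪`.  Let `ε = cj y E ∈ 𝒪`.  Then `E`
decides `cj y⁻¹ N ⊓ D = cj y⁻¹ (N ⊓ D)`, so `ε ≤ N ⊓ D`, or `ε` commutes with `N ⊓ D`.
First case: the elements of `C` commute with `ε ≤ N`.
Second case: let `n ∈ N`, `e ∈ ε ≤ D`; `t = n e n⁻¹ e⁻¹ = n (e n⁻¹ e⁻¹) ∈ N` (`e ∈ D ≤ K`), `t = (n e n⁻¹) e⁻¹ ∈ D`
(`n ∈ L` normalises `D`), and `t` commutes with `N ⊓ D`, since `e` does and `n e n⁻¹` does (`n` normalises `N ⊓ D`).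
`(N ⊓ D) ⊓ C(N ⊓ D)` is commutative and normalised by `D`, so it is `⊥` (`Ab`): `t = 1`.  So `N` commutes with `ε`. -/
def S_Step : Prop := ∀ (G : Type u) [Group G] (H : Subgroup G), SP H → ∀ K N C L : Subgroup G, Co H K → N ≤ K →
  Inv K N → (∀ c ∈ C, ∀ n ∈ N, c * n = n * c) → K ≤ L → L ≠ ⊤ →
  ∃ 𝒪 : Set (Subgroup G), 𝒪.Finite ∧ 𝒪.Nonempty ∧ ⊥ ∉ 𝒪 ∧ (∀ x ∈ L, ∀ ε ∈ 𝒪, cj x ε ∈ 𝒪) ∧
    ∀ ε ∈ 𝒪, (∀ c ∈ C, ∀ e ∈ ε, c * e = e * c) ∨ (∀ n ∈ N, ∀ e ∈ ε, n * e = e * n)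

/-- **Prime** (from `QZ`, `Chain`, `T1`, `Step`).  Proof.  Suppose `a ∈ N₁`, `a ≠ 1`, `b ∈ N₂`, `b ≠ 1`.  `Chain` with
`K₀ = K` and `P` = true (`L` itself) gives `L`.  For each `n` take `𝒪 n` from `Step` for `N = N₁`, `C = N₂`,
`L = L n`; `O n = ↥(𝒪 n)` (finite), `Z n ε = Subgroup.centralizer ε`, `σ` = `ε ↦ cj x ε` (a bijection, inverse
`cj x⁻¹`), `centralizer (cj x ε) = cj x (centralizer ε)`: `Eqv`.  For each `ε`, `a ∈ Z` or `b ∈ Z`, so
`dn {a ∈ Z} + dn {b ∈ Z} ≥ 1` and one of them is `≥ 1/2`; one of `a`, `b`, say `g`, has `dn (O n) {g ∈ Z} ≥ 1/2` for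
infinitely many `n`.  Let `F` be a finite set generating `H`.  If `F ⊆ centralizer ε` then each `e ∈ ε` commutes with
`H`, so `e = 1` (`QZ` with `K = H`), `ε = ⊥`, excluded.  So `T1` gives `k` with `g ∈ cj z (L k)` for all `z`; the
intersection of the `cj z (L k)` is a normal subgroup `≤ L k ≠ ⊤`, so it is `⊥` (`simple`) and `g = 1`,
contradiction. -/
def S_Prime : Prop := ∀ (G : Type u) [Group G] (H : Subgroup G), SP H → H.FG → ∀ K N₁ N₂ : Subgroup G, Co H K →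
  N₁ ≤ K → N₂ ≤ K → Inv K N₁ → Inv K N₂ → (∀ a ∈ N₁, ∀ b ∈ N₂, a * b = b * a) → N₁ = ⊥ ∨ N₂ = ⊥

/-- **PrimeR** (from `Ext`, `Quot`, `Rad`, `Prime`).  Proof.  As in `Main` (see `Main.lean` on main, which contains all
steps): `R` from `Rad`, `π = QuotientGroup.mk' R`, `SP (H.map π)`, `(H.map π).FG`, `Co (H.map π) (K.map π)`; apply
`Prime` to `N₁.map π`, `N₂.map π`. -/
def S_PrimeR : Prop := ∀ (G : Type u) [Group G] (H : Subgroup G), TB H →
  (∀ N : Subgroup G, N.Normal → N ≤ H → N = ⊥) → ¬ LF (⊤ : Subgroup G) → H.FG →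
  ∃ R : Subgroup G, R.Normal ∧ R ≠ ⊤ ∧ LF R ∧ (∀ N : Subgroup G, N.Normal → N ≠ ⊤ → N ≤ R) ∧
  ∀ K N₁ N₂ : Subgroup G, Co H K → N₁ ≤ K → N₂ ≤ K → Inv K N₁ → Inv K N₂ →
    (∀ a ∈ N₁, ∀ b ∈ N₂, a * b * a⁻¹ * b⁻¹ ∈ R) → N₁ ≤ R ∨ N₂ ≤ R

/-- **Fix** (from `Act`, `Chain`, `T1`).  Proof.  Suppose the contrary: for some `δ > 0` and each finite `B₀` there is
a finite block `B ⊇ B₀` with `δ |B| < |{β ∈ B : g β = β}|`.  Fix `ω ∈ Ω` (`Ω` is infinite), `H = stabilizer G ω`,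
`TB H` (`Act`).  Let `P L` say: there is a finite block `B ∋ ω` with `L = {x | x • B = B}` (`MulAction.stabilizer G B`
for the action on `Set Ω`) and `δ |B| < |{β ∈ B : g β = β}|`.  For `K ≠ ⊤` the orbit of `ω` under `K` is finite; let
`B₀` be this orbit with `ω` (it contains `ω`), and `B ⊇ B₀` as above: for `k ∈ K`, `k • ω ∈ B ∩ k • B`, so
`k • B = B`: `K ≤ L`; `L ω ⊆ B` is finite, so `L ≠ ⊤` (transitivity, `Ω` infinite).  `Chain` (with `K₀ = ⊥`; `⊥ ≠ ⊤`)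
gives a chain with blocks `B n`; `O n = ↥(B n)`, `Z n β = stabilizer G β`, `σ` = `β ↦ x β` for `x ∈ L n`,
`MulAction.stabilizer_smul_eq_stabilizer_map_conj`.  `dn (O n) {g ∈ Z} ≥ δ` for all `n`, and no stabilizer contains
`s`.  `T1` gives `k` with `g ∈ cj z (L k)` for all `z`: `g` lies in a normal subgroup contained in `L k ≠ ⊤` (the
intersection of the conjugates), against `normalClosure {g} = ⊤`. -/
def S_Fix : Prop := ∀ (G : Type u) [Group G] (Ω : Type v) [MulAction G Ω], Infinite Ω → FaithfulSMul G Ω →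
  MulAction.IsPretransitive G Ω →
  (∀ K : Subgroup G, K ≠ ⊤ → ∀ ω : Ω, (MulAction.orbit K ω).Finite) →
  (∀ F : Set Ω, F.Finite → ∃ B : Set Ω, F ⊆ B ∧ B.Finite ∧ MulAction.IsBlock G B) →
  ∀ s : Finset G, (∀ ω : Ω, ∃ x ∈ s, x • ω ≠ ω) →
  ∀ g : G, Subgroup.normalClosure {g} = (⊤ : Subgroup G) → ∀ δ : ℝ, 0 < δ →
  ∃ B₀ : Set Ω, B₀.Finite ∧ ∀ B : Set Ω, B₀ ⊆ B → B.Finite → MulAction.IsBlock G B →
    (Nat.card {β : Ω // β ∈ B ∧ g • β = β} : ℝ) ≤ δ * (Nat.card B : ℝ)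

/-- **NoFix** (from `Com`, `Big`).  If `H` is finitely generated then some finite set is not contained in any conjugate
of `H`.  Proof.  `Big` gives a proper `L ≥ H` with an element outside `H` (`H ≠ ⊤`); `H.relIndex L ≠ 0`, so `L` is
generated by a finite set `s` (generators of `H` and representatives of the cosets).  If `s ⊆ cj x H` then
`H ≤ L ≤ cj x H`, `H ≠ L`.  Let `L' ≠ ⊤` contain `L`, `x` (`Big`).  `H.relIndex L' = (cj x H).relIndex L'`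
(`relIndex_map_map_of_injective` with `cj x L' = L'`), nonzero; `H ≤ cj x H ≤ L'`, so
`H.relIndex (cj x H) * (cj x H).relIndex L' = H.relIndex L'` gives `H.relIndex (cj x H) = 1`, `cj x H ≤ H`, so
`L ≤ H`, contradiction. -/
def S_NoFix : Prop := ∀ (G : Type u) [Group G] (H : Subgroup G), TB H → H.FG →
  ∃ s : Finset G, ∀ x : G, ∃ y ∈ s, y ∉ cj x H

end Pool.Agent.MPcc2398
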